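import Pool.Agent.Lib.MP_1e63be_al.Form

set_option autoImplicit false
set_option linter.unusedSectionVars false

universe u v w

namespace Pool.Agent.Lib.MP_1e63be_al

variable {R : Type u} [Ring R]

/-- algebraic compactness, phrased with homomorphisms -/
def AC (R : Type u) [Ring R] (N : Type u) [AddCommGroup N] [Module R N] : Prop :=
  ∀ (F : Type u) [AddCommGroup F] [Module R F] (J : Type u) (e : J → F) (c : J → N),
    (∀ s : Finset J, ∃ h : F →ₗ[R] N, ∀ j ∈ s, h (e j) = c j) →
      ∃ h : F →ₗ[R] N, ∀ j, h (e j) = c j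

theorem exists_finset_span {X : Type u} [AddCommGroup X] [Module R X] {J : Type v} (g : J → X)
    {μ : Type w} [Finite μ] (x : μ → X) (hx : ∀ k, x k ∈ Submodule.span R (Set.range g)) :
    ∃ s : Finset J, ∀ k, x k ∈ Submodule.span R (g '' (s : Set J)) := by
  classical
  have : ∀ k, ∃ s : Finset J, x k ∈ Submodule.span R (g '' (s : Set J)) := by
    intro k
    obtain ⟨c, hc⟩ := (Finsupp.mem_span_range_iff_exists_finsupp).1 (hx k)
    refine ⟨c.support, ?_⟩
    rw [← hc]
    exact Submodule.sum_mem _ fun j hj =>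
      Submodule.smul_mem _ _ (Submodule.subset_span ⟨j, hj, rfl⟩)
  choose s hs using this
  have := Fintype.ofFinite μ
  refine ⟨Finset.univ.biUnion s, fun k => Submodule.span_mono (Set.image_mono ?_) (hs k)⟩
  exact Finset.coe_subset.2 (Finset.subset_biUnion_of_mem s (Finset.mem_univ k))

theorem AC_of_pinj {N : Type u} [AddCommGroup N] [Module R N] (hN : IsPureInj R N) :
    AC R N := by
  intro F _ _ J e c hfin
  let g : J → N × F := fun j => (c j, -e j)
  let P : Submodule R (N × F) := Submodule.span R (Set.range g)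
  let f : N →ₗ[R] (N × F) ⧸ P := P.mkQ ∘ₗ LinearMap.inl R N F
  have key : ∀ {μ : Type} [Finite μ] (x : μ → N × F), (∀ k, x k ∈ P) →
      ∃ H : (N × F) →ₗ[R] N, (∀ n, H (n, 0) = n) ∧ ∀ k, H (x k) = 0 := by
    intro μ _ x hx
    obtain ⟨s, hs⟩ := exists_finset_span g x hx
    obtain ⟨h, hh⟩ := hfin s
    refine ⟨LinearMap.coprod LinearMap.id h, fun n => by simp, fun k => ?_⟩
    have : Submodule.span R (g '' (s : Set J)) ≤ LinearMap.ker (LinearMap.coprod LinearMap.id h) := by
      rw [Submodule.span_le]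
      rintro _ ⟨j, hj, rfl⟩
      simp [g, hh j hj]
    exact this (hs k)
  have hf : IsPureEmb f := by
    constructor
    · rw [injective_iff_map_eq_zero]
      intro n hn
      have hn' : ((n, 0) : N × F) ∈ P := by
        simpa [f] using hn
      obtain ⟨H, h1, h2⟩ := key (μ := Unit) (fun _ => (n, 0)) (fun _ => hn')
      rw [← h1 n]; exact h2 ()
    · rintro n m C d ⟨y, hy⟩
      choose z hz using fun i => P.mkQ_surjective (y i)
      obtain ⟨H, h1, h2⟩ := key (μ := Fin m) (fun j => ∑ i, C j i • z i - (d j, 0)) (fun j => by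
        rw [← Submodule.Quotient.mk_eq_zero, ← P.mkQ_apply, map_sub, map_sum]
        simp only [map_smul, hz, hy j]
        simp [f])
      refine ⟨fun i => H (z i), fun j => ?_⟩
      have := h2 j
      rw [map_sub, map_sum, h1] at this
      simp only [map_smul] at this
      exact sub_eq_zero.1 this
  obtain ⟨r, hr⟩ := hN N _ f hf LinearMap.id
  refine ⟨r ∘ₗ P.mkQ ∘ₗ LinearMap.inr R N F, fun j => ?_⟩
  have h1 : P.mkQ (0, e j) = f (c j) := by
    simp only [f, LinearMap.comp_apply, LinearMap.inl_apply, Submodule.mkQ_apply]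
    rw [eq_comm, Submodule.Quotient.eq]
    have : ((c j, 0) : N × F) - (0, e j) = g j := by simp [g]
    rw [this]
    exact Submodule.subset_span ⟨j, rfl⟩
  have h2 := LinearMap.congr_fun hr (c j)
  simp only [LinearMap.comp_apply, LinearMap.inr_apply, h1]
  simpa using h2

theorem factor_of_ker {F B N : Type*} [AddCommGroup F] [Module R F] [AddCommGroup B]
    [Module R B] [AddCommGroup N] [Module R N] (π : F →ₗ[R] B) (hπ : Function.Surjective π)
    (h : F →ₗ[R] N) (hk : ∀ x, π x = 0 → h x = 0) : ∃ k : B →ₗ[R] N, ∀ x, k (π x) = h x := by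
  refine ⟨((LinearMap.ker π).liftQ h (fun x hx => hk x hx)) ∘ₗ
    (π.quotKerEquivOfSurjective hπ).symm.toLinearMap, fun x => ?_⟩
  have : (π.quotKerEquivOfSurjective hπ).symm (π x) = Submodule.Quotient.mk x := by
    rw [LinearEquiv.symm_apply_eq]; rfl
  simp [this]

theorem pure_gen {A B : Type u} [AddCommGroup A] [Module R A] [AddCommGroup B] [Module R B]
    {f : A →ₗ[R] B} (hf : IsPureEmb f) {κ μ : Type w} [Fintype κ] [Fintype μ]
    (C : μ → κ → R) (c : μ → A) (h : ∃ y : κ → B, ∀ j, ∑ i, C j i • y i = f (c j)) :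
    ∃ y : κ → A, ∀ j, ∑ i, C j i • y i = c j := by
  let eκ := Fintype.equivFin κ
  let eμ := Fintype.equivFin μ
  obtain ⟨y, hy⟩ := h
  obtain ⟨z, hz⟩ := hf.2 _ _ (fun j i => C (eμ.symm j) (eκ.symm i)) (fun j => c (eμ.symm j))
    ⟨fun i => y (eκ.symm i), fun j => by
      rw [← hy]; exact (Fintype.sum_equiv eκ.symm _ _ (fun i => by simp))⟩
  refine ⟨fun i => z (eκ i), fun j => ?_⟩
  have := hz (eμ j)
  simp only [Equiv.symm_apply_apply] at this
  rw [← this]
  exact (Fintype.sum_equiv eκ _ _ (fun i => by simp))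

theorem pinj_of_AC {N : Type u} [AddCommGroup N] [Module R N] (hN : AC R N) :
    IsPureInj R N := by
  classical
  intro A B _ _ _ _ f hf g
  let π : (B →₀ R) →ₗ[R] B := Finsupp.linearCombination R id
  have hπ : Function.Surjective π := fun b => ⟨Finsupp.single b 1, by simp [π]⟩
  let e : LinearMap.ker π ⊕ A → (B →₀ R) :=
    Sum.elim (fun k => k.1) (fun a => Finsupp.single (f a) 1)
  let c' : LinearMap.ker π ⊕ A → A := Sum.elim (fun _ => 0) id
  have hc : ∀ j, π (e j) = f (c' j) := by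
    rintro (k | a)
    · simp [e, c']
    · simp [e, c', π]
  obtain ⟨h, hh⟩ := hN (B →₀ R) (LinearMap.ker π ⊕ A) e (fun j => g (c' j)) (fun s => by
    let t : Finset B := s.biUnion fun j => (e j).support
    have ht : ∀ j ∈ s, (e j).support ⊆ t := fun j hj =>
      Finset.subset_biUnion_of_mem (fun j => (e j).support) hj
    have key : ∀ (M : Type u) [AddCommGroup M] [Module R M] (y : B → M), ∀ j ∈ s,
        Finsupp.linearCombination R y (e j) = ∑ i : t, e j i • y i := by
      intro M _ _ y j hj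
      rw [Finsupp.linearCombination_apply, Finsupp.sum_of_support_subset _ (ht j hj) _ (by simp),
        ← Finset.sum_coe_sort t]
    obtain ⟨z, hz⟩ := pure_gen hf (κ := t) (μ := s) (fun j i => e j i) (fun j => c' j)
      ⟨fun i => i.1, fun j => by rw [← hc]; exact (key B id j j.2).symm⟩
    refine ⟨g ∘ₗ Finsupp.linearCombination R (fun b => if hb : b ∈ t then z ⟨b, hb⟩ else 0),
      fun j hj => ?_⟩
    rw [LinearMap.comp_apply, key A _ j hj, ← hz ⟨j, hj⟩]
    congr 1
    refine Finset.sum_congr rfl fun i _ => ?_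
    simp [i.2])
  obtain ⟨k, hk⟩ := factor_of_ker π hπ h (fun x hx => by
    have := hh (.inl ⟨x, hx⟩)
    simpa [e, c'] using this)
  refine ⟨k, LinearMap.ext fun a => ?_⟩
  have h1 := hh (.inr a)
  have h2 := hk (Finsupp.single (f a) 1)
  simp only [e, c', Sum.elim_inr, id] at h1
  rw [h1] at h2
  simpa [π] using h2

theorem AC.retract {N N' : Type u} [AddCommGroup N] [Module R N] [AddCommGroup N']
    [Module R N'] (hN : AC R N) (i : N' →ₗ[R] N) (p : N →ₗ[R] N') (hp : ∀ x, p (i x) = x) :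
    AC R N' := by
  intro F _ _ J e c hfin
  obtain ⟨h, hh⟩ := hN F J e (fun j => i (c j)) (fun s => by
    obtain ⟨h, hh⟩ := hfin s
    exact ⟨i ∘ₗ h, fun j hj => by simp [hh j hj]⟩)
  exact ⟨p ∘ₗ h, fun j => by simp [hh j, hp]⟩

/-- realizing a type in a coset -/
theorem AC.realize2 {N M : Type u} [AddCommGroup N] [Module R N] [AddCommGroup M] [Module R M]
    (hN : AC R N) (a a' : M) (b b' : N) (θ : F2 R)
    (H : ∀ χ : F2 R, χ.ev M a a' → ∃ c c', χ.ev N c c' ∧ θ.ev N (c - b) (c' - b')) :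
    ∃ h : M →ₗ[R] N, θ.ev N (h a - b) (h a' - b') := by
  classical
  let π : (M →₀ R) →ₗ[R] M := Finsupp.linearCombination R id
  have hπ : Function.Surjective π := fun b => ⟨Finsupp.single b 1, by simp [π]⟩
  let e : LinearMap.ker π ⊕ Fin θ.m → (M →₀ R) × (Fin θ.n → R) :=
    Sum.elim (fun k => (k.1, 0))
      (fun j => (θ.A j • Finsupp.single a 1 + θ.B j • Finsupp.single a' 1, fun i => θ.C i j))
  let c : LinearMap.ker π ⊕ Fin θ.m → N :=
    Sum.elim (fun _ => 0) (fun j => θ.A j • b + θ.B j • b')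
  obtain ⟨h, hh⟩ := hN _ _ e c (fun s => by
    obtain ⟨χ, hχ⟩ := exists_F2_free (R := R) (F := M →₀ R) s.toLeft
      (fun k : LinearMap.ker π => k.1) (Finsupp.single a 1) (Finsupp.single a' 1)
    obtain ⟨x, x', hx, w, hw⟩ := H χ ((hχ M a a').2 ⟨π, fun k _ => k.2, by simp [π], by simp [π]⟩)
    obtain ⟨h1, hk, rfl, rfl⟩ := (hχ N x x').1 hx
    refine ⟨LinearMap.coprod h1 (Fintype.linearCombination R w), fun j hj => ?_⟩
    rcases j with k | j
    · simp [e, c, hk k (Finset.mem_toLeft.2 hj)]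
    · have := hw j
      simp only [e, c, Sum.elim_inr, LinearMap.coprod_apply, map_add, map_smul,
        Fintype.linearCombination_apply, smul_sub] at this ⊢
      linear_combination (norm := abel1) this)
  obtain ⟨k, hk⟩ := factor_of_ker π hπ (h ∘ₗ LinearMap.inl R _ _) (fun x hx => by
    simpa [e, c] using hh (.inl ⟨x, hx⟩))
  refine ⟨k, fun i => h (0, Pi.single i 1), fun j => ?_⟩
  have h1 := hh (.inr j)
  have ha : k a = h (Finsupp.single a 1, 0) := by simpa [π] using hk (Finsupp.single a 1)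
  have ha' : k a' = h (Finsupp.single a' 1, 0) := by simpa [π] using hk (Finsupp.single a' 1)
  have : e (.inr j) = θ.A j • (Finsupp.single a 1, 0) + θ.B j • (Finsupp.single a' 1, 0) +
      ∑ i, θ.C i j • ((0 : M →₀ R), (Pi.single i 1 : Fin θ.n → R)) := by
    ext1
    · simp [e, Prod.fst_sum]
    · ext i
      simp [e, Prod.snd_sum, Pi.single_apply]
  rw [this] at h1
  simp only [map_add, map_smul, map_sum, c, Sum.elim_inr] at h1
  rw [ha, ha', smul_sub, smul_sub]
  linear_combination (norm := abel1) h1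

theorem AC.realize1 {N M : Type u} [AddCommGroup N] [Module R N] [AddCommGroup M] [Module R M]
    (hN : AC R N) (a : M) (b : N) (ψ : PPCond R)
    (H : ∀ χ : PPCond R, a ∈ χ.eval M → ∃ c, c ∈ χ.eval N ∧ c - b ∈ ψ.eval N) :
    ∃ h : M →ₗ[R] N, h a - b ∈ ψ.eval N := by
  obtain ⟨h, hh⟩ := hN.realize2 a 0 b 0 (ψ.subst 1 0) (fun χ hχ => by
    obtain ⟨c, hc, hcb⟩ := H (χ.img (pbot R)) ((mem_img _ _ _ _).2 ⟨0, by simp [mem_pbot], hχ⟩)
    obtain ⟨y, hy, hcy⟩ := (mem_img _ _ _ _).1 hc
    exact ⟨c, y, hcy, by simpa [ev_subst] using hcb⟩)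
  exact ⟨h, by simpa [ev_subst] using hh⟩

theorem AC.realize0 {N M : Type u} [AddCommGroup N] [Module R N] [AddCommGroup M] [Module R M]
    (hN : AC R N) (a : M) (b : N) (H : ∀ χ : PPCond R, a ∈ χ.eval M → b ∈ χ.eval N) :
    ∃ h : M →ₗ[R] N, h a = b := by
  obtain ⟨h, hh⟩ := hN.realize1 a b (pbot R) (fun χ hχ => ⟨b, H χ hχ, by simp [mem_pbot]⟩)
  exact ⟨h, sub_eq_zero.1 ((mem_pbot _ _).1 hh)⟩

end Pool.Agent.Lib.MP_1e63be_al
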