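import Pool.Agent.Lib.MP_1e63be_al.Tree

set_option autoImplicit false
set_option linter.unusedSectionVars false

universe u v w

namespace Pool.Agent.Lib.MP_1e63be_al

open Cardinal

variable {R : Type u} [Ring R]

/-- a module twisted along a ring automorphism -/
def Tw (_τ : R ≃+* R) (M : Type u) : Type u := M

instance (τ : R ≃+* R) (M : Type u) [AddCommGroup M] : AddCommGroup (Tw τ M) :=
  inferInstanceAs (AddCommGroup M)

instance (τ : R ≃+* R) (M : Type u) [AddCommGroup M] [Module R M] : Module R (Tw τ M) :=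
  Module.compHom M τ.toRingHom

def Tw.of (τ : R ≃+* R) {M : Type u} (x : M) : Tw τ M := x

theorem mem_map (τ : R ≃+* R) (φ : PPCond R) (M : Type u) [AddCommGroup M] [Module R M] (x : M) :
    x ∈ (φ.map τ).eval M ↔ Tw.of τ x ∈ φ.eval (Tw τ M) := Iff.rfl

theorem ev_map' (τ : R ≃+* R) (θ : F2 R) (M : Type u) [AddCommGroup M] [Module R M] (x y : M) :
    (θ.map τ).ev M x y ↔ θ.ev (Tw τ M) (Tw.of τ x) (Tw.of τ y) := Iff.rfl

theorem PLe.map (τ : R ≃+* R) {φ ψ : PPCond R} (h : PLe φ ψ) : PLe (φ.map τ) (ψ.map τ) :=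
  fun M _ _ x hx => (mem_map τ ψ M x).2 (h _ ((mem_map τ φ M x).1 hx))

theorem map_symm_map (τ : R ≃+* R) (φ : PPCond R) : (φ.map τ).map τ.symm = φ := by
  cases φ; simp [PPCond.map]

theorem map_map_symm (τ : R ≃+* R) (φ : PPCond R) : (φ.map τ.symm).map τ = φ := by
  cases φ; simp [PPCond.map]

theorem map_lk (τ : R ≃+* R) (θ : F2 R) (δ ψ : PPCond R) (M : Type u) [AddCommGroup M]
    [Module R M] (x : M) :
    x ∈ ((lk θ δ ψ).map τ).eval M ↔ x ∈ (lk (θ.map τ) (δ.map τ) (ψ.map τ)).eval M := by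
  rw [mem_map, mem_lk, mem_lk]
  rfl

theorem map_lmeet (τ : R ≃+* R) (l : List (PPCond R)) :
    PLe (lmeet (l.map (PPCond.map τ))) ((lmeet l).map τ) := by
  intro M _ _ x hx
  rw [mem_map, mem_lmeet]
  rw [mem_lmeet] at hx
  exact fun φ hφ => (mem_map τ φ M x).1 (hx _ (List.mem_map_of_mem hφ))

def Inv (le : PPCond R → PPCond R → Prop) : Prop :=
  ∀ (τ : R ≃+* R) (φ ψ : PPCond R), le φ ψ → le (φ.map τ) (ψ.map τ)

theorem inv_rel (o : Ordinal.{w}) : Inv (rel (PLe (R := R)) o) := fun τ =>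
  (rel_transfer (la := PLe (R := R)) (lb := PLe (R := R)) PLe.trans PLe.trans (PPCond.map τ)
    (PPCond.map τ.symm) (fun _ _ h => h.map τ) (fun _ _ h => h.map τ.symm)
    (fun a => by rw [map_symm_map]; exact ⟨PLe.refl _, PLe.refl _⟩)
    (fun a => by rw [map_map_symm]; exact ⟨PLe.refl _, PLe.refl _⟩) o).1

/-- consistent sets of conditions above `ψ0` -/
def Fam (le : PPCond R → PPCond R → Prop) (φ0 ψ0 : PPCond R) : Set (Set (PPCond R)) :=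
  {V | Cons le {ψ0} (insert φ0 V) ∧ ∀ δ ∈ V, le ψ0 δ}

theorem fam_finChar (le : PPCond R → PPCond R → Prop) (φ0 ψ0 : PPCond R) :
    Order.IsOfFiniteCharacter (Fam le φ0 ψ0) := by
  intro V
  constructor
  · intro h y hy _
    exact ⟨fun l hl => h.1 l (fun φ hφ => Set.insert_subset_insert hy (hl φ hφ)),
      fun δ hδ => h.2 δ (hy hδ)⟩
  · intro h
    refine ⟨fun l hl => (h ({φ | φ ∈ l} ∩ V) Set.inter_subset_right
      ((List.finite_toSet l).inter_of_left _)).1 l (fun φ hφ => ?_), fun δ hδ =>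
      (h {δ} (by simpa using hδ) (Set.finite_singleton _)).2 δ rfl⟩
    rcases hl φ hφ with h | h
    · exact Or.inl h
    · exact Or.inr ⟨hφ, h⟩

section
variable {le : PPCond R → PPCond R → Prop} (H : Defble le) {φ0 ψ0 : PPCond R}
include H

theorem fam_empty (hn : ¬ le φ0 ψ0) : ∅ ∈ Fam le φ0 ψ0 := by
  refine ⟨?_, by simp⟩
  rintro l hl _ rfl hle
  refine hn (H.trans (H.of_le fun M _ _ x hx => ?_) hle)
  rw [mem_lmeet]
  intro χ hχ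
  have : χ = φ0 := by simpa using hl χ hχ
  rw [this]; exact hx

theorem fam_realize {N : ZgMod R} (hN : Good le N.carrier) (hu : Uniq le φ0 ψ0 N)
    {m : Set (PPCond R)} (hm : Maximal (· ∈ Fam le φ0 ψ0) m) :
    ∃ a : N.carrier, a ∉ ψ0.eval N.carrier ∧ (∀ δ, δ ∈ m ↔ le ψ0 δ ∧ a ∈ δ.eval N.carrier) ∧
      ∀ a0 : N.carrier, a0 ∉ ψ0.eval N.carrier → ∃ θ : F2 R, ∀ δ,
        le ψ0 δ → (a ∈ δ.eval N.carrier ↔ a0 ∈ (lk θ δ ψ0).eval N.carrier) := by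
  obtain ⟨a, k1, k2, k3⟩ := completeN H hN hu (insert φ0 m) {ψ0} (by
    rintro _ rfl _ rfl; exact ⟨_, rfl, H.refl _, H.refl _⟩) hm.1.1
    ⟨φ0, Set.mem_insert _ _, H.refl _⟩ ⟨ψ0, rfl, H.refl _⟩
  have hsub : m ⊆ {δ | le ψ0 δ ∧ a ∈ δ.eval N.carrier} := fun δ hδ =>
    ⟨hm.1.2 δ hδ, k1 δ (Set.mem_insert_of_mem _ hδ)⟩
  have hmem : {δ | le ψ0 δ ∧ a ∈ δ.eval N.carrier} ∈ Fam le φ0 ψ0 := by
    refine ⟨?_, fun δ hδ => hδ.1⟩
    rintro l hl _ rfl hle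
    refine k2 _ rfl (hN _ _ hle ((mem_lmeet _ _ _).2 fun φ hφ => ?_))
    rcases hl φ hφ with rfl | h
    · exact k1 _ (Set.mem_insert _ _)
    · exact h.2
  refine ⟨a, k2 ψ0 rfl, fun δ => ⟨fun h => hsub h, fun h => hm.2 hmem hsub h⟩, fun a0 h0 => ?_⟩
  obtain ⟨θ, _, rfl, h⟩ := k3 a0 ψ0 h0
  exact ⟨θ, h⟩

theorem fam_map (hI : Inv le) (τ : R ≃+* R) (h1 : φ0.map τ = φ0) (h2 : ψ0.map τ = ψ0)
    {V : Set (PPCond R)} (hV : V ∈ Fam le φ0 ψ0) : PPCond.map τ '' V ∈ Fam le φ0 ψ0 := by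
  have h1' : φ0.map τ.symm = φ0 := by rw [← h1, map_symm_map, h1]
  have h2' : ψ0.map τ.symm = ψ0 := by rw [← h2, map_symm_map, h2]
  constructor
  · rintro l hl _ rfl hle
    refine hV.1 (l.map (PPCond.map τ.symm)) (fun φ hφ => ?_) _ rfl ?_
    · obtain ⟨χ, hχ, rfl⟩ := List.mem_map.1 hφ
      rcases hl χ hχ with rfl | ⟨δ, hδ, rfl⟩
      · exact Or.inl h1'
      · rw [map_symm_map]; exact Or.inr hδ
    · have := hI τ.symm _ _ hle
      rw [h2'] at this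
      exact H.trans (H.of_le (map_lmeet _ _)) this
  · rintro _ ⟨δ, hδ, rfl⟩
    have := hI τ _ _ (hV.2 δ hδ)
    rwa [h2] at this

theorem max_map (hI : Inv le) (τ : R ≃+* R) (h1 : φ0.map τ = φ0) (h2 : ψ0.map τ = ψ0)
    {V : Set (PPCond R)} (hV : Maximal (· ∈ Fam le φ0 ψ0) V) :
    Maximal (· ∈ Fam le φ0 ψ0) (PPCond.map τ '' V) := by
  have h1' : φ0.map τ.symm = φ0 := by rw [← h1, map_symm_map, h1]
  have h2' : ψ0.map τ.symm = ψ0 := by rw [← h2, map_symm_map, h2]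
  refine ⟨fam_map H hI τ h1 h2 hV.1, fun W hW hsub δ hδ => ?_⟩
  have := hV.2 (fam_map H hI τ.symm h1' h2' hW) (fun φ hφ =>
    ⟨φ.map τ, hsub ⟨φ, hφ, rfl⟩, map_symm_map _ _⟩)
  exact ⟨δ.map τ.symm, this ⟨δ, hδ, rfl⟩, map_map_symm _ _⟩

theorem mk_max_le {N : ZgMod R} (hN : Good le N.carrier) (hu : Uniq le φ0 ψ0 N) :
    #{m : Set (PPCond R) | Maximal (· ∈ Fam le φ0 ψ0) m} ≤ max ℵ₀ #R := by
  rcases isEmpty_or_nonempty {m : Set (PPCond R) | Maximal (· ∈ Fam le φ0 ψ0) m} with h | ⟨⟨m0⟩⟩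
  · simp
  obtain ⟨a0, h0, -, -⟩ := fam_realize H hN hu m0.2
  have : ∀ m : {m : Set (PPCond R) | Maximal (· ∈ Fam le φ0 ψ0) m}, ∃ θ : F2 R,
      m.1 = {δ | le ψ0 δ ∧ a0 ∈ (lk θ δ ψ0).eval N.carrier} := by
    intro m
    obtain ⟨a, -, h2, h3⟩ := fam_realize H hN hu m.2
    obtain ⟨θ, hθ⟩ := h3 a0 h0
    refine ⟨θ, Set.ext fun δ => ?_⟩
    rw [h2]
    exact and_congr_right fun h => hθ δ h
  choose g hg using this
  refine le_trans (Cardinal.mk_le_of_injective (f := g) fun m m' h => Subtype.ext ?_) (mk_F2_le R)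
  rw [hg m, hg m', h]

end

/-- a system of supports for the elements of a ring with many automorphisms -/
structure SuppSys (R : Type u) [Ring R] where
  B : Type u
  sp : Set B → Set R
  mono : ∀ {S T}, S ⊆ T → sp S ⊆ sp T
  fin : ∀ r, ∃ F : Set B, F.Finite ∧ r ∈ sp F
  card : ∀ S : Set B, S.Countable → #(sp S) < 𝔠
  aut : ∀ (S : Set B) (π : Equiv.Perm B), (∀ b ∈ S, π b = b) → ∃ τ : R ≃+* R,
    (∀ r ∈ sp S, τ r = r) ∧ ∀ T, ∀ r ∈ sp T, τ r ∈ sp (π '' T)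
  big : #R ≤ #B
  unc : ℵ₀ < #B

def SupP (X : Set R) (φ : PPCond R) : Prop := ∀ i j, φ.H i j ∈ X
def SupF (X : Set R) (θ : F2 R) : Prop :=
  (∀ j, θ.A j ∈ X) ∧ (∀ j, θ.B j ∈ X) ∧ ∀ i j, θ.C i j ∈ X

theorem SupP.map_eq {X : Set R} {φ : PPCond R} (h : SupP X φ) {τ : R ≃+* R}
    (hτ : ∀ r ∈ X, τ r = r) : φ.map τ = φ := by
  cases φ
  simp only [PPCond.map, PPCond.mk.injEq, heq_eq_eq, true_and]
  funext i j
  exact hτ _ (h i j)

theorem SupF.map_eq {X : Set R} {θ : F2 R} (h : SupF X θ) {τ : R ≃+* R}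
    (hτ : ∀ r ∈ X, τ r = r) : θ.map τ = θ := by
  cases θ
  simp only [F2.map, F2.mk.injEq, heq_eq_eq, true_and]
  exact ⟨funext fun j => hτ _ (h.1 j), funext fun j => hτ _ (h.2.1 j),
    funext fun i => funext fun j => hτ _ (h.2.2 i j)⟩

theorem SupP.mono {X Y : Set R} {φ : PPCond R} (h : SupP X φ) (hXY : X ⊆ Y) : SupP Y φ :=
  fun i j => hXY (h i j)

theorem SupF.mono {X Y : Set R} {θ : F2 R} (h : SupF X θ) (hXY : X ⊆ Y) : SupF Y θ :=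
  ⟨fun j => hXY (h.1 j), fun j => hXY (h.2.1 j), fun i j => hXY (h.2.2 i j)⟩

theorem SupP.map {X Y : Set R} {φ : PPCond R} (h : SupP X φ) {τ : R → R}
    (hτ : ∀ r ∈ X, τ r ∈ Y) : SupP Y (φ.map τ) := fun i j => hτ _ (h i j)

theorem SupF.map {X Y : Set R} {θ : F2 R} (h : SupF X θ) {τ : R → R}
    (hτ : ∀ r ∈ X, τ r ∈ Y) : SupF Y (θ.map τ) :=
  ⟨fun j => hτ _ (h.1 j), fun j => hτ _ (h.2.1 j), fun i j => hτ _ (h.2.2 i j)⟩

theorem mk_supF_le (X : Set R) : #{θ : F2 R | SupF X θ} ≤ max ℵ₀ #X := by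
  refine le_trans (Cardinal.mk_le_mk_of_subset (t := Set.range (F2.map (Subtype.val : X → R)))
    fun θ h => ?_) (Cardinal.mk_range_le.trans (mk_F2_le X))
  exact ⟨⟨θ.n, θ.m, fun j => ⟨_, h.1 j⟩, fun j => ⟨_, h.2.1 j⟩, fun i j => ⟨_, h.2.2 i j⟩⟩, rfl⟩

theorem SuppSys.fin_fam (Y : SuppSys R) {ι : Type} [Finite ι] (r : ι → R) :
    ∃ F : Set Y.B, F.Finite ∧ ∀ i, r i ∈ Y.sp F := by
  choose F h1 h2 using fun i => Y.fin (r i)
  exact ⟨⋃ i, F i, Set.finite_iUnion h1, fun i => Y.mono (Set.subset_iUnion F i) (h2 i)⟩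

theorem SuppSys.finP (Y : SuppSys R) (φ : PPCond R) :
    ∃ F : Set Y.B, F.Finite ∧ SupP (Y.sp F) φ := by
  obtain ⟨F, h1, h2⟩ := Y.fin_fam (fun p : Fin (φ.n + 1) × Fin φ.m => φ.H p.1 p.2)
  exact ⟨F, h1, fun i j => h2 (i, j)⟩

theorem SuppSys.finF (Y : SuppSys R) (θ : F2 R) :
    ∃ F : Set Y.B, F.Finite ∧ SupF (Y.sp F) θ := by
  obtain ⟨F, h1, h2⟩ := Y.fin_fam (ι := (Fin θ.m ⊕ Fin θ.m) ⊕ (Fin θ.n × Fin θ.m))
    (Sum.elim (Sum.elim θ.A θ.B) (fun p => θ.C p.1 p.2))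
  exact ⟨F, h1, fun j => h2 (.inl (.inl j)), fun j => h2 (.inl (.inr j)),
    fun i j => h2 (.inr (i, j))⟩

/-- `m` is stable under the automorphisms fixing `X` pointwise -/
def Stab (m : Set (PPCond R)) (X : Set R) : Prop :=
  ∀ τ : R ≃+* R, (∀ r ∈ X, τ r = r) → ∀ δ ∈ m, δ.map τ ∈ m

theorem Stab.iff {m : Set (PPCond R)} {X : Set R} (h : Stab m X) (τ : R ≃+* R)
    (hτ : ∀ r ∈ X, τ r = r) (δ : PPCond R) : δ.map τ ∈ m ↔ δ ∈ m := by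
  refine ⟨fun k => ?_, h τ hτ δ⟩
  have := h τ.symm (fun r hr => by rw [RingEquiv.symm_apply_eq, hτ r hr]) _ k
  rwa [map_symm_map] at this

theorem stab_of_unique {le : PPCond R → PPCond R → Prop} (H : Defble le) (hI : Inv le)
    {φ0 ψ0 : PPCond R} {m Γ : Set (PPCond R)} {X : Set R} (hm : Maximal (· ∈ Fam le φ0 ψ0) m)
    (hΓ : Γ ⊆ m) (huq : ∀ m', Maximal (· ∈ Fam le φ0 ψ0) m' → Γ ⊆ m' → m' = m)
    (h1 : SupP X φ0) (h2 : SupP X ψ0) (h3 : ∀ δ ∈ Γ, SupP X δ) : Stab m X := by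
  intro τ hτ δ hδ
  rw [← huq _ (max_map H hI τ (h1.map_eq hτ) (h2.map_eq hτ) hm)
    (fun φ hφ => ⟨φ, hΓ hφ, (h3 φ hφ).map_eq hτ⟩)]
  exact ⟨δ, hδ, rfl⟩

theorem isoCond_of_supp {le : PPCond R → PPCond R → Prop} (H : Defble le) (hI : Inv le)
    (Y : SuppSys R) : IsoCond le := by
  refine isoCond_of_count H fun φ0 ψ0 N hN hu hn χ hχ => ?_
  have hinf : Infinite Y.B := Cardinal.infinite_iff.2 Y.unc.le
  obtain ⟨Γ, hΓ, hΓc, hΓu⟩ := diag_lemma (fam_finChar le φ0 ψ0) (fam_empty H hn)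
  obtain ⟨m0, hm0Γ, hm0⟩ := (fam_finChar le φ0 ψ0).exists_maximal hΓ
  choose sP hsP1 hsP2 using Y.finP
  let P1 : Set Y.B := sP φ0 ∪ sP ψ0 ∪ ⋃ s, sP (χ s)
  have hP1 : P1.Countable := ((hsP1 _).countable.union (hsP1 _).countable).union
    (Set.countable_iUnion fun s => (hsP1 _).countable)
  let P0 : Set Y.B := P1 ∪ ⋃ φ ∈ Γ, sP φ
  have hcount : ∀ S : Set Y.B, S.Countable → #S < #Y.B := fun S hS =>
    lt_of_le_of_lt (Cardinal.le_aleph0_iff_set_countable.2 hS) Y.unc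
  have hun : ∀ S T : Set Y.B, #S < #Y.B → #T < #Y.B → #(S ∪ T : Set Y.B) < #Y.B :=
    fun S T h1 h2 => lt_of_le_of_lt (Cardinal.mk_union_le _ _)
      (Cardinal.add_lt_of_lt Y.unc.le h1 h2)
  have hP0 : #P0 < #Y.B := by
    refine hun _ _ (hcount _ hP1) (lt_of_le_of_lt (Cardinal.mk_biUnion_le _ _)
      (Cardinal.mul_lt_of_lt Y.unc.le ?_ ?_))
    · exact lt_of_lt_of_le hΓc ((mk_max_le H hN hu).trans (max_le Y.unc.le Y.big))
    · exact lt_of_le_of_lt (ciSup_le' fun φ =>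
        Cardinal.le_aleph0_iff_set_countable.2 (hsP1 _).countable) Y.unc
  have sφ : SupP (Y.sp P1) φ0 :=
    (hsP2 _).mono (Y.mono (Set.subset_union_left.trans Set.subset_union_left))
  have sψ : SupP (Y.sp P1) ψ0 :=
    (hsP2 _).mono (Y.mono (Set.subset_union_right.trans Set.subset_union_left))
  have sχ : ∀ s, SupP (Y.sp P1) (χ s) := fun s =>
    (hsP2 _).mono (Y.mono ((Set.subset_iUnion (fun s => sP (χ s)) s).trans Set.subset_union_right))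
  have sΓ : ∀ δ ∈ Γ, SupP (Y.sp P0) δ := fun δ hδ =>
    (hsP2 _).mono (Y.mono ((Set.subset_biUnion_of_mem (u := sP) hδ).trans Set.subset_union_right))
  have h10 : P1 ⊆ P0 := Set.subset_union_left
  have stab0 : Stab m0 (Y.sp P0) := stab_of_unique H hI hm0 hm0Γ
    (fun m' h1 h2 => hΓu _ _ h1 hm0 h2 hm0Γ) (sφ.mono (Y.mono h10)) (sψ.mono (Y.mono h10)) sΓ
  obtain ⟨π, hπ1, hπ2⟩ := exists_swap (P0 \ P1) P0ᶜ
    (Set.disjoint_left.2 fun b hb hb' => hb' hb.1) (by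
      rw [Cardinal.mk_compl_of_infinite _ hP0]
      exact Cardinal.mk_set_le _)
  have hπ3 : ∀ b ∈ P1, π b = b := fun b hb => hπ2 b (fun h => h.2 hb) (fun h => h (h10 hb))
  obtain ⟨σ, hσ1, hσ2⟩ := Y.aut P1 π hπ3
  let P : Set Y.B := π '' P0
  have h1P : P1 ⊆ P := fun b hb => ⟨b, h10 hb, hπ3 b hb⟩
  have hPP : P ∩ P0 ⊆ P1 := by
    rintro _ ⟨⟨b, hb, rfl⟩, h⟩
    by_cases k : b ∈ P1
    · rwa [hπ3 b k]
    · exact absurd h (hπ1 b ⟨hb, k⟩)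
  have e1 := sφ.map_eq hσ1
  have e2 := sψ.map_eq hσ1
  have e1' : φ0.map σ.symm = φ0 := by rw [← e1, map_symm_map, e1]
  have e2' : ψ0.map σ.symm = ψ0 := by rw [← e2, map_symm_map, e2]
  have hm1 := max_map H hI σ e1 e2 hm0
  set m1 := PPCond.map σ '' m0 with hm1def
  have stabP : Stab m1 (Y.sp P) := by
    refine stab_of_unique H hI hm1 (Γ := PPCond.map σ '' Γ) (Set.image_mono hm0Γ)
      (fun m' h1 h2 => ?_) (sφ.mono (Y.mono h1P)) (sψ.mono (Y.mono h1P)) ?_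
    · have := hΓu _ _ (max_map H hI σ.symm e1' e2' h1) hm0
        (fun δ hδ => ⟨_, h2 ⟨δ, hδ, rfl⟩, map_symm_map _ _⟩) hm0Γ
      rw [hm1def, ← this, Set.image_image]
      simp only [map_map_symm, Set.image_id']
    · rintro _ ⟨δ, hδ, rfl⟩
      exact (sΓ δ hδ).map (hσ2 P0)
  obtain ⟨a0, ha0, hb0, -⟩ := fam_realize H hN hu hm0
  obtain ⟨a1, ha1, hb1, hc1⟩ := fam_realize H hN hu hm1
  obtain ⟨θ1, hθ1⟩ := hc1 a0 ha0
  obtain ⟨F1, hF1, sθ1⟩ := Y.finF θ1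
  let Q : Set Y.B := P0 ∪ F1
  have h0Q : P0 ⊆ Q := Set.subset_union_left
  have hlk : ∀ θ δ, le ψ0 (lk θ δ ψ0) := fun θ δ => H.of_le (le_sup_right' _ _)
  have stabQ : Stab m1 (Y.sp Q) := by
    intro τ hτ δ hδ
    obtain ⟨k1, k2⟩ := (hb1 δ).1 hδ
    have eψ := (sψ.mono (Y.mono (h10.trans h0Q))).map_eq hτ
    have k3 : le ψ0 (δ.map τ) := by
      have := hI τ _ _ k1
      rwa [eψ] at this
    refine (hb1 _).2 ⟨k3, (hθ1 _ k3).2 ?_⟩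
    have k4 := stab0 τ (fun r hr => hτ r (Y.mono h0Q hr)) _
      ((hb0 _).2 ⟨hlk _ _, (hθ1 δ k1).1 k2⟩)
    have k5 := (map_lk _ _ _ _ _ _).1 ((hb0 _).1 k4).2
    rwa [eψ, (sθ1.mono (Y.mono Set.subset_union_right)).map_eq hτ] at k5
  have hPQ : #(P ∪ Q : Set Y.B) < #Y.B :=
    hun _ _ (lt_of_le_of_lt Cardinal.mk_image_le hP0) (hun _ _ hP0 (hcount _ hF1.countable))
  have hcomp : (P ∪ Q)ᶜ.Infinite := by
    rw [← Set.infinite_coe_iff, Cardinal.infinite_iff, Cardinal.mk_compl_of_infinite _ hPQ]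
    exact Y.unc.le
  obtain ⟨O, hO1, hO2, hO3⟩ := hcomp.exists_subset_countable_infinite
  have move : ∀ (S : Set Y.B), S ⊆ P ∪ Q → P1 ⊆ S → Stab m1 (Y.sp S) → ∀ (θ : F2 R)
      (F : Set Y.B), F.Finite → SupF (Y.sp F) θ → ∃ (θ' : F2 R) (F' : Set Y.B), F'.Finite ∧
        SupF (Y.sp F') θ' ∧ F' ⊆ (F ∩ S) ∪ O ∧ ∀ s,
        (a1 ∈ (lk θ (χ s) ψ0).eval N.carrier ↔ a1 ∈ (lk θ' (χ s) ψ0).eval N.carrier) := by
    intro S hS h1S hst θ F hF hθ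
    obtain ⟨ρ, hρ1, hρ2⟩ := exists_move S O F
      (Set.disjoint_left.2 fun b hb hb' => hO1 hb' (hS hb)) hO3 hF
    obtain ⟨τ, hτ1, hτ2⟩ := Y.aut S ρ hρ1
    refine ⟨θ.map τ, ρ '' F, hF.image _, hθ.map (hτ2 F), hρ2, fun s => ?_⟩
    have eψ := (sψ.mono (Y.mono h1S)).map_eq hτ1
    have eχ := ((sχ s).mono (Y.mono h1S)).map_eq hτ1
    have k1 := hst.iff τ hτ1 (lk θ (χ s) ψ0)
    have k2 : le ψ0 ((lk θ (χ s) ψ0).map τ) := by
      have := hI τ _ _ (hlk θ (χ s))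
      rwa [eψ] at this
    rw [hb1, hb1, map_lk, eψ, eχ] at k1
    exact ⟨fun h => (k1.2 ⟨hlk _ _, h⟩).2, fun h => (k1.1 ⟨k2, h⟩).2⟩
  refine ⟨a1, ha1, {θ | SupF (Y.sp ((P1 ∪ F1) ∪ O)) θ}, lt_of_le_of_lt (mk_supF_le _)
    (max_lt Cardinal.aleph0_lt_continuum (Y.card _ ((hP1.union hF1.countable).union hO2))),
    fun θ => ?_⟩
  obtain ⟨F, hF, sθ⟩ := Y.finF θ
  obtain ⟨θ', F', j1, j2, j3, j4⟩ := move Q Set.subset_union_right (h10.trans h0Q) stabQ θ F hF sθ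
  obtain ⟨θ'', F'', -, i2, i3, i4⟩ := move P Set.subset_union_left h1P stabP θ' F' j1 j2
  refine ⟨θ'', i2.mono (Y.mono (i3.trans ?_)), fun s => (j4 s).trans (i4 s)⟩
  rintro b (⟨h1, h2⟩ | h)
  · rcases j3 h1 with ⟨-, h3 | h3⟩ | h3
    · exact Or.inl (Or.inl (hPP ⟨h2, h3⟩))
    · exact Or.inl (Or.inr h3)
    · exact Or.inr h3
  · exact Or.inr h

end Pool.Agent.Lib.MP_1e63be_al
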