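import Pool.Agent.Lib.MP_1e63be_al.Form

set_option autoImplicit false
set_option linter.unusedSectionVars false

universe u v w

namespace Pool.Agent.Lib.MP_1e63be_al

open Cardinal

theorem diag_aux {α : Type u} {F : Set (Set α)} (hF : Order.IsOfFiniteCharacter F)
    (h0 : ∅ ∈ F) {ι : Type u} [LinearOrder ι] [WellFoundedLT ι] (e : ι → Set α)
    (he : ∀ m, Maximal (· ∈ F) m → ∃ i, e i = m) (hlt : ∀ i : ι, #(Set.Iio i) < #ι)
    (key : ∀ (i : ι) (Γ : Set α), Γ ∈ F → #Γ < #ι → ∃ d, d ∉ e i ∧ insert d Γ ∈ F) : False := by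
  classical
  have hdown : ∀ x ∈ F, ∀ y ⊆ x, y ∈ F := fun x hx y hy =>
    (hF y).2 fun z hz hfin => (hF x).1 hx z (hz.trans hy) hfin
  obtain ⟨m0, -, hm0⟩ := hF.exists_maximal h0
  have hα : Nonempty α := by
    obtain ⟨i, -⟩ := he m0 hm0
    obtain ⟨d, -⟩ := key i ∅ h0 (by
      rw [Cardinal.mk_eq_zero, pos_iff_ne_zero, Cardinal.mk_ne_zero_iff]
      exact ⟨i⟩)
    exact ⟨d⟩
  let G : (i : ι) → ((j : ι) → j < i → α) → α := fun i f =>
    if h : ∃ d, d ∉ e i ∧ insert d {x | ∃ j, ∃ hj : j < i, f j hj = x} ∈ F then h.choose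
    else Classical.arbitrary α
  let δ : ι → α := wellFounded_lt.fix G
  have hδ : ∀ i, δ i = G i (fun j _ => δ j) := fun i => wellFounded_lt.fix_eq G i
  have him : ∀ i : ι, {x | ∃ j, ∃ _ : j < i, δ j = x} = δ '' Set.Iio i := fun i => by
    ext x; simp
  have hfin : ∀ S : Set ι, (∀ j ∈ S, insert (δ j) (δ '' Set.Iio j) ∈ F) → δ '' S ∈ F := by
    intro S hS
    refine (hF _).2 fun y hy hyf => ?_
    obtain ⟨t, ht, htf, rfl⟩ := Set.exists_subset_image_finite_and.1 ⟨y, hy, hyf, rfl⟩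
    rcases t.eq_empty_or_nonempty with rfl | hne
    · simpa using h0
    · obtain ⟨j, hj, hmax⟩ := Set.exists_max_image t id htf hne
      refine hdown _ (hS j (ht hj)) _ ?_
      rintro _ ⟨k, hk, rfl⟩
      rcases (show k ≤ j from hmax k hk).eq_or_lt with rfl | h
      · exact Set.mem_insert _ _
      · exact Set.mem_insert_of_mem _ ⟨k, h, rfl⟩
  have main : ∀ i : ι, δ i ∉ e i ∧ insert (δ i) (δ '' Set.Iio i) ∈ F := by
    intro i
    induction i using WellFoundedLT.induction with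
    | ind i ih =>
      have h1 : δ '' Set.Iio i ∈ F := hfin _ (fun j hj => (ih j hj).2)
      have h2 := key i _ h1 (lt_of_le_of_lt Cardinal.mk_image_le (hlt i))
      rw [← him] at h2
      have h3 : δ i = h2.choose := by rw [hδ]; exact dif_pos h2
      have h4 := h2.choose_spec
      rw [← h3, him] at h4
      exact h4
  obtain ⟨m, hm1, hm2⟩ := hF.exists_maximal (hfin Set.univ (fun j _ => (main j).2))
  obtain ⟨i, rfl⟩ := he m hm2
  exact (main i).1 (hm1 ⟨_, trivial, rfl⟩)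

theorem diag_lemma {α : Type u} {F : Set (Set α)} (hF : Order.IsOfFiniteCharacter F)
    (h0 : ∅ ∈ F) :
    ∃ Γ ∈ F, #Γ < #{m : Set α | Maximal (· ∈ F) m} ∧
      ∀ m m', Maximal (· ∈ F) m → Maximal (· ∈ F) m' → Γ ⊆ m → Γ ⊆ m' → m = m' := by
  classical
  by_contra hc
  push Not at hc
  have hdown : ∀ x ∈ F, ∀ y ⊆ x, y ∈ F := fun x hx y hy =>
    (hF y).2 fun z hz hfin => (hF x).1 hx z (hz.trans hy) hfin
  obtain ⟨lo, wo, hord⟩ := Cardinal.exists_ord_eq_type_lt {m : Set α | Maximal (· ∈ F) m}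
  refine @diag_aux α F hF h0 _ lo wo Subtype.val (fun m hm => ⟨⟨m, hm⟩, rfl⟩)
    (fun i => @Cardinal.mk_Iio_lt _ lo wo i hord) ?_
  intro i Γ hΓ hlt
  obtain ⟨m, m', hm, hm', h1, h2, hne⟩ := hc Γ hΓ hlt
  have aux : ∀ m, Maximal (· ∈ F) m → Γ ⊆ m → m ≠ i.1 → ∃ d, d ∉ i.1 ∧ insert d Γ ∈ F := by
    intro m hm h1 hne
    have : ¬ m ⊆ i.1 := fun h => hne (le_antisymm h (hm.2 i.2.1 h))
    obtain ⟨d, hd, hd'⟩ := Set.not_subset.1 this
    exact ⟨d, hd', hdown m hm.1 _ (Set.insert_subset hd h1)⟩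
  by_cases h : m = i.1
  · exact aux m' hm' h2 (fun h' => hne (h.trans h'.symm))
  · exact aux m hm h1 h

theorem exists_swap {B : Type u} (A O : Set B) (hd : Disjoint A O) (hc : #A ≤ #O) :
    ∃ π : Equiv.Perm B, (∀ b ∈ A, π b ∈ O) ∧ ∀ b, b ∉ A → b ∉ O → π b = b := by
  classical
  obtain ⟨j⟩ := Cardinal.le_def _ _ |>.1 hc
  let g : B → B := fun b => if h : b ∈ A then (j ⟨b, h⟩).1 else
    if h' : ∃ a : A, (j a).1 = b then h'.choose.1 else b
  have hg : Function.Involutive g := by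
    intro b
    by_cases h : b ∈ A
    · have h1 : g b = (j ⟨b, h⟩).1 := dif_pos h
      have h2 : (j ⟨b, h⟩).1 ∉ A := fun k => Set.disjoint_left.1 hd k (j ⟨b, h⟩).2
      have h3 : ∃ a : A, (j a).1 = (j ⟨b, h⟩).1 := ⟨_, rfl⟩
      rw [h1]
      simp only [g, dif_neg h2, dif_pos h3]
      have := j.injective (Subtype.ext h3.choose_spec)
      rw [this]
    · by_cases h' : ∃ a : A, (j a).1 = b
      · have h1 : g b = h'.choose.1 := by simp only [g, dif_neg h, dif_pos h']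
        rw [h1]
        simp only [g, dif_pos h'.choose.2]
        exact h'.choose_spec
      · have h1 : g b = b := by simp only [g, dif_neg h, dif_neg h']
        rw [h1, h1]
  refine ⟨hg.toPerm g, fun b hb => ?_, fun b h1 h2 => ?_⟩
  · change g b ∈ O
    simp only [g, dif_pos hb]
    exact (j _).2
  · change g b = b
    have h' : ¬ ∃ a : A, (j a).1 = b := by
      rintro ⟨a, rfl⟩
      exact h2 (j a).2
    simp only [g, dif_neg h1, dif_neg h']

theorem exists_move {B : Type u} (S O F : Set B) (hd : Disjoint S O) (hO : O.Infinite)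
    (hF : F.Finite) :
    ∃ π : Equiv.Perm B, (∀ b ∈ S, π b = b) ∧ π '' F ⊆ (F ∩ S) ∪ O := by
  obtain ⟨π, h1, h2⟩ := exists_swap (F \ (S ∪ O)) (O \ F)
    (Set.disjoint_left.2 fun b hb hb' => hb'.2 hb.1) (by
      have h1 : #(F \ (S ∪ O) : Set B) < ℵ₀ :=
        Cardinal.lt_aleph0_iff_set_finite.2 (hF.subset Set.sdiff_subset)
      have h2 : ℵ₀ ≤ #(O \ F : Set B) := Cardinal.infinite_iff.1 (hO.sdiff hF).to_subtype
      exact h1.le.trans h2)
  have hS : ∀ b ∈ S, π b = b := fun b hb =>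
    h2 b (fun h => h.2 (Or.inl hb)) (fun h => Set.disjoint_left.1 hd hb h.1)
  refine ⟨π, hS, ?_⟩
  rintro _ ⟨b, hb, rfl⟩
  by_cases h : b ∈ S
  · rw [hS b h]; exact Or.inl ⟨hb, h⟩
  · by_cases h' : b ∈ O
    · rw [h2 b (fun k => k.2 (Or.inr h')) (fun k => k.2 hb)]; exact Or.inr h'
    · exact Or.inr (h1 b ⟨hb, fun k => k.elim h h'⟩).1

def F2.map {X Y : Type u} (f : X → Y) (θ : F2 X) : F2 Y :=
  ⟨θ.n, θ.m, fun j => f (θ.A j), fun j => f (θ.B j), fun i j => f (θ.C i j)⟩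

def PPCond.map {X Y : Type u} (f : X → Y) (φ : PPCond X) : PPCond Y :=
  ⟨φ.n, φ.m, fun i j => f (φ.H i j)⟩

theorem mk_F2_le (X : Type u) : #(F2 X) ≤ max ℵ₀ #X := by
  let g : (Σ p : ULift.{u} (ℕ × ℕ), (Fin (p.down.1 + 2) × Fin p.down.2 → X)) → F2 X := fun q =>
    ⟨q.1.down.1, q.1.down.2, fun j => q.2 (0, j), fun j => q.2 (1, j),
      fun i j => q.2 (i.succ.succ, j)⟩
  have hg : Function.Surjective g := fun θ =>
    ⟨⟨⟨(θ.n, θ.m)⟩, fun p => (Fin.cons θ.A (Fin.cons θ.B θ.C) :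
      Fin (θ.n + 2) → Fin θ.m → X) p.1 p.2⟩, rfl⟩
  refine (Cardinal.mk_le_of_surjective hg).trans ?_
  rw [Cardinal.mk_sigma]
  refine (Cardinal.sum_le_mk_mul_iSup _).trans ?_
  have h1 : (⨆ p : ULift.{u} (ℕ × ℕ), #(Fin (p.down.1 + 2) × Fin p.down.2 → X)) ≤ max ℵ₀ #X := by
    refine ciSup_le' fun p => ?_
    rw [max_comm]
    have := Cardinal.power_nat_le_max (c := #X) (n := (p.down.1 + 2) * p.down.2)
    simpa using this
  have h2 : #(ULift.{u} (ℕ × ℕ)) = ℵ₀ := by simp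
  rw [h2]
  refine (mul_le_mul (le_max_left ℵ₀ #X) h1 (zero_le) (zero_le)).trans ?_
  rw [Cardinal.mul_eq_self (le_max_left _ _)]

end Pool.Agent.Lib.MP_1e63be_al
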