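import Pool.Agent.Lib.MP_1e63be_al.AC

set_option autoImplicit false
set_option linter.unusedSectionVars false

universe u v w

namespace Pool.Agent.Lib.MP_1e63be_al

open MulOpposite

abbrev TT := AddCircle (1 : ℚ)

theorem ext_char {G : Type v} {G' : Type w} [AddCommGroup G] [AddCommGroup G'] (f : G →+ G')
    (ξ : G →+ TT) (h : ∀ x, f x = 0 → ξ x = 0) : ∃ η : G' →+ TT, ∀ x, η (f x) = ξ x := by
  obtain ⟨η, hη⟩ := (Module.Baer.of_divisible TT).extension_property_addMonoidHom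
    (QuotientAddGroup.kerLift f) (QuotientAddGroup.kerLift_injective f)
    (QuotientAddGroup.lift f.ker ξ (fun x hx => h x hx))
  exact ⟨η, fun x => by simpa using DFunLike.congr_fun hη (QuotientAddGroup.mk x)⟩

theorem sep_char {G : Type v} [AddCommGroup G] (H : AddSubgroup G) {x : G} (hx : x ∉ H) :
    ∃ ξ : G →+ TT, (∀ y ∈ H, ξ y = 0) ∧ ξ x ≠ 0 := by
  have : (QuotientAddGroup.mk x : G ⧸ H) ≠ 0 := by
    rwa [Ne, QuotientAddGroup.eq_zero_iff]
  obtain ⟨c, hc⟩ := CharacterModule.exists_character_apply_ne_zero_of_ne_zero this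
  refine ⟨(show (G ⧸ H) →+ TT from c).comp (QuotientAddGroup.mk' H), fun y hy => ?_, hc⟩
  have : (QuotientAddGroup.mk' H y) = 0 := (QuotientAddGroup.eq_zero_iff y).2 hy
  rw [AddMonoidHom.comp_apply, this, map_zero]

theorem AC_TT {G : Type v} [AddCommGroup G] {J : Type w} (e : J → G) (c : J → TT)
    (hfin : ∀ s : Finset J, ∃ h : G →+ TT, ∀ j ∈ s, h (e j) = c j) :
    ∃ h : G →+ TT, ∀ j, h (e j) = c j := by
  classical
  obtain ⟨η, hη⟩ := ext_char (Finsupp.linearCombination ℤ e).toAddMonoidHom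
    (Finsupp.linearCombination ℤ c).toAddMonoidHom (fun x hx => by
      obtain ⟨h, hh⟩ := hfin x.support
      have h1 := congrArg h hx
      simp only [LinearMap.toAddMonoidHom_coe, Finsupp.linearCombination_apply, Finsupp.sum,
        map_sum, map_zsmul, map_zero] at h1 ⊢
      rw [← h1]
      exact Finset.sum_congr rfl fun j hj => by rw [hh j hj])
  exact ⟨η, fun j => by simpa using hη (Finsupp.single j 1)⟩

variable {R S : Type u} [Ring R] [Ring S]

/-- the character module of a left `S`-module, as a left `R`-module -/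
def Dual (_τ : R →+* Sᵐᵒᵖ) (L : Type u) [AddCommGroup L] : Type u := L →+ TT

section
variable (τ : R →+* Sᵐᵒᵖ) (L : Type u) [AddCommGroup L]

instance : AddCommGroup (Dual τ L) := inferInstanceAs (AddCommGroup (L →+ TT))

instance : FunLike (Dual τ L) L TT := inferInstanceAs (FunLike (L →+ TT) L TT)

instance : AddMonoidHomClass (Dual τ L) L TT := inferInstanceAs (AddMonoidHomClass (L →+ TT) L TT)

variable {τ L}

theorem Dual.ext {ξ η : Dual τ L} (h : ∀ x, ξ x = η x) : ξ = η := DFunLike.ext _ _ h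

@[simp] theorem Dual.add_apply (ξ η : Dual τ L) (x : L) : (ξ + η) x = ξ x + η x := rfl
@[simp] theorem Dual.zero_apply (x : L) : (0 : Dual τ L) x = 0 := rfl
@[simp] theorem Dual.neg_apply (ξ : Dual τ L) (x : L) : (-ξ) x = -ξ x := rfl
@[simp] theorem Dual.sub_apply (ξ η : Dual τ L) (x : L) : (ξ - η) x = ξ x - η x := rfl

theorem Dual.sum_apply {ι : Type*} (s : Finset ι) (ξ : ι → Dual τ L) (x : L) :
    (∑ i ∈ s, ξ i) x = ∑ i ∈ s, ξ i x := by
  classical
  induction s using Finset.induction_on with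
  | empty => simp
  | insert a s ha ih => simp [Finset.sum_insert ha, ih]

def Dual.mk (ξ : L →+ TT) : Dual τ L := ξ

@[simp] theorem Dual.mk_apply (ξ : L →+ TT) (x : L) : (Dual.mk ξ : Dual τ L) x = ξ x := rfl

def Dual.hom (ξ : Dual τ L) : L →+ TT := ξ

@[simp] theorem Dual.hom_apply (ξ : Dual τ L) (x : L) : ξ.hom x = ξ x := rfl

variable [Module S L]

instance : SMul R (Dual τ L) :=
  ⟨fun r ξ => Dual.mk (ξ.hom.comp (DistribSMul.toAddMonoidHom L (unop (τ r))))⟩

@[simp] theorem Dual.smul_apply (r : R) (ξ : Dual τ L) (x : L) :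
    (r • ξ) x = ξ (unop (τ r) • x) := rfl

instance : Module R (Dual τ L) where
  one_smul ξ := Dual.ext fun x => by simp
  mul_smul r s ξ := Dual.ext fun x => by simp [mul_smul]
  smul_zero r := Dual.ext fun x => by simp
  smul_add r ξ η := Dual.ext fun x => by simp
  add_smul r s ξ := Dual.ext fun x => by simp [add_smul]
  zero_smul ξ := Dual.ext fun x => by simp

theorem AC_dual : AC R (Dual τ L) := by
  classical
  intro F _ _ J e c hfin
  let sg : F → L → ((F × L) →₀ ℤ) := fun f x => Finsupp.single (f, x) 1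
  let e' : ((F × F × L) ⊕ (F × L × L)) ⊕ ((R × F × L) ⊕ (J × L)) → ((F × L) →₀ ℤ) :=
    Sum.elim (Sum.elim (fun p => sg (p.1 + p.2.1) p.2.2 - sg p.1 p.2.2 - sg p.2.1 p.2.2)
      (fun p => sg p.1 (p.2.1 + p.2.2) - sg p.1 p.2.1 - sg p.1 p.2.2))
      (Sum.elim (fun p => sg (p.1 • p.2.1) p.2.2 - sg p.2.1 (unop (τ p.1) • p.2.2))
        (fun p => sg (e p.1) p.2))
  let c' : ((F × F × L) ⊕ (F × L × L)) ⊕ ((R × F × L) ⊕ (J × L)) → TT :=
    Sum.elim (fun _ => 0) (Sum.elim (fun _ => 0) (fun p => c p.1 p.2))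
  obtain ⟨η, hη⟩ := AC_TT e' c' (fun s => by
    obtain ⟨h, hh⟩ := hfin (s.toRight.toRight.image Prod.fst)
    refine ⟨(Finsupp.linearCombination ℤ (fun p : F × L => h p.1 p.2)).toAddMonoidHom,
      fun j hj => ?_⟩
    rcases j with (p | p) | (p | p)
    · simp [e', c', sg]
    · simp [e', c', sg]
    · simp [e', c', sg]
    · have := hh p.1 (Finset.mem_image.2 ⟨p, by simpa using hj, rfl⟩)
      simp [e', c', sg, this])
  have h1 : ∀ f g x, η (sg (f + g) x) = η (sg f x) + η (sg g x) := fun f g x => by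
    have := hη (.inl (.inl (f, g, x)))
    simp only [e', c', Sum.elim_inl, map_sub] at this
    linear_combination (norm := abel1) this
  have h2 : ∀ f x y, η (sg f (x + y)) = η (sg f x) + η (sg f y) := fun f x y => by
    have := hη (.inl (.inr (f, x, y)))
    simp only [e', c', Sum.elim_inl, Sum.elim_inr, map_sub] at this
    linear_combination (norm := abel1) this
  have h3 : ∀ (r : R) f x, η (sg (r • f) x) = η (sg f (unop (τ r) • x)) := fun r f x => by
    have := hη (.inr (.inl (r, f, x)))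
    simp only [e', c', Sum.elim_inl, Sum.elim_inr, map_sub] at this
    exact sub_eq_zero.1 this
  refine ⟨⟨⟨fun f => Dual.mk (AddMonoidHom.mk' (fun x => η (sg f x)) (h2 f)), fun f g => ?_⟩,
    fun r f => ?_⟩, fun j => ?_⟩
  · exact Dual.ext fun x => h1 f g x
  · exact Dual.ext fun x => h3 r f x
  · exact Dual.ext fun x => hη (.inr (.inr (j, x)))

end

/-- the elementary dual of a pp condition -/
theorem exists_dual (τ : R →+* Sᵐᵒᵖ) (φ : PPCond R) : ∃ ψ : PPCond S,
    ∀ (L : Type u) [AddCommGroup L] [Module S L] (x : L), x ∈ ψ.eval L ↔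
      ∃ z : Fin φ.m → L, x = ∑ j, unop (τ (φ.H 0 j)) • z j ∧
        ∀ i : Fin φ.n, ∑ j, unop (τ (φ.H i.succ j)) • z j = 0 := by
  obtain ⟨θ, hθ⟩ := exists_F2_gen (R := S) (κ := Fin φ.m) (μ := Option (Fin φ.n))
    (fun j => j.elim (-1) (fun _ => 0)) (fun _ => 0)
    (fun j i => i.elim (unop (τ (φ.H 0 j))) (fun i => unop (τ (φ.H i.succ j))))
  refine ⟨θ.img (pbot S), fun L _ _ x => ?_⟩
  simp only [mem_img, mem_pbot, exists_eq_left, hθ]
  refine exists_congr fun z => ?_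
  rw [Option.forall]
  simp only [Option.elim_none, Option.elim_some, neg_smul, one_smul, zero_smul, add_zero, zero_add]
  constructor
  · rintro ⟨h1, h2⟩
    exact ⟨by linear_combination (norm := abel1) -h1, h2⟩
  · rintro ⟨h1, h2⟩
    exact ⟨by linear_combination (norm := abel1) -h1, h2⟩

noncomputable def DD (τ : R →+* Sᵐᵒᵖ) (φ : PPCond R) : PPCond S := (exists_dual τ φ).choose

theorem mem_DD (τ : R →+* Sᵐᵒᵖ) (φ : PPCond R) (L : Type u) [AddCommGroup L] [Module S L]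
    (x : L) : x ∈ (DD τ φ).eval L ↔
      ∃ z : Fin φ.m → L, x = ∑ j, unop (τ (φ.H 0 j)) • z j ∧
        ∀ i : Fin φ.n, ∑ j, unop (τ (φ.H i.succ j)) • z j = 0 :=
  (exists_dual τ φ).choose_spec L x

theorem K1 (τ : R →+* Sᵐᵒᵖ) (φ : PPCond R) (L : Type u) [AddCommGroup L] [Module S L]
    (ξ : Dual τ L) : ξ ∈ φ.eval (Dual τ L) ↔ ∀ x ∈ (DD τ φ).eval L, ξ x = 0 := by
  constructor
  · rintro ⟨η, hη⟩ x hx
    obtain ⟨z, rfl, hz⟩ := (mem_DD τ φ L x).1 hx
    have h1 : ∀ j, ξ (unop (τ (φ.H 0 j)) • z j) +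
        ∑ i : Fin φ.n, η i (unop (τ (φ.H i.succ j)) • z j) = 0 := fun j => by
      have := DFunLike.congr_fun (hη j) (z j)
      simpa [Dual.sum_apply] using this
    have h2 : ∑ j, ∑ i : Fin φ.n, η i (unop (τ (φ.H i.succ j)) • z j) = 0 := by
      rw [Finset.sum_comm]
      exact Finset.sum_eq_zero fun i _ => by rw [← map_sum, hz i, map_zero]
    have h3 := Finset.sum_eq_zero (s := Finset.univ) (fun j _ => h1 j)
    rw [Finset.sum_add_distrib, h2, add_zero] at h3
    rw [map_sum, h3]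
  · intro H
    let f : (Fin φ.m → L) →+ (Fin φ.n → L) :=
      AddMonoidHom.mk' (fun z i => ∑ j, unop (τ (φ.H i.succ j)) • z j) (fun z z' => by
        ext i; simp [Finset.sum_add_distrib])
    let g : (Fin φ.m → L) →+ L :=
      AddMonoidHom.mk' (fun z => ∑ j, unop (τ (φ.H 0 j)) • z j) (fun z z' => by
        simp [Finset.sum_add_distrib])
    obtain ⟨η, hη⟩ := ext_char f (ξ.hom.comp g) (fun z hz =>
      H _ ((mem_DD τ φ L _).2 ⟨z, rfl, fun i => congrFun hz i⟩))
    refine ⟨fun i => -Dual.mk (η.comp (AddMonoidHom.single (fun _ => L) i)), fun j => ?_⟩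
    refine Dual.ext fun x => ?_
    have h1 := hη (Pi.single j x)
    have h2 : f (Pi.single j x) = ∑ i : Fin φ.n,
        (Pi.single i (unop (τ (φ.H i.succ j)) • x) : Fin φ.n → L) := by
      ext i
      simp [f, Pi.single_apply, Finset.sum_apply]
    have h3 : g (Pi.single j x) = unop (τ (φ.H 0 j)) • x := by
      simp [g, Pi.single_apply]
    rw [h2, map_sum, AddMonoidHom.comp_apply, h3] at h1
    simp only [Dual.add_apply, Dual.smul_apply, Dual.sum_apply, Dual.neg_apply, Dual.mk_apply,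
      AddMonoidHom.comp_apply, AddMonoidHom.single_apply, Dual.zero_apply,
      Finset.sum_neg_distrib]
    rw [h1]; simp

theorem K2 (τ : R →+* Sᵐᵒᵖ) (τ' : S →+* Rᵐᵒᵖ) (hτ : ∀ r, unop (τ' (unop (τ r))) = r)
    (φ : PPCond R) (M : Type u) [AddCommGroup M] [Module R M]
    (ξ : Dual τ' M) : ξ ∈ (DD τ φ).eval (Dual τ' M) ↔ ∀ x ∈ φ.eval M, ξ x = 0 := by
  rw [mem_DD]
  constructor
  · rintro ⟨ζ, rfl, hζ⟩ x ⟨y, hy⟩
    have h1 : ∀ i : Fin φ.n, ∑ j, ζ j (φ.H i.succ j • y i) = 0 := fun i => by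
      have := DFunLike.congr_fun (hζ i) (y i)
      simpa [Dual.sum_apply, hτ] using this
    have h2 : ∀ j, ζ j (φ.H 0 j • x) + ∑ i : Fin φ.n, ζ j (φ.H i.succ j • y i) = 0 := fun j => by
      rw [← map_sum, ← map_add, hy j, map_zero]
    have h3 := Finset.sum_eq_zero (s := Finset.univ) (fun j _ => h2 j)
    rw [Finset.sum_add_distrib, Finset.sum_comm, Finset.sum_eq_zero (fun i _ => h1 i),
      add_zero] at h3
    simpa [Dual.sum_apply, hτ] using h3
  · intro H
    let f : (M × (Fin φ.n → M)) →+ (Fin φ.m → M) :=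
      AddMonoidHom.mk' (fun p j => φ.H 0 j • p.1 + ∑ i : Fin φ.n, φ.H i.succ j • p.2 i)
        (fun p q => by
          ext j; simp only [Prod.fst_add, Prod.snd_add, Pi.add_apply, smul_add,
            Finset.sum_add_distrib]; abel)
    obtain ⟨η, hη⟩ := ext_char f (ξ.hom.comp (AddMonoidHom.fst _ _)) (fun p hp =>
      H _ ⟨p.2, fun j => congrFun hp j⟩)
    have hs : ∀ v : Fin φ.m → M, ∑ j, η (Pi.single j (v j)) = η v := fun v => by
      rw [← map_sum, Finset.univ_sum_single]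
    refine ⟨fun j => Dual.mk (η.comp (AddMonoidHom.single (fun _ => M) j)), ?_, fun i => ?_⟩
    · refine Dual.ext fun x => ?_
      have h1 := hη (x, 0)
      simp only [Dual.sum_apply, Dual.smul_apply, hτ, Dual.mk_apply, AddMonoidHom.comp_apply,
        AddMonoidHom.single_apply]
      rw [hs (fun j => φ.H 0 j • x)]
      have : f (x, 0) = fun j => φ.H 0 j • x := by ext j; simp [f]
      rw [← this, h1]; rfl
    · refine Dual.ext fun x => ?_
      have h1 := hη (0, Pi.single i x)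
      simp only [Dual.sum_apply, Dual.smul_apply, hτ, Dual.mk_apply, AddMonoidHom.comp_apply,
        AddMonoidHom.single_apply]
      rw [hs (fun j => φ.H i.succ j • x)]
      have : f (0, Pi.single i x) = fun j => φ.H i.succ j • x := by
        ext j; simp [f, Pi.single_apply]
      rw [← this, h1]; simp

theorem DD_anti (τ : R →+* Sᵐᵒᵖ) {φ ψ : PPCond R} (h : PLe φ ψ) : PLe (DD τ ψ) (DD τ φ) := by
  intro L _ _ x hx
  by_contra hn
  obtain ⟨ξ, h1, h2⟩ := sep_char ((DD τ φ).sub L) hn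
  exact h2 ((K1 τ ψ L (Dual.mk ξ)).1 (h _ ((K1 τ φ L (Dual.mk ξ)).2 h1)) x hx)

theorem DD_DD (τ : R →+* Sᵐᵒᵖ) (τ' : S →+* Rᵐᵒᵖ) (hτ : ∀ r, unop (τ' (unop (τ r))) = r)
    (φ : PPCond R) : PLe φ (DD τ' (DD τ φ)) ∧ PLe (DD τ' (DD τ φ)) φ := by
  constructor
  · intro M _ _ x hx
    by_contra hn
    obtain ⟨ξ, h1, h2⟩ := sep_char ((DD τ' (DD τ φ)).sub M) hn
    exact h2 ((K2 τ τ' hτ φ M (Dual.mk ξ)).1 ((K1 τ' _ M (Dual.mk ξ)).2 h1) x hx)
  · intro M _ _ x hx
    by_contra hn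
    obtain ⟨ξ, h1, h2⟩ := sep_char (φ.sub M) hn
    exact h2 ((K1 τ' _ M (Dual.mk ξ)).1 ((K2 τ τ' hτ φ M (Dual.mk ξ)).2 h1) x hx)

/-- every module has an algebraically compact extension reflecting pp conditions -/
theorem exists_AC_ext (M : Type u) [AddCommGroup M] [Module R M] :
    ∃ (N : Type u) (_ : AddCommGroup N) (_ : Module R N) (f : M →ₗ[R] N), AC R N ∧
      ∀ (φ : PPCond R) (x : M), f x ∈ φ.eval N → x ∈ φ.eval M := by
  let τ : R →+* Rᵐᵒᵖᵐᵒᵖ := (RingEquiv.opOp R).toRingHom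
  let τ' : Rᵐᵒᵖ →+* Rᵐᵒᵖ := RingHom.id _
  have hτ : ∀ r, unop (τ' (unop (τ r))) = r := fun r => rfl
  let f : M →ₗ[R] Dual τ (Dual τ' M) :=
    { toFun := fun x => Dual.mk (AddMonoidHom.mk' (fun ξ : Dual τ' M => ξ x) (fun _ _ => rfl))
      map_add' := fun x y => Dual.ext fun ξ => by simp
      map_smul' := fun r x => Dual.ext fun ξ => rfl }
  refine ⟨Dual τ (Dual τ' M), inferInstance, inferInstance, f, AC_dual, fun φ x hx => ?_⟩
  by_contra hn
  obtain ⟨ξ, h1, h2⟩ := sep_char (φ.sub M) hn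
  exact h2 ((K1 τ φ _ (f x)).1 hx (Dual.mk ξ) ((K2 τ τ' hτ φ M (Dual.mk ξ)).2 h1))

end Pool.Agent.Lib.MP_1e63be_al
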