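import Pool.Agent.Lib.MP_1e63be_al.Hull
import Pool.Agent.Lib.MP_1e63be_al.Dual

set_option autoImplicit false
set_option linter.unusedSectionVars false

universe u v w

namespace Pool.Agent.Lib.MP_1e63be_al

variable {R : Type u} [Ring R]

structure Defble (le : PPCond R → PPCond R → Prop) : Prop where
  of_le : ∀ {φ ψ}, PLe φ ψ → le φ ψ
  trans : ∀ {φ ψ χ}, le φ ψ → le ψ χ → le φ χ
  img : ∀ (θ : F2 R) {φ ψ}, le φ ψ → le (θ.img φ) (θ.img ψ)

theorem inf_le_left' (φ ψ : PPCond R) : PLe (φ.inf ψ) φ :=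
  fun M _ _ x hx => ((mem_inf _ _ M x).1 hx).1
theorem inf_le_right' (φ ψ : PPCond R) : PLe (φ.inf ψ) ψ :=
  fun M _ _ x hx => ((mem_inf _ _ M x).1 hx).2
theorem le_sup_left' (φ ψ : PPCond R) : PLe φ (φ.sup ψ) :=
  fun M _ _ x hx => (mem_sup _ _ M x).2 ⟨0, ψ.zero_mem, by simpa using hx⟩
theorem le_sup_right' (φ ψ : PPCond R) : PLe ψ (φ.sup ψ) :=
  fun M _ _ x hx => (mem_sup _ _ M x).2 ⟨x, hx, by simpa using φ.zero_mem⟩
theorem inf_comm' (φ ψ : PPCond R) : PLe (φ.inf ψ) (ψ.inf φ) :=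
  fun M _ _ x hx => (mem_inf _ _ M x).2 ((mem_inf _ _ M x).1 hx).symm
theorem sup_comm' (φ ψ : PPCond R) : PLe (φ.sup ψ) (ψ.sup φ) := fun M _ _ x hx => by
  obtain ⟨y, hy, hxy⟩ := (mem_sup _ _ M x).1 hx
  exact (mem_sup _ _ M x).2 ⟨x - y, hxy, by simpa using hy⟩
theorem PLe.le_inf {φ ψ χ : PPCond R} (h : PLe φ ψ) (h' : PLe φ χ) : PLe φ (ψ.inf χ) :=
  fun M _ _ x hx => (mem_inf _ _ M x).2 ⟨h M hx, h' M hx⟩
theorem PLe.sup_le {φ ψ χ : PPCond R} (h : PLe φ χ) (h' : PLe ψ χ) : PLe (φ.sup ψ) χ :=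
  fun M _ _ x hx => by
    obtain ⟨y, hy, hxy⟩ := (mem_sup _ _ M x).1 hx
    simpa using PPCond.add_mem (h M hxy) (h' M hy)
theorem pbot_le (φ : PPCond R) : PLe (pbot R) φ :=
  fun M _ _ x hx => by rw [(mem_pbot M x).1 hx]; exact φ.zero_mem
theorem le_ptop (φ : PPCond R) : PLe φ (ptop R) := fun M _ _ x _ => mem_ptop M x

namespace Defble
variable {le : PPCond R → PPCond R → Prop} (H : Defble le)
include H

theorem refl (φ : PPCond R) : le φ φ := H.of_le (PLe.refl φ)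

theorem le_inf {φ ψ χ : PPCond R} (h : le φ ψ) (h' : le φ χ) : le φ (ψ.inf χ) := by
  have h1 : le (φ.inf φ) (φ.inf χ) := H.img _ h'
  have h2 : le (χ.inf φ) (χ.inf ψ) := H.img _ h
  exact H.trans (H.of_le ((PLe.refl φ).le_inf (PLe.refl φ))) (H.trans h1
    (H.trans (H.of_le (inf_comm' _ _)) (H.trans h2 (H.of_le (inf_comm' _ _)))))

theorem sup_le {φ ψ χ : PPCond R} (h : le φ χ) (h' : le ψ χ) : le (φ.sup ψ) χ := by
  have h1 : le (φ.sup ψ) (φ.sup χ) := H.img _ h'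
  have h2 : le (χ.sup φ) (χ.sup χ) := H.img _ h
  exact H.trans h1 (H.trans (H.of_le (sup_comm' _ _)) (H.trans h2
    (H.of_le ((PLe.refl χ).sup_le (PLe.refl χ)))))

end Defble

def Good (le : PPCond R → PPCond R → Prop) (N : Type u) [AddCommGroup N] [Module R N] : Prop :=
  ∀ φ ψ, le φ ψ → φ.eval N ⊆ ψ.eval N

noncomputable def lmeet (l : List (PPCond R)) : PPCond R := l.foldr PPCond.inf (ptop R)

theorem mem_lmeet (l : List (PPCond R)) (M : Type u) [AddCommGroup M] [Module R M] (x : M) :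
    x ∈ (lmeet l).eval M ↔ ∀ φ ∈ l, x ∈ φ.eval M := by
  induction l with
  | nil => simpa [lmeet] using mem_ptop M x
  | cons φ l ih =>
    have : lmeet (φ :: l) = φ.inf (lmeet l) := rfl
    rw [this, mem_inf, ih]; simp

theorem realize_type (p : Set (PPCond R))
    (hp : ∀ (l : List (PPCond R)) (ρ : PPCond R), (∀ φ ∈ l, φ ∈ p) → PLe (lmeet l) ρ → ρ ∈ p) :
    ∃ (M : Type u) (_ : AddCommGroup M) (_ : Module R M) (a : M),
      ∀ φ : PPCond R, a ∈ φ.eval M ↔ φ ∈ p := by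
  classical
  let ι := Option (Σ χ : p, Fin χ.1.n)
  let g : (Σ χ : p, Fin χ.1.m) → (ι →₀ R) := fun q =>
    q.1.1.H 0 q.2 • Finsupp.single none 1 +
      ∑ i : Fin q.1.1.n, q.1.1.H i.succ q.2 • Finsupp.single (some ⟨q.1, i⟩) 1
  let P : Submodule R (ι →₀ R) := Submodule.span R (Set.range g)
  refine ⟨(ι →₀ R) ⧸ P, inferInstance, inferInstance, P.mkQ (Finsupp.single none 1),
    fun φ => ⟨?_, fun hφ => ?_⟩⟩
  · rintro ⟨y, hy⟩
    choose z hz using fun i => P.mkQ_surjective (y i)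
    obtain ⟨s, hs⟩ := exists_finset_span g
      (fun j : Fin φ.m => φ.H 0 j • Finsupp.single none 1 + ∑ i, φ.H i.succ j • z i) (fun j => by
        change _ ∈ P
        rw [← Submodule.Quotient.mk_eq_zero, ← P.mkQ_apply, map_add, map_sum]
        simp only [map_smul, hz, hy j])
    refine hp ((s.image (fun q => q.1.1)).toList) φ (fun χ hχ => ?_) (fun M _ _ x hx => ?_)
    · obtain ⟨q, -, rfl⟩ := Finset.mem_image.1 (Finset.mem_toList.1 hχ)
      exact q.1.2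
    · rw [mem_lmeet] at hx
      have : ∀ χ : p, ∃ w : Fin χ.1.n → M, x ∈ χ.1.eval M →
          ∀ j, χ.1.H 0 j • x + ∑ i, χ.1.H i.succ j • w i = 0 := fun χ => by
        by_cases h : x ∈ χ.1.eval M
        · obtain ⟨w, hw⟩ := h; exact ⟨w, fun _ => hw⟩
        · exact ⟨0, fun h' => absurd h' h⟩
      choose w hw using this
      let h : (ι →₀ R) →ₗ[R] M :=
        Finsupp.linearCombination R (fun o : ι => o.elim x (fun q => w q.1 q.2))
      have hk : Submodule.span R (g '' (s : Set _)) ≤ LinearMap.ker h := by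
        rw [Submodule.span_le]
        rintro _ ⟨q, hq, rfl⟩
        have := hw q.1 (hx _ (Finset.mem_toList.2 (Finset.mem_image.2 ⟨q, hq, rfl⟩))) q.2
        simpa [g, h, map_sum] using this
      refine ⟨fun i => h (z i), fun j => ?_⟩
      have := hk (hs j)
      simpa [h, map_sum] using this
  · refine ⟨fun i => P.mkQ (Finsupp.single (some ⟨⟨φ, hφ⟩, i⟩) 1), fun j => ?_⟩
    have : P.mkQ (g ⟨⟨φ, hφ⟩, j⟩) = 0 := by
      rw [P.mkQ_apply, Submodule.Quotient.mk_eq_zero]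
      exact Submodule.subset_span ⟨_, rfl⟩
    simpa only [g, map_add, map_sum, map_smul] using this

def Cons (le : PPCond R → PPCond R → Prop) (Λ U : Set (PPCond R)) : Prop :=
  ∀ l : List (PPCond R), (∀ φ ∈ l, φ ∈ U) → ∀ γ ∈ Λ, ¬ le (lmeet l) γ

theorem list_chain {α : Type v} {c : Set (Set α)} (hc : IsChain (· ⊆ ·) c) (hne : c.Nonempty)
    (l : List α) (hl : ∀ x ∈ l, x ∈ ⋃₀ c) : ∃ B ∈ c, ∀ x ∈ l, x ∈ B := by
  induction l with
  | nil => obtain ⟨B, hB⟩ := hne; exact ⟨B, hB, by simp⟩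
  | cons a l ih =>
    obtain ⟨B, hB, hB'⟩ := ih (fun x hx => hl x (List.mem_cons_of_mem a hx))
    obtain ⟨C, hC, haC⟩ := hl a List.mem_cons_self
    rcases hc.total hB hC with h | h
    · refine ⟨C, hC, fun x hx => ?_⟩
      rcases List.mem_cons.1 hx with rfl | hx
      · exact haC
      · exact h (hB' x hx)
    · refine ⟨B, hB, fun x hx => ?_⟩
      rcases List.mem_cons.1 hx with rfl | hx
      · exact h haC
      · exact hB' x hx

theorem not_cons_insert {le : PPCond R → PPCond R → Prop} (H : Defble le)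
    {Λ p : Set (PPCond R)} {ρ : PPCond R} (h : ¬ Cons le Λ (insert ρ p)) :
    ∃ l : List (PPCond R), (∀ φ ∈ l, φ ∈ p) ∧ ∃ γ ∈ Λ, le ((lmeet l).inf ρ) γ := by
  classical
  unfold Cons at h
  push Not at h
  obtain ⟨l, hl, γ, hγ, hle⟩ := h
  refine ⟨l.filter (· ∈ p), fun φ hφ => by simpa using (List.mem_filter.1 hφ).2, γ, hγ,
    H.trans (H.of_le fun M _ _ x hx => ?_) hle⟩
  rw [mem_inf, mem_lmeet] at hx
  rw [mem_lmeet]
  intro φ hφ
  rcases hl φ hφ with rfl | h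
  · exact hx.2
  · exact hx.1 φ (List.mem_filter.2 ⟨hφ, by simpa using h⟩)

theorem complete {le : PPCond R → PPCond R → Prop} (H : Defble le) (U Λ : Set (PPCond R))
    (hne : Λ.Nonempty) (hdir : ∀ γ1 ∈ Λ, ∀ γ2 ∈ Λ, ∃ γ ∈ Λ, le γ1 γ ∧ le γ2 γ)
    (hU : Cons le Λ U) :
    ∃ (N : ZgMod R) (a : N.carrier), Good le N.carrier ∧ (∀ φ ∈ U, a ∈ φ.eval N.carrier) ∧
      (∀ γ ∈ Λ, a ∉ γ.eval N.carrier) ∧
      ∀ ρ : PPCond R, a ∉ ρ.eval N.carrier →
        ∃ χ : PPCond R, a ∈ χ.eval N.carrier ∧ ∃ γ ∈ Λ, le (χ.inf ρ) γ := by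
  obtain ⟨p, hUp, hp⟩ := zorn_subset_nonempty {V | Cons le Λ V} (fun c hc hch hcne =>
    ⟨⋃₀ c, fun l hl => by
      obtain ⟨B, hB, hB'⟩ := list_chain hch hcne l hl
      exact hc hB l hB', fun s hs => Set.subset_sUnion_of_mem hs⟩) U hU
  have hpc : Cons le Λ p := hp.prop
  have hmax : ∀ ρ, ρ ∉ p →
      ∃ l : List (PPCond R), (∀ φ ∈ l, φ ∈ p) ∧ ∃ γ ∈ Λ, le ((lmeet l).inf ρ) γ := fun ρ hρ =>
    not_cons_insert H (fun hc => hρ (hp.2 hc (Set.subset_insert _ _) (Set.mem_insert _ _)))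
  have hcl : ∀ (l : List (PPCond R)) (ρ : PPCond R), (∀ φ ∈ l, φ ∈ p) → le (lmeet l) ρ →
      ρ ∈ p := by
    intro l ρ hl hle
    by_contra hρ
    obtain ⟨l2, hl2, γ, hγ, h2⟩ := hmax ρ hρ
    refine hpc (l ++ l2) (fun φ hφ => ?_) γ hγ (H.trans (H.le_inf (H.of_le ?_)
      (H.trans (H.of_le ?_) hle)) h2)
    · rcases List.mem_append.1 hφ with h | h
      · exact hl φ h
      · exact hl2 φ h
    · intro M _ _ x hx
      rw [mem_lmeet] at hx ⊢
      exact fun φ hφ => hx φ (List.mem_append_right _ hφ)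
    · intro M _ _ x hx
      rw [mem_lmeet] at hx ⊢
      exact fun φ hφ => hx φ (List.mem_append_left _ hφ)
  have hcl1 : ∀ φ ρ, φ ∈ p → le φ ρ → ρ ∈ p := fun φ ρ hφ hle =>
    hcl [φ] ρ (by simpa using hφ) (H.trans (H.of_le fun M _ _ x hx => by
      simpa [mem_lmeet] using hx) hle)
  have hnot : ∀ γ ∈ Λ, γ ∉ p := fun γ hγ h =>
    hpc [γ] (by simpa using h) γ hγ (H.of_le fun M _ _ x hx => by simpa [mem_lmeet] using hx)
  obtain ⟨M, _, _, a0, ha0⟩ := realize_type p (fun l ρ hl h => hcl l ρ hl (H.of_le h))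
  obtain ⟨N1, _, _, f, hN1, hf⟩ := exists_AC_ext (R := R) M
  obtain ⟨e, he, hea, hmin⟩ := exists_hull hN1 (f a0)
  have he' : ∀ x, e (e x) = e x := fun x => LinearMap.congr_fun he x
  let N := LinearMap.range e
  let a : N := ⟨f a0, f a0, hea⟩
  have hpr : ∀ x : N, e.rangeRestrict (N.subtype x) = x := by
    rintro ⟨_, x, rfl⟩
    exact Subtype.ext (he' x)
  have hN : AC R N := hN1.retract N.subtype e.rangeRestrict hpr
  have ha : ∀ φ : PPCond R, a ∈ φ.eval N ↔ φ ∈ p := fun φ => by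
    rw [← ha0]
    refine ⟨fun h => hf φ _ (PPCond.map_mem N.subtype h), fun h => ?_⟩
    have := PPCond.map_mem e.rangeRestrict (PPCond.map_mem f h)
    rwa [← hpr a]
  have hinj : ∀ s : N →ₗ[R] N, s a = a → Function.Injective s := by
    intro s hs
    obtain ⟨g, hg⟩ := hmin (N.subtype ∘ₗ s ∘ₗ e.rangeRestrict) (by
      have : e.rangeRestrict (f a0) = a := hpr a
      simp only [LinearMap.comp_apply, this, hs]; rfl)
    have hg' : ∀ x : N, g (s x) = x := by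
      intro x
      have h1 := LinearMap.congr_fun hg x
      have h2 : e x = x := congrArg Subtype.val (hpr x)
      have h3 : e.rangeRestrict x = x := hpr x
      simp only [LinearMap.comp_apply, h2, h3] at h1
      exact h1
    intro x y hxy
    exact Subtype.ext (by rw [← hg' x, ← hg' y, hxy])
  obtain ⟨γ0, hγ0⟩ := hne
  have ha_ne : a ≠ 0 := fun h0 => hnot γ0 hγ0 ((ha γ0).1 (h0 ▸ γ0.zero_mem))
  have hmax' : ∀ ρ : PPCond R, a ∉ ρ.eval N →
      ∃ χ : PPCond R, a ∈ χ.eval N ∧ ∃ γ ∈ Λ, le (χ.inf ρ) γ := fun ρ hρ => by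
    obtain ⟨l, hl, hγ⟩ := hmax ρ (fun h => hρ ((ha ρ).2 h))
    exact ⟨lmeet l, (mem_lmeet _ _ _).2 fun φ hφ => (ha φ).2 (hl φ hφ), hγ⟩
  have hI : IsIndec R N := by
    refine ⟨⟨a, 0, ha_ne⟩, fun A B hAB => ?_⟩
    have key : ∀ A B : Submodule R N, (h : IsCompl A B) → B ≠ ⊥ →
        ∃ ρ : PPCond R, (A.projection B h) a ∈ ρ.eval N ∧ a ∉ ρ.eval N := by
      intro A B h hB
      by_contra hc
      push Not at hc
      obtain ⟨g, hg⟩ := hN.realize0 _ a hc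
      have hi := hinj (g ∘ₗ A.projection B h) hg
      apply hB
      rw [eq_bot_iff]
      intro x hx
      rw [Submodule.mem_bot]
      apply hi
      simp [Submodule.projection_apply_of_mem_right h hx]
    by_contra hc
    push Not at hc
    obtain ⟨ρ1, h1, h1'⟩ := key A B hAB hc.2
    obtain ⟨ρ2, h2, h2'⟩ := key B A hAB.symm hc.1
    obtain ⟨χ1, hχ1, γ1, hγ1, hl1⟩ := hmax' ρ1 h1'
    obtain ⟨χ2, hχ2, γ2, hγ2, hl2⟩ := hmax' ρ2 h2'
    obtain ⟨γ, hγ, k1, k2⟩ := hdir γ1 hγ1 γ2 hγ2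
    refine hnot γ hγ (hcl1 ((χ1.inf ρ1).sup (χ2.inf ρ2)) γ ((ha _).1 ?_)
      (H.sup_le (H.trans hl1 k1) (H.trans hl2 k2)))
    refine (mem_sup _ _ _ _).2 ⟨B.projection A hAB.symm a,
      (mem_inf _ _ _ _).2 ⟨PPCond.map_mem _ hχ2, h2⟩, ?_⟩
    have : a - B.projection A hAB.symm a = A.projection B hAB a := by
      rw [sub_eq_iff_eq_add]
      exact (Submodule.projection_add_projection_eq_self hAB a).symm
    rw [this]
    exact (mem_inf _ _ _ _).2 ⟨PPCond.map_mem _ hχ1, h1⟩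
  refine ⟨⟨ModuleCat.of R N, hI, pinj_of_AC hN⟩, a, fun φ ψ hle b hb => ?_,
    fun φ hφ => (ha φ).2 (hUp hφ), fun γ hγ h => hnot γ hγ ((ha γ).1 h), hmax'⟩
  by_contra hb'
  obtain ⟨θ, hθ, hθ'⟩ := link2 hN hI (a := a) (a' := b) (ψ := pbot R) (ψ' := ψ)
    (fun h => ha_ne ((mem_pbot _ _).1 h)) hb'
  apply hθ'
  refine le_sup_left' _ _ _ ((ha _).2 (hcl1 (θ.img φ) _ ((ha _).1 ?_) (H.img θ hle)))
  exact (mem_img _ _ _ _).2 ⟨b, hb, hθ⟩

theorem complete1 {le : PPCond R → PPCond R → Prop} (H : Defble le) {φ ψ : PPCond R}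
    (h : ¬ le φ ψ) : ∃ N : ZgMod R, Good le N.carrier ∧
      ¬ φ.eval N.carrier ⊆ ψ.eval N.carrier := by
  obtain ⟨N, a, h1, h2, h3, -⟩ := complete H {φ} {ψ} ⟨ψ, rfl⟩ (by
    rintro _ rfl _ rfl; exact ⟨_, rfl, H.refl _, H.refl _⟩) (by
    rintro l hl _ rfl hle
    refine h (H.trans (H.of_le fun M _ _ x hx => ?_) hle)
    rw [mem_lmeet]
    intro χ hχ
    rw [hl χ hχ]; exact hx)
  exact ⟨N, h1, fun hs => h3 ψ rfl (hs (h2 φ rfl))⟩

def MinPair {α : Type v} (le : α → α → Prop) (φ ψ : α) : Prop :=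
  le ψ φ ∧ ¬ le φ ψ ∧ ∀ χ, le ψ χ → le χ φ → le χ ψ ∨ le φ χ

theorem minpair_hom {le : PPCond R → PPCond R → Prop} (H : Defble le) {φ ψ : PPCond R}
    (hm : MinPair le φ ψ) {N N' : Type u} [AddCommGroup N] [Module R N] [AddCommGroup N']
    [Module R N'] (hN : Good le N) (hN' : Good le N') (hA : AC R N') {a : N} {a' : N'}
    (ha : a ∈ φ.eval N) (hna : a ∉ ψ.eval N) (ha' : a' ∈ φ.eval N') :
    ∃ f : N →ₗ[R] N', f a - a' ∈ ψ.eval N' := by
  refine hA.realize1 a a' ψ (fun χ hχ => ?_)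
  rcases hm.2.2 ((χ.inf φ).sup ψ) (H.of_le (le_sup_right' _ _))
    (H.sup_le (H.of_le (inf_le_right' _ _)) hm.1) with h | h
  · exact absurd (hN _ _ h (le_sup_left' _ _ _ ((mem_inf _ _ _ _).2 ⟨hχ, ha⟩))) hna
  · obtain ⟨y, hy, hy'⟩ := (mem_sup _ _ _ _).1 (hN' _ _ h ha')
    exact ⟨a' - y, ((mem_inf _ _ _ _).1 hy').1, by simpa using PPCond.neg_mem hy⟩

theorem minpair_unique {le : PPCond R → PPCond R → Prop} (H : Defble le) {φ ψ : PPCond R}
    (hm : MinPair le φ ψ) (N N' : ZgMod R) (hN : Good le N.carrier) (hN' : Good le N'.carrier)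
    (h : ¬ φ.eval N.carrier ⊆ ψ.eval N.carrier) (h' : ¬ φ.eval N'.carrier ⊆ ψ.eval N'.carrier) :
    Nonempty (N.carrier ≃ₗ[R] N'.carrier) := by
  obtain ⟨a, ha, hna⟩ := Set.not_subset.1 h
  obtain ⟨a', ha', hna'⟩ := Set.not_subset.1 h'
  have hA := AC_of_pinj N.pinj
  have hA' := AC_of_pinj N'.pinj
  obtain ⟨f, hf⟩ := minpair_hom H hm hN hN' hA' ha hna ha'
  have hfa : f a ∉ ψ.eval N'.carrier := fun h0 => hna' (by simpa using PPCond.sub_mem h0 hf)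
  obtain ⟨g, hg⟩ := minpair_hom H hm hN' hN hA (PPCond.map_mem f ha) hfa ha
  have := N.indec.1
  rcases local_end hA N.indec (g ∘ₗ f) with hb | hb
  · exact ⟨LinearEquiv.ofBijective f (bij_of_comp N'.indec f g hb)⟩
  · exact absurd (mem_of_bij hb (by simpa using PPCond.neg_mem hg)) hna

end Pool.Agent.Lib.MP_1e63be_al
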