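import Pool.Agent.Lib.MP_1e63be_al.Zorn

set_option autoImplicit false
set_option linter.unusedSectionVars false

universe u v w

namespace Pool.Agent.Lib.MP_1e63be_al

open Cardinal

theorem tree_aux {α : Type u} {F : Set (Set α)} (hF : Order.IsOfFiniteCharacter F)
    (h0 : ∅ ∈ F) {μ : Cardinal.{u}} (hμ : ℵ₀ < μ) (sp : Set α → Bool → Set α)
    (hfin : ∀ Γ b, (sp Γ b).Finite)
    (hsp : ∀ Γ ∈ F, #Γ < μ → (∀ b, Γ ∪ sp Γ b ∈ F) ∧ sp Γ false ∪ sp Γ true ∉ F)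
    {ι : Type u} [LinearOrder ι] [WellFoundedLT ι] (h1 : #ι ≤ μ)
    (h2 : ∀ i : ι, #(Set.Iio i) < μ) (h3 : ∀ i : ι, 2 ^ #(Set.Iio i) ≤ μ) :
    ∃ Φ : Set α, #Φ ≤ μ ∧ 2 ^ #ι ≤ #((fun m => m ∩ Φ) '' {m | Maximal (· ∈ F) m}) := by
  classical
  have hdown : ∀ x ∈ F, ∀ y ⊆ x, y ∈ F := fun x hx y hy =>
    (hF y).2 fun z hz hfin => (hF x).1 hx z (hz.trans hy) hfin
  let G : (ι → Bool) → (i : ι) → ((j : ι) → j < i → Set α) → Set α := fun η i f =>
    sp (⋃ j, ⋃ h : j < i, f j h) (η i)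
  let D : (ι → Bool) → ι → Set α := fun η => wellFounded_lt.fix (G η)
  let Γ : (ι → Bool) → ι → Set α := fun η i => ⋃ j, ⋃ _ : j < i, D η j
  have hD : ∀ η i, D η i = sp (Γ η i) (η i) := fun η i => wellFounded_lt.fix_eq (G η) i
  have hcard : ∀ η i, #(Γ η i) < μ := fun η i => by
    refine lt_of_le_of_lt (Cardinal.mk_biUnion_le (D η) (Set.Iio i))
      (Cardinal.mul_lt_of_lt hμ.le (h2 i) (lt_of_le_of_lt (ciSup_le' fun j => ?_) hμ))
    rw [hD]
    exact Cardinal.le_aleph0_iff_set_countable.2 (hfin _ _).countable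
  have hun : ∀ η (T : Set ι), (∀ j ∈ T, Γ η j ∪ D η j ∈ F) → (⋃ j ∈ T, D η j) ∈ F := by
    intro η T hT
    refine (hF _).2 fun y hy hyf => ?_
    have : ∀ x : y, ∃ j ∈ T, x.1 ∈ D η j := fun x => by simpa using hy x.2
    choose g hg1 hg2 using this
    rcases y.eq_empty_or_nonempty with rfl | hne
    · exact h0
    · have := hyf.to_subtype
      have := hne.to_subtype
      obtain ⟨x0, hx0⟩ := Finite.exists_max g
      refine hdown _ (hT _ (hg1 x0)) _ fun x hx => ?_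
      rcases (hx0 ⟨x, hx⟩).eq_or_lt with h | h
      · exact Or.inr (h ▸ hg2 ⟨x, hx⟩)
      · exact Or.inl (Set.mem_iUnion₂.2 ⟨_, h, hg2 ⟨x, hx⟩⟩)
  have main : ∀ η i, Γ η i ∈ F := by
    intro η i
    induction i using WellFoundedLT.induction with
    | ind i ih => exact hun η (Set.Iio i) fun j hj => hD η j ▸ (hsp _ (ih j hj) (hcard η j)).1 _
  have hloc : ∀ η η' i, (∀ j < i, η j = η' j) → Γ η i = Γ η' i := by
    intro η η' i
    induction i using WellFoundedLT.induction with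
    | ind i ih =>
      intro h
      refine Set.iUnion_congr fun j => Set.iUnion_congr fun hj => ?_
      rw [hD, hD, h j hj, ih j hj (fun k hk => h k (hk.trans hj))]
  choose V hV1 hV2 using fun η => hF.exists_maximal (hun η Set.univ
    fun j _ => hD η j ▸ (hsp _ (main η j) (hcard η j)).1 _)
  have hDV : ∀ η i, D η i ⊆ V η := fun η i =>
    (Set.subset_biUnion_of_mem (u := D η) (Set.mem_univ i)).trans (hV1 η)
  let E : (Σ i : ι, (Set.Iio i → Bool) × Bool) → Set α := fun q =>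
    sp (Γ (fun j => if h : j < q.1 then q.2.1 ⟨j, h⟩ else false) q.1) q.2.2
  have hDE : ∀ η i, D η i ⊆ ⋃ q, E q := fun η i => by
    refine le_trans (le_of_eq ?_) (Set.subset_iUnion E ⟨i, fun j => η j, η i⟩)
    rw [hD]
    exact congrArg (sp · (η i)) (hloc _ _ _ fun j hj => by simp [hj])
  refine ⟨⋃ q, E q, ?_, ?_⟩
  · refine (Cardinal.mk_iUnion_le E).trans ?_
    rw [← Cardinal.mul_eq_self hμ.le]
    refine mul_le_mul ?_ (ciSup_le' fun q => (Cardinal.le_aleph0_iff_set_countable.2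
      (hfin _ _).countable).trans hμ.le) zero_le zero_le
    rw [Cardinal.mk_sigma]
    refine (Cardinal.sum_le_mk_mul_iSup _).trans ?_
    rw [← Cardinal.mul_eq_self hμ.le]
    refine mul_le_mul h1 (ciSup_le' fun i => ?_) zero_le zero_le
    have : #((Set.Iio i → Bool) × Bool) = 2 ^ #(Set.Iio i) * 2 := by simp
    rw [this, ← Cardinal.mul_eq_self hμ.le]
    exact mul_le_mul (h3 i) ((Cardinal.natCast_lt_aleph0 (n := 2)).le.trans hμ.le) zero_le zero_le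
  · have h4 : #(ι → Bool) = 2 ^ #ι := by simp
    rw [← h4]
    refine Cardinal.mk_le_of_injective (f := fun η => ⟨V η ∩ ⋃ q, E q, V η, hV2 η, rfl⟩) ?_
    intro η η' h
    have h' : V η ∩ ⋃ q, E q = V η' ∩ ⋃ q, E q := congrArg Subtype.val h
    by_contra hne
    obtain ⟨i, hi, hmin⟩ := wellFounded_lt.has_min {i | η i ≠ η' i} (Function.ne_iff.1 hne)
    have hΓ := hloc η η' i fun j hj => by
      by_contra k
      exact hmin j k hj
    have k1 : D η i ⊆ V η := hDV η i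
    have k2 : D η' i ⊆ V η := fun x hx =>
      (h'.symm ▸ (⟨hDV η' i hx, hDE η' i hx⟩ : x ∈ V η' ∩ ⋃ q, E q) : x ∈ V η ∩ ⋃ q, E q).1
    rw [hD] at k1
    rw [hD, ← hΓ] at k2
    refine (hsp _ (main η i) (hcard η i)).2 (hdown _ (hV2 η).1 _ ?_)
    have hi' : η i ≠ η' i := hi
    revert k1 k2 hi'
    cases η i <;> cases η' i <;> intro k1 k2 hi'
    · exact absurd rfl hi'
    · exact Set.union_subset k1 k2
    · exact Set.union_subset k2 k1
    · exact absurd rfl hi'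

theorem tree_two {α : Type u} {F : Set (Set α)} (hF : Order.IsOfFiniteCharacter F)
    (h0 : ∅ ∈ F) {μ : Cardinal.{u}} (hμ : ℵ₀ < μ)
    (h : ∀ Γ ∈ F, #Γ < μ → ∃ m m', Maximal (· ∈ F) m ∧ Maximal (· ∈ F) m' ∧ Γ ⊆ m ∧ Γ ⊆ m' ∧
      m ≠ m') :
    ∃ Φ : Set α, #Φ ≤ μ ∧ μ < #((fun m => m ∩ Φ) '' {m | Maximal (· ∈ F) m}) := by
  have hdown : ∀ x ∈ F, ∀ y ⊆ x, y ∈ F := fun x hx y hy =>
    (hF y).2 fun z hz hfin => (hF x).1 hx z (hz.trans hy) hfin
  have : ∀ Γ : Set α, ∃ t : Bool → Set α, (∀ b, (t b).Finite) ∧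
      (Γ ∈ F → #Γ < μ → (∀ b, Γ ∪ t b ∈ F) ∧ t false ∪ t true ∉ F) := by
    intro Γ
    by_cases k : Γ ∈ F ∧ #Γ < μ
    · obtain ⟨m, m', h1, h2, h3, h4, h5⟩ := h Γ k.1 k.2
      have : m ∪ m' ∉ F := fun h6 => h5 (le_antisymm
        (Set.subset_union_left.trans (h2.2 h6 Set.subset_union_right))
        (Set.subset_union_right.trans (h1.2 h6 Set.subset_union_left)))
      rw [hF] at this
      push Not at this
      obtain ⟨y, k1, k2, k3⟩ := this
      refine ⟨fun b => match b with | false => y ∩ m | true => y ∩ m', fun b => ?_,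
        fun _ _ => ⟨fun b => ?_, ?_⟩⟩
      · cases b <;> exact k2.inter_of_left _
      · cases b
        · exact hdown _ h1.1 _ (Set.union_subset h3 Set.inter_subset_right)
        · exact hdown _ h2.1 _ (Set.union_subset h4 Set.inter_subset_right)
      · change y ∩ m ∪ y ∩ m' ∉ F
        rwa [← Set.inter_union_distrib_left, Set.inter_eq_left.2 k1]
    · exact ⟨fun _ => ∅, fun _ => Set.finite_empty, fun k1 k2 => absurd ⟨k1, k2⟩ k⟩
  choose sp hfin hsp using this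
  obtain ⟨l, hl, hmin⟩ := (wellFounded_lt (α := Cardinal.{u})).has_min {l | μ < 2 ^ l}
    ⟨μ, Cardinal.cantor μ⟩
  have hlμ : l ≤ μ := not_lt.1 (hmin μ (Cardinal.cantor μ))
  obtain ⟨lo, wo, hord⟩ := Cardinal.exists_ord_eq_type_lt l.out
  have hI : ∀ i : l.out, #(Set.Iio i) < l := fun i => by
    simpa using Cardinal.mk_Iio_lt i hord
  obtain ⟨Φ, h1, h2⟩ := tree_aux hF h0 hμ sp hfin hsp (ι := l.out) (by simpa using hlμ)
    (fun i => (hI i).trans_le hlμ) (fun i => not_lt.1 fun k => hmin _ k (hI i))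
  exact ⟨Φ, h1, lt_of_lt_of_le hl (by simpa using h2)⟩

variable {R S : Type u} [Ring R] [Ring S]

/-- few orbits of binary conditions over small sets of parameters -/
def FewOrb (f : R →+* S) (ν : Cardinal.{u}) : Prop :=
  ∀ A : Set R, ∃ X : Set (F2 R), #X ≤ max #A ν ∧ ∀ θ : F2 R, ∃ θ' ∈ X, ∃ σ : S ≃+* S,
    (∀ r ∈ A, σ (f r) = f r) ∧ (θ.map f).map σ = θ'.map f

def ent (Φ : Set (PPCond R)) : Set R := ⋃ φ ∈ Φ, Set.range fun p : _ × _ => φ.H p.1 p.2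

theorem mk_ent_le (Φ : Set (PPCond R)) : #(ent Φ) ≤ max #Φ ℵ₀ := by
  refine (Cardinal.mk_biUnion_le _ _).trans ?_
  refine (mul_le_mul (le_max_left #Φ ℵ₀) ((ciSup_le' fun φ =>
    Cardinal.le_aleph0_iff_set_countable.2 (Set.countable_range _)).trans (le_max_right #Φ ℵ₀))
    zero_le zero_le).trans ?_
  rw [Cardinal.mul_eq_self (le_max_right _ _)]

theorem ent_fix {f : R →+* S} {Φ : Set (PPCond R)} {σ : S ≃+* S}
    (h : ∀ r ∈ ent Φ, σ (f r) = f r) {φ : PPCond R} (hφ : φ ∈ Φ) :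
    (φ.map f).map σ = φ.map f := by
  have : ∀ i j, σ (f (φ.H i j)) = f (φ.H i j) := fun i j =>
    h _ (Set.mem_biUnion hφ ⟨(i, j), rfl⟩)
  cases φ
  simp only [PPCond.map, PPCond.mk.injEq, heq_eq_eq, true_and]
  exact funext fun i => funext fun j => this i j

theorem fam_transport {f : R →+* S} {P : Set (PPCond R × PPCond R)}
    {le : PPCond S → PPCond S → Prop} (H : Defble le) (hI : InvP f P le) {σ : S ≃+* S}
    (hσ : Fixes f P σ) {φ0 ψ0 δ δ' : PPCond R} {Γ : Set (PPCond R)}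
    (h1 : ∀ φ ∈ insert ψ0 (insert φ0 Γ), (φ.map f).map σ = φ.map f)
    (h2 : PLe (δ.map f) ((δ'.map f).map σ)) (h3 : pull f le ψ0 δ')
    (h : insert δ Γ ∈ Fam (pull f le) φ0 ψ0) : insert δ' Γ ∈ Fam (pull f le) φ0 ψ0 := by
  refine ⟨?_, ?_⟩
  · by_contra hc
    rw [Set.insert_comm] at hc
    obtain ⟨l, hl, _, rfl, hle⟩ := not_cons_insert (H.pull f) hc
    have k := hI σ hσ _ _ hle
    rw [h1 _ (Set.mem_insert _ _)] at k
    refine h.1 (δ :: l) (fun φ hφ => ?_) _ rfl (H.trans (H.of_le fun M _ _ x hx => ?_) k)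
    · rw [Set.insert_comm]
      rcases List.mem_cons.1 hφ with rfl | hφ
      · exact Set.mem_insert _ _
      · exact Set.mem_insert_of_mem _ (hl φ hφ)
    · rw [res_lmeet] at hx
      rw [mem_map, res_inf, res_lmeet]
      refine ⟨fun φ hφ => (mem_map σ _ M x).1 ?_, (mem_map σ _ M x).1
        (h2 M (hx δ List.mem_cons_self))⟩
      rw [h1 φ (Set.mem_insert_of_mem _ (hl φ hφ))]
      exact hx φ (List.mem_cons_of_mem _ hφ)
  · rintro φ (rfl | hφ)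
    · exact h3
    · exact h.2 φ (Set.mem_insert_of_mem _ hφ)

theorem isoCond_pull {f : R →+* S} {P : Set (PPCond R × PPCond R)} (hP : P.Countable)
    {le : PPCond S → PPCond S → Prop} (H : Defble le) (hI : InvP f P le) {ν : Cardinal.{u}}
    (hν : ν < 𝔠) (hO : FewOrb f ν) : IsoCond (pull f le) := by
  have H' := H.pull f
  refine isoCond_of_count H' fun φ0 ψ0 N hN hu hn χ _ => ?_
  have hF := fam_finChar (pull f le) φ0 ψ0
  have h0 := fam_empty H' hn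
  obtain ⟨_, ⟨Γ, ⟨hΓ, hΓu⟩, rfl⟩, hmin⟩ := (wellFounded_lt (α := Cardinal.{u})).has_min
    ((fun Γ : Set (PPCond R) => #Γ) '' {Γ | Γ ∈ Fam (pull f le) φ0 ψ0 ∧ ∀ m m',
      Maximal (· ∈ Fam (pull f le) φ0 ψ0) m → Maximal (· ∈ Fam (pull f le) φ0 ψ0) m' →
      Γ ⊆ m → Γ ⊆ m' → m = m'}) (by
    obtain ⟨m, -, hm⟩ := hF.exists_maximal h0
    exact ⟨_, m, ⟨hm.1, fun m1 m2 k1 k2 k3 k4 => (le_antisymm (hm.2 k1.1 k3) k3).trans
      (le_antisymm k4 (hm.2 k2.1 k4))⟩, rfl⟩)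
  obtain ⟨m0, hm0Γ, hm0⟩ := hF.exists_maximal hΓ
  obtain ⟨a0, ha0, hb0, -⟩ := fam_realize H' hN hu hm0
  have hlk : ∀ θ δ, pull f le ψ0 (lk θ δ ψ0) := fun θ δ => H'.of_le (le_sup_right' _ _)
  have hm0' : ∀ θ δ, a0 ∈ (lk θ δ ψ0).eval N.carrier ↔
      insert (lk θ δ ψ0) Γ ∈ Fam (pull f le) φ0 ψ0 := by
    intro θ δ
    constructor
    · intro h
      exact (hF _).2 fun y hy hyf => (hF _).1 hm0.1 y
        (hy.trans (Set.insert_subset ((hb0 _).2 ⟨hlk _ _, h⟩) hm0Γ)) hyf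
    · intro h
      obtain ⟨m, k1, k2⟩ := hF.exists_maximal h
      rw [hΓu _ _ k2 hm0 ((Set.subset_insert _ _).trans k1) hm0Γ] at k1
      exact ((hb0 _).1 (k1 (Set.mem_insert _ _))).2
  have key : ∀ Φ : Set (PPCond R), ∃ X : Set (F2 R), #X ≤ max (max (max #Γ #Φ) ℵ₀) ν ∧
      ∀ θ, ∃ θ' ∈ X, ∀ δ ∈ Φ,
        (a0 ∈ (lk θ δ ψ0).eval N.carrier ↔ a0 ∈ (lk θ' δ ψ0).eval N.carrier) := by
    intro Φ
    let C : Set (PPCond R) := insert ψ0 (insert φ0 (Prod.fst '' P ∪ Prod.snd '' P))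
    have hC : C.Countable := (((hP.image _).union (hP.image _)).insert _).insert _
    obtain ⟨X, h1, h2⟩ := hO (ent ((Γ ∪ Φ) ∪ C))
    refine ⟨X, h1.trans (max_le_max ((mk_ent_le _).trans (max_le ?_ (le_max_right _ _))) le_rfl),
      fun θ => ?_⟩
    · refine (Cardinal.mk_union_le _ _).trans ((Cardinal.add_le_max _ _).trans
        (max_le (max_le ?_ ?_) (le_max_right _ _)))
      · exact (Cardinal.mk_union_le _ _).trans (Cardinal.add_le_max _ _)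
      · exact (Cardinal.le_aleph0_iff_set_countable.2 hC).trans (le_max_right _ _)
    obtain ⟨θ', h3, σ, h4, h5⟩ := h2 θ
    have hσ : Fixes f P σ := fun p hp =>
      ⟨ent_fix h4 (Or.inr (Or.inr (Or.inr (Or.inl ⟨p, hp, rfl⟩)))),
        ent_fix h4 (Or.inr (Or.inr (Or.inr (Or.inr ⟨p, hp, rfl⟩))))⟩
    have h6 : ∀ φ ∈ insert ψ0 (insert φ0 Γ), (φ.map f).map σ = φ.map f := by
      rintro φ (rfl | rfl | h)
      · exact ent_fix h4 (Or.inr (Or.inl rfl))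
      · exact ent_fix h4 (Or.inr (Or.inr (Or.inl rfl)))
      · exact ent_fix h4 (Or.inl (Or.inl h))
    refine ⟨θ', h3, fun δ hδ => ?_⟩
    have h7 : ∀ (M : Type u) [AddCommGroup M] [Module S M] (x : M),
        x ∈ (((lk θ δ ψ0).map f).map σ).eval M ↔ x ∈ ((lk θ' δ ψ0).map f).eval M := by
      intro M _ _ x
      rw [mem_map, res_lk, ← mem_map, map_lk, h5, h6 _ (Set.mem_insert _ _),
        ent_fix h4 (Or.inl (Or.inr hδ)), res_lk]
    rw [hm0', hm0']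
    constructor
    · refine fam_transport H hI hσ.symm (fun φ hφ => ?_) (fun M _ _ x hx => ?_) (hlk _ _)
      · rw [← h6 φ hφ, map_symm_map, h6 φ hφ]
      · rw [mem_map, ← h7, ← mem_map, map_symm_map]
        exact hx
    · exact fam_transport H hI hσ h6 (fun M _ _ x hx => (h7 M x).2 hx) (hlk _ _)
  by_cases hc : #Γ < 𝔠
  · obtain ⟨X, h1, h2⟩ := key (Set.range χ)
    refine ⟨a0, ha0, X, lt_of_le_of_lt h1 (max_lt (max_lt (max_lt hc ?_)
      Cardinal.aleph0_lt_continuum) hν), fun θ => ?_⟩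
    · exact lt_of_le_of_lt (Cardinal.le_aleph0_iff_set_countable.2 (Set.countable_range _))
        Cardinal.aleph0_lt_continuum
    · obtain ⟨θ', k1, k2⟩ := h2 θ
      exact ⟨θ', k1, fun s => k2 _ ⟨s, rfl⟩⟩
  · exfalso
    have hc' := not_lt.1 hc
    obtain ⟨Φ, h1, h2⟩ := tree_two hF h0 (Cardinal.aleph0_lt_continuum.trans_le hc') (by
      intro Γ' k1 k2
      by_contra k3
      push Not at k3
      exact hmin _ ⟨Γ', ⟨k1, k3⟩, rfl⟩ k2)
    obtain ⟨X, h3, h4⟩ := key Φ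
    have h5 : #X ≤ #Γ := h3.trans (max_le (max_le (max_le le_rfl h1)
      (Cardinal.aleph0_le_continuum.trans hc')) (hν.le.trans hc'))
    refine absurd h2 (not_lt.2 (le_trans (Cardinal.mk_le_mk_of_subset (t := (fun θ : F2 R =>
      {δ ∈ Φ | pull f le ψ0 δ ∧ a0 ∈ (lk θ δ ψ0).eval N.carrier}) '' X) ?_)
      (Cardinal.mk_image_le.trans h5)))
    rintro _ ⟨m, hm, rfl⟩
    obtain ⟨a, -, k1, k2⟩ := fam_realize H' hN hu hm
    obtain ⟨θ, hθ⟩ := k2 a0 ha0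
    obtain ⟨θ', k3, k4⟩ := h4 θ
    refine ⟨θ', k3, Set.ext fun δ => ?_⟩
    simp only [Set.mem_ofPred_eq, Set.mem_inter_iff, k1]
    exact ⟨fun h => ⟨⟨h.2.1, (hθ δ h.2.1).2 ((k4 δ h.1).2 h.2.2)⟩, h.1⟩,
      fun h => ⟨h.2, h.1.1, (k4 δ h.2).1 ((hθ δ h.1.1).1 h.1.2)⟩⟩

theorem hasCBRank_top_of_ext (f : R →+* S) (hf : ∀ φ ψ, PLe (φ.map f) (ψ.map f) → PLe φ ψ)
    (hsep : ∀ θ : F2 S, ∃ X, SupF X θ ∧ SepData f X) {ν : Cardinal.{u}} (hν : ν < 𝔠)
    (hO : FewOrb f ν) (h : ∀ o : Ordinal.{u + 1}, ¬ rel PLe o (ptop R) (pbot R)) :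
    HasCBRank (Zg R) ⊤ := by
  obtain ⟨P, h1, h2, h3, h4⟩ := exists_fan (defble_all.{u, u + 1} (R := R)) noMin_all
    (fun ⟨o, k⟩ => h o k)
  obtain ⟨le, H, hI, k1, k2⟩ := exists_inv_le f P h3 (fun p hp k => h4 p hp (hf _ _ k)) hsep
  exact hasCBRank_top (H.pull f) (isoCond_pull h1 H hI hν hO) k2 (k1 _ h2)

end Pool.Agent.Lib.MP_1e63be_al
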