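import Mathlib

set_option autoImplicit false

universe u v

namespace Pool.Agent.Lib.MP_1e63be_al

/-- A pp condition in one free variable for left `S`-modules: `n` bound variables, `m` equations,
and a matrix `H` with `n + 1` rows (row `0` belongs to the free variable) and `m` columns. -/
structure PPCond (S : Type u) where
  n : ℕ
  m : ℕ
  H : Fin (n + 1) → Fin m → S

/-- The subset of a left `S`-module `M` defined by a pp condition. -/
def PPCond.eval {S : Type u} [Ring S] (φ : PPCond S) (M : Type u) [AddCommGroup M]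
    [Module S M] : Set M :=
  {x | ∃ w : Fin φ.n → M, ∀ j, φ.H 0 j • x + ∑ i, φ.H i.succ j • w i = 0}

/-- A pure embedding: injective, and every finite system of linear equations with constants
from `A` that has a solution in `B` has a solution in `A`. -/
def IsPureEmb {S : Type u} [Ring S] {A B : Type u} [AddCommGroup A] [Module S A]
    [AddCommGroup B] [Module S B] (f : A →ₗ[S] B) : Prop :=
  Function.Injective f ∧
    ∀ (n m : ℕ) (C : Fin m → Fin n → S) (c : Fin m → A),
      (∃ y : Fin n → B, ∀ j, ∑ i, C j i • y i = f (c j)) →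
        ∃ y : Fin n → A, ∀ j, ∑ i, C j i • y i = c j

/-- Pure-injective: injective over pure embeddings. -/
def IsPureInj (S : Type u) [Ring S] (N : Type u) [AddCommGroup N] [Module S N] : Prop :=
  ∀ (A B : Type u) [AddCommGroup A] [Module S A] [AddCommGroup B] [Module S B]
    (f : A →ₗ[S] B), IsPureEmb f → ∀ g : A →ₗ[S] N, ∃ h : B →ₗ[S] N, h ∘ₗ f = g

/-- Indecomposable: nonzero and not the direct sum of two nonzero submodules. -/
def IsIndec (S : Type u) [Ring S] (N : Type u) [AddCommGroup N] [Module S N] : Prop :=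
  Nontrivial N ∧ ∀ A B : Submodule S N, IsCompl A B → A = ⊥ ∨ B = ⊥

/-- An indecomposable pure-injective left `S`-module. -/
structure ZgMod (S : Type u) [Ring S] where
  carrier : ModuleCat.{u} S
  indec : IsIndec S carrier
  pinj : IsPureInj S carrier

/-- Isomorphism of modules as an equivalence relation. -/
def zgSetoid (S : Type u) [Ring S] : Setoid (ZgMod S) where
  r M N := Nonempty (M.carrier ≃ₗ[S] N.carrier)
  iseqv := ⟨fun _ => ⟨LinearEquiv.refl _ _⟩, fun ⟨e⟩ => ⟨e.symm⟩, fun ⟨e⟩ ⟨f⟩ => ⟨e.trans f⟩⟩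

/-- The Ziegler spectrum of left `S`-modules: isomorphism classes of indecomposable
pure-injective left `S`-modules. -/
def Zg (S : Type u) [Ring S] : Type (u + 1) := Quotient (zgSetoid S)

/-- The basic open set of the pair `φ / ψ`. -/
def basicOpen {S : Type u} [Ring S] (φ ψ : PPCond S) : Set (Zg S) :=
  {x | ∃ N : ZgMod S, Quotient.mk (zgSetoid S) N = x ∧
    ¬ φ.eval N.carrier ⊆ ψ.eval N.carrier}

/-- The Ziegler topology. -/
instance zgTop (S : Type u) [Ring S] : TopologicalSpace (Zg S) :=
  TopologicalSpace.generateFrom {U | ∃ φ ψ : PPCond S, U = basicOpen φ ψ}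

/-- `HasCBRank T ρ`: the Cantor-Bendixson rank of the space `T` is `ρ` (an ordinal, or `⊤`
for infinity). -/
def HasCBRank (T : Type v) [TopologicalSpace T] (ρ : WithTop Ordinal.{v}) : Prop :=
  (ρ = ⊤ ∧ (⋂ a : Ordinal.{v}, CantorBendixson.iteratedDerivedSet (Set.univ : Set T) a).Nonempty)
  ∨ ∃ a : Ordinal.{v}, ρ = (a : WithTop Ordinal.{v}) ∧
      CantorBendixson.iteratedDerivedSet (Set.univ : Set T) (a + 1) = ∅ ∧
      (CantorBendixson.iteratedDerivedSet (Set.univ : Set T) a).Nonempty

end Pool.Agent.Lib.MP_1e63be_al
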