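import Mathlib

/-! Finite first moment lemma: a random subspace adapted to a chain is generic over finitely many
test subspaces. -/

namespace Pool.Agent.Lib.MP_1e63be_al.FL90

open Module

abbrev F := ZMod 2

variable {V : Type} [AddCommGroup V] [Module F V]

/-- The map `v ↦ c ⊗ v`. -/
def tens {μ : Type} (c : μ → F) : V →ₗ[F] (μ → V) := LinearMap.pi fun k => c k • LinearMap.id

@[simp] lemma tens_apply {μ : Type} (c : μ → F) (v : V) (k : μ) : tens c v k = c k • v := rfl

/-- The chain at a level, zero at level infinity. -/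
def lvl (H : ℕ → Submodule F V) (a : ℕ∞) : Submodule F V := ENat.recTopCoe ⊥ H a

@[simp] lemma lvl_top (H : ℕ → Submodule F V) : lvl H ⊤ = ⊥ := rfl

@[simp] lemma lvl_coe (H : ℕ → Submodule F V) (n : ℕ) : lvl H n = H n := rfl

/-- The subspace of a type. -/
def HT {μ : Type} (H : ℕ → Submodule F V) (l : (μ → F) → ℕ∞) : Submodule F (μ → V) :=
  ⨆ c, (lvl H (l c)).map (tens c)

/-- The power of a subspace. -/
def pw (μ : Type) (G : Submodule F V) : Submodule F (μ → V) := Submodule.pi Set.univ fun _ => G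

lemma lvl_anti {H : ℕ → Submodule F V} (hH : Antitone H) : Antitone (lvl H) := by
  intro a b hab
  induction b using ENat.recTopCoe with
  | top => simp
  | coe b =>
    induction a using ENat.recTopCoe with
    | top => simp at hab
    | coe a => exact hH (by exact_mod_cast hab)

section Rank

variable {A B : Type} [AddCommGroup A] [Module F A] [AddCommGroup B] [Module F B]

lemma rk_map [Module.Finite F A] (f : A →ₗ[F] B) (Z : Submodule F A) :
    finrank F (Z.map f) + finrank F (Z ⊓ LinearMap.ker f : Submodule F A) = finrank F Z := by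
  have h := LinearMap.finrank_range_add_finrank_ker (f.domRestrict Z)
  rw [LinearMap.range_domRestrict, LinearMap.ker_domRestrict] at h
  rw [← h, ← Submodule.finrank_map_subtype_eq Z, Submodule.map_comap_subtype]

lemma rk_comap [Module.Finite F A] (f : A →ₗ[F] B) (Z : Submodule F A) (Y : Submodule F B) :
    finrank F (Z ⊓ Y.comap f : Submodule F A) + finrank F (Z.map f) =
      finrank F Z + finrank F (Y ⊓ Z.map f : Submodule F B) := by
  have h1 := rk_map f Z
  have h2 := rk_map f (Z ⊓ Y.comap f)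
  have e1 : (Z ⊓ Y.comap f).map f = Y ⊓ Z.map f := by
    rw [Submodule.map_inf_eq_map_inf_comap.symm, inf_comm]
  have e2 : Z ⊓ Y.comap f ⊓ LinearMap.ker f = Z ⊓ LinearMap.ker f := by
    rw [inf_assoc, inf_eq_right.2 (LinearMap.ker_le_comap f)]
  rw [e1, e2] at h2
  omega

lemma rk_sup_map [Module.Finite F A] [Module.Finite F B] (f : A →ₗ[F] B) {K K' : Submodule F A}
    (hK : K' ≤ K) {P : Submodule F B} (hP : K'.map f ≤ P) :
    finrank F (K.map f ⊔ P : Submodule F B) + finrank F K' ≤ finrank F P + finrank F K := by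
  have h1 := rk_map f K
  have h2 := rk_map f K'
  have h3 := Submodule.finrank_sup_add_finrank_inf_eq (K.map f) P
  have h4 : finrank F (K'.map f) ≤ finrank F (K.map f ⊓ P : Submodule F B) :=
    Submodule.finrank_mono (le_inf (Submodule.map_mono hK) hP)
  have h5 : finrank F (K' ⊓ LinearMap.ker f : Submodule F A) ≤
      finrank F (K ⊓ LinearMap.ker f : Submodule F A) :=
    Submodule.finrank_mono (inf_le_inf_right _ hK)
  omega

lemma card_filter [Fintype A] (P : Submodule F A) [DecidablePred (· ∈ P)] :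
    (Finset.univ.filter (· ∈ P)).card = 2 ^ finrank F P := by
  have h : Nat.card P = Nat.card F ^ finrank F P := Module.natCard_eq_pow_finrank
  rw [Nat.card_zmod] at h
  rw [← h, Nat.card_eq_fintype_card, Fintype.card_subtype]

end Rank

section Ev

variable {β μ : Type} [Fintype β]

/-- Evaluation, linear in the coefficients. -/
def evU (ζ : β → V) : (β → μ → F) →ₗ[F] (μ → V) where
  toFun u := ∑ b, tens (u b) (ζ b)
  map_add' u u' := by
    ext k
    simp [Finset.sum_apply, add_smul, Finset.sum_add_distrib]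
  map_smul' a u := by
    ext k
    simp [Finset.sum_apply, Finset.smul_sum, mul_smul]

/-- Evaluation, linear in the vectors. -/
def evZ (u : β → μ → F) : (β → V) →ₗ[F] (μ → V) :=
  ∑ b, (tens (u b)).comp (LinearMap.proj b)

lemma evU_apply (ζ : β → V) (u : β → μ → F) : evU ζ u = ∑ b, tens (u b) (ζ b) := rfl

lemma evZ_apply (u : β → μ → F) (ζ : β → V) : evZ u ζ = evU ζ u := by
  simp [evZ, evU_apply, LinearMap.sum_apply]

lemma range_evU (ζ : β → V) :
    LinearMap.range (evU (μ := μ) ζ) = pw μ (Submodule.span F (Set.range ζ)) := by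
  apply le_antisymm
  · rintro _ ⟨u, rfl⟩ k _
    simp only [evU_apply, Finset.sum_apply, tens_apply]
    exact Submodule.sum_mem _ fun b _ =>
      Submodule.smul_mem _ _ (Submodule.subset_span ⟨b, rfl⟩)
  · intro x hx
    have : ∀ k, ∃ a : β → F, ∑ b, a b • ζ b = x k := fun k =>
      (Submodule.mem_span_range_iff_exists_fun F).1 (hx k trivial)
    choose a ha using this
    refine ⟨fun b k => a k b, ?_⟩
    ext k
    simp [evU_apply, Finset.sum_apply, ha]

open Classical in
/-- The type of a coefficient family. -/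
noncomputable def lu (lev : β → ℕ) (u : β → μ → F) (c : μ → F) : ℕ∞ :=
  (Finset.univ.filter fun b => u b = c).inf fun b => (lev b : ℕ∞)

/-- The coefficient families allowed by a type. -/
def UL (lev : β → ℕ) (l : (μ → F) → ℕ∞) : Submodule F (β → μ → F) :=
  Submodule.pi Set.univ fun b => Submodule.span F {c | l c ≤ lev b}

lemma lu_le (lev : β → ℕ) (u : β → μ → F) (b : β) : lu lev u (u b) ≤ lev b := by
  classical
  unfold lu
  exact Finset.inf_le (f := fun b => (lev b : ℕ∞)) (by simp)

lemma lu_cases (lev : β → ℕ) (u : β → μ → F) (c : μ → F) :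
    lu lev u c = ⊤ ∨ ∃ b, u b = c ∧ lu lev u c = lev b := by
  classical
  unfold lu
  rcases (Finset.univ.filter fun b => u b = c).eq_empty_or_nonempty with h | h
  · left
    convert (rfl : (⊤ : ℕ∞) = ⊤)
    convert Finset.inf_empty
  · right
    obtain ⟨b, hb, he⟩ := Finset.exists_mem_eq_inf _ h fun b => (lev b : ℕ∞)
    refine ⟨b, by simpa using hb, ?_⟩
    convert he

lemma mem_UL_lu (lev : β → ℕ) (u : β → μ → F) : u ∈ UL lev (lu lev u) := fun b _ =>
  Submodule.subset_span (lu_le lev u b)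

lemma tens_mem_HT {H : ℕ → Submodule F V} (hH : Antitone H) (l : (μ → F) → ℕ∞) {n : ℕ} {v : V}
    (hv : v ∈ H n) {c : μ → F} (hc : c ∈ Submodule.span F {c | l c ≤ n}) :
    tens c v ∈ HT H l := by
  induction hc using Submodule.span_induction with
  | mem c hc =>
    exact (le_iSup (fun c => (lvl H (l c)).map (tens c)) c)
      ⟨v, lvl_anti hH (show l c ≤ n from hc) hv, rfl⟩
  | zero =>
    have : tens (0 : μ → F) v = 0 := by ext k; simp
    rw [this]; exact Submodule.zero_mem _
  | add c d _ _ h1 h2 =>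
    have : tens (c + d) v = tens c v + tens d v := by ext k; simp [add_smul]
    rw [this]; exact Submodule.add_mem _ h1 h2
  | smul a c _ h =>
    have : tens (a • c) v = a • tens c v := by ext k; simp [mul_smul]
    rw [this]; exact Submodule.smul_mem _ _ h

lemma map_UL_le {H : ℕ → Submodule F V} (hH : Antitone H) (lev : β → ℕ) {ζ : β → V}
    (hζ : ∀ b, ζ b ∈ H (lev b)) (l : (μ → F) → ℕ∞) : (UL lev l).map (evU ζ) ≤ HT H l := by
  rintro _ ⟨u, hu, rfl⟩
  rw [evU_apply]
  exact Submodule.sum_mem _ fun b _ => tens_mem_HT hH l (hζ b) (hu b trivial)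

lemma map_evZ {H : ℕ → Submodule F V} (hH : Antitone H) (lev : β → ℕ) (u : β → μ → F) :
    (Submodule.pi Set.univ fun b => H (lev b)).map (evZ u) = HT H (lu lev u) := by
  classical
  apply le_antisymm
  · rintro _ ⟨ζ, hζ, rfl⟩
    rw [evZ_apply]
    exact map_UL_le hH lev (fun b => hζ b trivial) _ ⟨u, mem_UL_lu lev u, rfl⟩
  · refine iSup_le fun c => ?_
    rcases lu_cases lev u c with h | ⟨b, hb, h⟩
    · rw [h]; simp
    · rw [h]
      rintro _ ⟨v, hv, rfl⟩
      refine ⟨Pi.single b v, fun b' _ => ?_, ?_⟩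
      · by_cases hb' : b' = b
        · subst hb'; simpa using hv
        · simp [Pi.single_eq_of_ne hb']
      · rw [evZ_apply, evU_apply, Finset.sum_eq_single b]
        · simp [hb]
        · intro b' _ hb'
          simp [Pi.single_eq_of_ne hb']
        · simp

end Ev

section Core

variable {β : Type} [Fintype β]

open Classical in
/-- The finite set of values of types. -/
noncomputable def vals (N : ℕ) : Finset ℕ∞ := insert ⊤ ((Finset.range (N + 1)).image Nat.cast)

lemma card_vals (N : ℕ) : (vals N).card ≤ N + 2 := by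
  classical
  unfold vals
  refine (Finset.card_insert_le _ _).trans ?_
  have := Finset.card_image_le (s := Finset.range (N + 1)) (f := (Nat.cast : ℕ → ℕ∞))
  rw [Finset.card_range] at this
  convert Nat.succ_le_succ this using 2

lemma lu_mem_vals {μ : Type} {lev : β → ℕ} {N : ℕ} (hlev : ∀ b, lev b ≤ N) (u : β → μ → F)
    (c : μ → F) : lu lev u c ∈ vals N := by
  classical
  unfold vals
  rcases lu_cases lev u c with h | ⟨b, -, h⟩
  · simp [h]
  · rw [h]
    simp only [Finset.mem_insert, Finset.mem_image, Finset.mem_range]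
    exact Or.inr ⟨lev b, Nat.lt_succ_of_le (hlev b), rfl⟩

lemma mem_vals {N : ℕ} {a : ℕ∞} (h : a ∈ vals N) : a = ⊤ ∨ ∃ k ≤ N, a = (k : ℕ) := by
  classical
  unfold vals at h
  simp only [Finset.mem_insert, Finset.mem_image, Finset.mem_range] at h
  rcases h with h | ⟨k, hk, rfl⟩
  · exact Or.inl h
  · exact Or.inr ⟨k, Nat.lt_succ_iff.1 hk, rfl⟩

/-- First moment for one test. -/
lemma moment [Finite V] {H : ℕ → Submodule F V} (hH : Antitone H) {lev : β → ℕ} {N : ℕ}
    (hlev : ∀ b, lev b ≤ N) {m : ℕ} (Y : Submodule F (Fin m → V)) (Z : Finset (β → V))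
    (hZ : ∀ ζ, ζ ∈ Z ↔ ∀ b, ζ b ∈ H (lev b)) :
    ∃ l : (Fin m → F) → ℕ∞, (∀ c, l c ∈ vals N) ∧
      (∑ ζ ∈ Z, (2 : ℝ) ^ finrank F (Y.comap (evU ζ))) * 2 ^ finrank F (HT H l) ≤
        Z.card * ((N + 2) ^ 2 ^ m : ℕ) *
          (2 ^ finrank F (UL lev l) * 2 ^ finrank F (Y ⊓ HT H l : Submodule F _)) := by
  classical
  have := Fintype.ofFinite V
  set Ty : Finset ((Fin m → F) → ℕ∞) := Fintype.piFinset fun _ => vals N with hTy
  have hTyc : Ty.card ≤ (N + 2) ^ 2 ^ m := by
    rw [hTy, Fintype.card_piFinset, Finset.prod_const, Finset.card_univ, Fintype.card_fun,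
      ZMod.card, Fintype.card_fin]
    exact Nat.pow_le_pow_left (card_vals N) _
  have hne : Ty.Nonempty := ⟨fun _ => ⊤, Fintype.mem_piFinset.2 fun _ => by simp [vals]⟩
  set g : ((Fin m → F) → ℕ∞) → ℝ := fun l =>
    2 ^ finrank F (Y ⊓ HT H l : Submodule F _) / 2 ^ finrank F (HT H l) with hg
  have hg0 : ∀ l, 0 ≤ g l := fun l => by positivity
  obtain ⟨l, hl, hmax⟩ := Finset.exists_max_image Ty (fun l => 2 ^ finrank F (UL lev l) * g l) hne
  refine ⟨l, Fintype.mem_piFinset.1 hl, ?_⟩
  set P : Submodule F (β → V) := Submodule.pi Set.univ fun b => H (lev b) with hP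
  have hZP : Z = Finset.univ.filter (· ∈ P) := by
    ext ζ
    simp [hZ, hP, Submodule.mem_pi]
  have hZc : (Z.card : ℝ) = 2 ^ finrank F P := by
    rw [hZP, card_filter]; push_cast; rfl
  have h1 : ∀ u : β → Fin m → F,
      ((Z.filter fun ζ => evU ζ u ∈ Y).card : ℝ) = Z.card * g (lu lev u) := by
    intro u
    have e : (Z.filter fun ζ => evU ζ u ∈ Y) =
        Finset.univ.filter (· ∈ P ⊓ Y.comap (evZ u)) := by
      ext ζ
      simp [hZP, evZ_apply]
    have h := rk_comap (evZ u) P Y
    rw [hP, map_evZ hH, ← hP] at h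
    rw [e, card_filter, hZc, hg]
    push_cast
    field_simp
    rw [← pow_add, ← pow_add, h]
  have h2 : (∑ ζ ∈ Z, (2 : ℝ) ^ finrank F (Y.comap (evU ζ))) =
      ∑ u : β → Fin m → F, Z.card * g (lu lev u) := by
    simp only [← h1, Finset.card_filter]
    push_cast
    rw [Finset.sum_comm]
    refine Finset.sum_congr rfl fun ζ _ => ?_
    have := card_filter (Y.comap (evU ζ))
    rw [Finset.card_filter] at this
    have h' := congrArg (Nat.cast : ℕ → ℝ) this
    push_cast at h'
    rw [← h']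
    simp [Submodule.mem_comap]
  have h3 : ∑ u : β → Fin m → F, g (lu lev u) ≤ Ty.card * (2 ^ finrank F (UL lev l) * g l) := by
    rw [← Finset.sum_fiberwise_of_maps_to (s := Finset.univ) (t := Ty) (g := lu lev)
      (fun u _ => Fintype.mem_piFinset.2 fun c => lu_mem_vals hlev u c)]
    rw [← nsmul_eq_mul]
    refine Finset.sum_le_card_nsmul _ _ _ fun l' hl' => ?_
    refine le_trans ?_ (hmax l' hl')
    rw [Finset.sum_congr rfl (g := fun _ => g l')
      (fun u hu => by rw [(Finset.mem_filter.1 hu).2]), Finset.sum_const, nsmul_eq_mul]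
    refine mul_le_mul_of_nonneg_right ?_ (hg0 l')
    have : (Finset.univ.filter fun u : β → Fin m → F => lu lev u = l').card ≤
        (Finset.univ.filter (· ∈ UL lev l')).card :=
      Finset.card_le_card fun u hu => by
        rw [← (Finset.mem_filter.1 hu).2]
        simpa using mem_UL_lu lev u
    rw [card_filter] at this
    exact_mod_cast this
  rw [h2, ← Finset.mul_sum]
  have h4 : (Ty.card : ℝ) ≤ ((N + 2) ^ 2 ^ m : ℕ) := by exact_mod_cast hTyc
  have h5 : g l * 2 ^ finrank F (HT H l) = 2 ^ finrank F (Y ⊓ HT H l : Submodule F _) := by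
    rw [hg]; field_simp
  calc (Z.card : ℝ) * (∑ u : β → Fin m → F, g (lu lev u)) * 2 ^ finrank F (HT H l)
      ≤ Z.card * (((N + 2) ^ 2 ^ m : ℕ) * (2 ^ finrank F (UL lev l) * g l)) *
          2 ^ finrank F (HT H l) := by
        have := hg0 l
        gcongr
        exact h3.trans (by gcongr)
    _ = _ := by rw [← h5]; ring

/-- Simultaneous choice for finitely many tests. -/
theorem core [Finite V] {H : ℕ → Submodule F V} (hH : Antitone H) {lev : β → ℕ} {N : ℕ}
    (hlev : ∀ b, lev b ≤ N) {T : Type} [Fintype T] (μ : T → ℕ)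
    (Y : ∀ t, Submodule F (Fin (μ t) → V)) (e : ℕ)
    (he : ∀ t, Fintype.card T * (N + 2) ^ 2 ^ μ t ≤ 2 ^ e) :
    ∃ ζ : β → V, (∀ b, ζ b ∈ H (lev b)) ∧ ∀ t, ∃ l : (Fin (μ t) → F) → ℕ∞,
      (∀ c, l c ∈ vals N) ∧
      finrank F ((Y t).comap (evU ζ)) + finrank F (HT H l) ≤
        finrank F (UL lev l) + finrank F (Y t ⊓ HT H l : Submodule F _) + e := by
  classical
  have := Fintype.ofFinite V
  set Z : Finset (β → V) := Finset.univ.filter fun ζ => ∀ b, ζ b ∈ H (lev b) with hZdef
  have hZ : ∀ ζ, ζ ∈ Z ↔ ∀ b, ζ b ∈ H (lev b) := fun ζ => by simp [hZdef]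
  have hne : Z.Nonempty := ⟨0, (hZ 0).2 fun b => Submodule.zero_mem _⟩
  choose l hl hm using fun t => moment hH hlev (Y t) Z hZ
  set M : T → ℝ := fun t => ((N + 2) ^ 2 ^ μ t : ℕ) *
    (2 ^ finrank F (UL lev (l t)) * 2 ^ finrank F (Y t ⊓ HT H (l t) : Submodule F _)) /
      2 ^ finrank F (HT H (l t)) with hM
  have hM0 : ∀ t, 0 < M t := fun t => by positivity
  have h1 : ∑ ζ ∈ Z, ∑ t, (2 : ℝ) ^ finrank F ((Y t).comap (evU ζ)) / M t ≤
      ∑ _ζ ∈ Z, (Fintype.card T : ℝ) := by
    rw [Finset.sum_comm, Finset.sum_const, nsmul_eq_mul]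
    calc ∑ t, ∑ ζ ∈ Z, (2 : ℝ) ^ finrank F ((Y t).comap (evU ζ)) / M t
        ≤ ∑ _t : T, (Z.card : ℝ) := by
          refine Finset.sum_le_sum fun t _ => ?_
          rw [← Finset.sum_div, div_le_iff₀ (hM0 t), hM]
          simp only
          rw [← mul_div_assoc, le_div_iff₀ (by positivity), ← mul_assoc]
          exact hm t
      _ = _ := by rw [Finset.sum_const, nsmul_eq_mul, Finset.card_univ, mul_comm]
  obtain ⟨ζ, hζ, h2⟩ := Finset.exists_le_of_sum_le hne h1
  refine ⟨ζ, (hZ ζ).1 hζ, fun t => ⟨l t, hl t, ?_⟩⟩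
  have h3 : (2 : ℝ) ^ finrank F ((Y t).comap (evU ζ)) / M t ≤ Fintype.card T :=
    le_trans (Finset.single_le_sum
      (f := fun t => (2 : ℝ) ^ finrank F ((Y t).comap (evU ζ)) / M t)
      (fun t _ => by have := hM0 t; positivity) (Finset.mem_univ t)) h2
  rw [div_le_iff₀ (hM0 t), hM] at h3
  simp only at h3
  rw [← mul_div_assoc, le_div_iff₀ (by positivity), ← mul_assoc] at h3
  have h4 : ((Fintype.card T : ℝ) * ((N + 2) ^ 2 ^ μ t : ℕ)) ≤ 2 ^ e := by exact_mod_cast he t
  have h5 := h3.trans (mul_le_mul_of_nonneg_right h4 (by positivity))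
  rw [← pow_add, ← pow_add, ← pow_add] at h5
  have := (pow_le_pow_iff_right₀ (by norm_num : (1 : ℝ) < 2)).1 h5
  omega

lemma cover_full [Finite V] {H : ℕ → Submodule F V} (hH : Antitone H) {lev : β → ℕ} {ζ : β → V}
    (hζ : ∀ b, ζ b ∈ H (lev b)) {m : ℕ} (Y : Submodule F (Fin m → V))
    (l : (Fin m → F) → ℕ∞) {e : ℕ}
    (h : finrank F (Y.comap (evU ζ)) + finrank F (HT H l) ≤
        finrank F (UL lev l) + finrank F (Y ⊓ HT H l : Submodule F _) + e) :
    finrank F (Y ⊓ pw (Fin m) (Submodule.span F (Set.range ζ)) ⊔ HT H l : Submodule F _) ≤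
        finrank F (HT H l) + e ∧
      finrank F (HT H l) ≤ finrank F (Y ⊓ HT H l ⊔
        pw (Fin m) (Submodule.span F (Set.range ζ)) ⊓ HT H l : Submodule F _) + e := by
  have hU := map_UL_le hH lev hζ l
  have h1 := rk_comap (evU ζ) (UL lev l) Y
  have h2 := Submodule.finrank_sup_add_finrank_inf_eq (Y ⊓ HT H l) ((UL lev l).map (evU ζ))
  rw [inf_assoc, inf_eq_right.2 hU] at h2
  have h3 : finrank F (UL lev l ⊓ Y.comap (evU ζ) : Submodule F _) ≤
      finrank F (Y.comap (evU ζ)) := Submodule.finrank_mono inf_le_right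
  have h4 : finrank F (Y ⊓ HT H l ⊔ (UL lev l).map (evU ζ) : Submodule F _) ≤
      finrank F (HT H l) := Submodule.finrank_mono (sup_le inf_le_right hU)
  have h5 : finrank F (Y ⊓ HT H l ⊔ (UL lev l).map (evU ζ) : Submodule F _) ≤
      finrank F (Y ⊓ HT H l ⊔
        pw (Fin m) (Submodule.span F (Set.range ζ)) ⊓ HT H l : Submodule F _) := by
    refine Submodule.finrank_mono (sup_le_sup_left (le_inf ?_ hU) _)
    rw [← range_evU]
    exact LinearMap.map_le_range
  have h6 := rk_sup_map (evU ζ) (inf_le_right : UL lev l ⊓ Y.comap (evU ζ) ≤ _)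
    ((Submodule.map_mono inf_le_left).trans hU)
  rw [Submodule.map_comap_eq, range_evU, inf_comm _ Y] at h6
  omega

end Core

section Final

/-- The nonzero vector of the line. -/
def one : Fin 1 → F := fun _ => 1

lemma eq_zero_or_one (c : Fin 1 → F) : c = 0 ∨ c = one := by
  revert c; decide

lemma tens_one_inj : Function.Injective (tens (V := V) one) := fun v w h => by
  simpa [one] using congrFun h 0

lemma rk_tens_one (P : Submodule F V) : finrank F (P.map (tens one)) = finrank F P :=
  (LinearEquiv.finrank_eq (Submodule.equivMapOfInjective _ tens_one_inj P)).symm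

lemma HT_one (H : ℕ → Submodule F V) (l : (Fin 1 → F) → ℕ∞) :
    HT H l = (lvl H (l one)).map (tens one) := by
  refine le_antisymm (iSup_le fun c => ?_) (le_iSup (fun c => (lvl H (l c)).map (tens c)) one)
  rcases eq_zero_or_one c with rfl | rfl
  · rintro _ ⟨v, -, rfl⟩
    have : tens (0 : Fin 1 → F) v = 0 := by ext k; simp
    rw [this]; exact Submodule.zero_mem _
  · exact le_rfl

lemma pw_one (G : Submodule F V) : pw (Fin 1) G = G.map (tens one) := by
  ext x
  constructor
  · intro hx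
    refine ⟨x 0, hx 0 trivial, ?_⟩
    ext k
    simp [one, Subsingleton.elim k 0]
  · rintro ⟨v, hv, rfl⟩ k _
    simpa [one] using hv

lemma rk_UL_one {β : Type} [Fintype β] (lev : β → ℕ) (l : (Fin 1 → F) → ℕ∞) :
    finrank F (UL lev l) = (Finset.univ.filter fun b => l one ≤ lev b).card := by
  classical
  have h := card_filter (UL lev l)
  have e : Finset.univ.filter (· ∈ UL lev l) =
      Fintype.piFinset fun b => if l one ≤ lev b then Finset.univ else {0} := by
    ext u
    simp only [Finset.mem_filter, Finset.mem_univ, true_and, Fintype.mem_piFinset, UL,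
      Submodule.mem_pi, Set.mem_univ, forall_true_left]
    refine forall_congr' fun b => ?_
    split_ifs with hb
    · simp only [Finset.mem_univ, iff_true]
      rcases eq_zero_or_one (u b) with h0 | h0
      · rw [h0]; exact Submodule.zero_mem _
      · rw [h0]; exact Submodule.subset_span hb
    · have : Submodule.span F {c | l c ≤ lev b} = ⊥ := by
        rw [Submodule.span_eq_bot]
        intro c hc
        rcases eq_zero_or_one c with h0 | h0
        · exact h0
        · exact absurd (h0 ▸ hc) hb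
      simp [this]
  rw [e, Fintype.card_piFinset] at h
  have e2 : ∏ b, (if l one ≤ lev b then (Finset.univ : Finset (Fin 1 → F)) else {0}).card =
      2 ^ (Finset.univ.filter fun b => l one ≤ lev b).card := by
    rw [Finset.card_filter, ← Finset.prod_pow_eq_pow_sum]
    refine Finset.prod_congr rfl fun b _ => ?_
    split_ifs <;> simp
  rw [e2] at h
  exact (Nat.pow_right_injective le_rfl h).symm

lemma exists_lev (S : ℕ → ℕ) (hS : Antitone S) (N : ℕ) :
    ∃ lev : Fin (S 0) → ℕ, (∀ b, lev b ≤ N) ∧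
      ∀ j ≤ N, (Finset.univ.filter fun b => ((j : ℕ) : ℕ∞) ≤ lev b).card = S j := by
  classical
  refine ⟨fun b => Nat.findGreatest (fun j => (b : ℕ) < S j) N,
    fun b => Nat.findGreatest_le N, fun j hj => ?_⟩
  have e : (Finset.univ.filter fun b : Fin (S 0) =>
      ((j : ℕ) : ℕ∞) ≤ (Nat.findGreatest (fun j => (b : ℕ) < S j) N : ℕ)) =
      Finset.univ.filter fun b : Fin (S 0) => (b : ℕ) < S j := by
    ext b
    simp only [Finset.mem_filter, Finset.mem_univ, true_and, Nat.cast_le]
    constructor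
    · intro h
      have : (b : ℕ) < S (Nat.findGreatest (fun j => (b : ℕ) < S j) N) :=
        Nat.findGreatest_spec (P := fun j => (b : ℕ) < S j) (Nat.zero_le N) b.2
      exact this.trans_le (hS h)
    · intro h
      exact Nat.le_findGreatest hj h
  rw [e, Fin.card_filter_val_lt, min_eq_right (hS (Nat.zero_le j))]

/-- The finite first moment lemma. -/
theorem FL [Finite V] {H : ℕ → Submodule F V} (hH : Antitone H) (S : ℕ → ℕ) (hS : Antitone S)
    (N eps : ℕ) (hSH : ∀ j ≤ N, S j ≤ finrank F (H j))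
    (hD : ∀ k j, k ≤ j → j ≤ N → S k + finrank F (H j) ≤ S j + finrank F (H k) + eps)
    {T : Type} [Fintype T] (μ : T → ℕ) (Y : ∀ t, Submodule F (Fin (μ t) → V)) (m e : ℕ)
    (hm : ∀ t, μ t ≤ m) (hm1 : 1 ≤ m)
    (he : (Fintype.card T + N + 2) * (N + 2) ^ 2 ^ m ≤ 2 ^ e) :
    ∃ G : Submodule F V, G ≤ H 0 ∧
      (∀ j ≤ N, S j ≤ finrank F (G ⊓ H j : Submodule F V) + e ∧
        finrank F (G ⊓ H j : Submodule F V) ≤ S j + eps + e) ∧
      ∀ t, ∃ l : (Fin (μ t) → F) → ℕ∞,
        finrank F (Y t ⊓ pw (Fin (μ t)) G ⊔ HT H l : Submodule F _) ≤ finrank F (HT H l) + e ∧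
        finrank F (HT H l) ≤
          finrank F (Y t ⊓ HT H l ⊔ pw (Fin (μ t)) G ⊓ HT H l : Submodule F _) + e := by
  classical
  obtain ⟨lev, hlev, hcard⟩ := exists_lev S hS N
  let μ' : T ⊕ Option (Fin (N + 1)) → ℕ := Sum.elim μ fun _ => 1
  let Y' : ∀ t, Submodule F (Fin (μ' t) → V) := fun t => match t with
    | Sum.inl t => Y t
    | Sum.inr none => (⊥ : Submodule F (Fin 1 → V))
    | Sum.inr (some j) => (H j).map (tens one)
  obtain ⟨ζ, hζ, h⟩ := core hH hlev μ' Y' e fun t => by
    refine le_trans (Nat.mul_le_mul (le_of_eq ?_) (Nat.pow_le_pow_right (by omega)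
      (Nat.pow_le_pow_right (by norm_num) ?_))) he
    · simp [add_assoc]
    · rcases t with t | t
      · exact hm t
      · exact hm1
  set G := Submodule.span F (Set.range ζ) with hG
  have hker : finrank F (LinearMap.ker (evU (μ := Fin 1) ζ)) ≤ e := by
    obtain ⟨l, hl, h0⟩ : ∃ l : (Fin 1 → F) → ℕ∞, (∀ c, l c ∈ vals N) ∧
      finrank F ((⊥ : Submodule F (Fin 1 → V)).comap (evU ζ)) + finrank F (HT H l) ≤
      finrank F (UL lev l) + finrank F (⊥ ⊓ HT H l : Submodule F (Fin 1 → V)) + e :=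
      h (Sum.inr none)
    rw [bot_inf_eq, finrank_bot, Submodule.comap_bot, rk_UL_one, HT_one, rk_tens_one] at h0
    rcases mem_vals (hl one) with h1 | ⟨k, hk, h1⟩
    · rw [h1] at h0
      simp at h0
      omega
    · rw [h1, hcard k hk, lvl_coe] at h0
      have := hSH k hk
      omega
  refine ⟨G, Submodule.span_le.2 ?_, fun j hj => ⟨?_, ?_⟩, fun t => ?_⟩
  · rintro _ ⟨b, rfl⟩
    exact hH (Nat.zero_le _) (hζ b)
  · have h1 := rk_map (evU (μ := Fin 1) ζ) (UL lev fun _ => (j : ℕ))
    have h2 : (UL lev fun _ => (j : ℕ)).map (evU (μ := Fin 1) ζ) ≤ (G ⊓ H j).map (tens one) := by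
      rw [Submodule.map_inf _ tens_one_inj, ← pw_one, ← range_evU]
      refine le_inf LinearMap.map_le_range ?_
      have := map_UL_le (μ := Fin 1) hH lev hζ fun _ => (j : ℕ)
      rwa [HT_one] at this
    have h3 := Submodule.finrank_mono h2
    have h4 : finrank F ((UL lev fun _ => (j : ℕ)) ⊓ LinearMap.ker (evU (μ := Fin 1) ζ) :
      Submodule F _) ≤ _ := Submodule.finrank_mono inf_le_right
    rw [rk_tens_one] at h3
    rw [rk_UL_one, hcard j hj] at h1
    omega
  · obtain ⟨l, hl, h0⟩ : ∃ l : (Fin 1 → F) → ℕ∞, (∀ c, l c ∈ vals N) ∧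
      finrank F (((H j).map (tens one)).comap (evU ζ)) + finrank F (HT H l) ≤
      finrank F (UL lev l) +
        finrank F ((H j).map (tens one) ⊓ HT H l : Submodule F (Fin 1 → V)) + e :=
      h (Sum.inr (some ⟨j, Nat.lt_succ_of_le hj⟩))
    rw [rk_UL_one, HT_one, rk_tens_one, ← Submodule.map_inf _ tens_one_inj, rk_tens_one] at h0
    have h1 := rk_map (evU (μ := Fin 1) ζ) (((H j).map (tens one)).comap (evU ζ))
    rw [Submodule.map_comap_eq, range_evU, pw_one, ← Submodule.map_inf _ tens_one_inj,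
      rk_tens_one, ← hG] at h1
    rcases mem_vals (hl one) with h2 | ⟨k, hk, h2⟩
    · rw [h2, lvl_top, inf_bot_eq] at h0
      simp at h0
      omega
    · rw [h2, hcard k hk, lvl_coe] at h0
      rcases le_total k j with hkj | hkj
      · rw [inf_eq_left.2 (hH hkj)] at h0
        have := hD k j hkj hj
        omega
      · rw [inf_eq_right.2 (hH hkj)] at h0
        have := hS hkj
        omega
  · obtain ⟨l, -, h0⟩ := h (Sum.inl t)
    exact ⟨l, cover_full hH hζ (Y t) l h0⟩

end Final

end Pool.Agent.Lib.MP_1e63be_al.FL90
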