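import Pool.Agent.Lib.MP_1e63be_al.Aut

set_option autoImplicit false
set_option linter.unusedSectionVars false

universe u v w

namespace Pool.Agent.Lib.MP_1e63be_al

open Cardinal

theorem exists_aut_perm {L K : Type u} [CommRing L] [Field K] [Algebra L K] [IsAlgClosed K]
    {κ : Type u} {x : κ → K} (hx : IsTranscendenceBasis L x) (π : Equiv.Perm κ) :
    ∃ τ : K ≃+* K, (∀ l, τ (algebraMap L K l) = algebraMap L K l) ∧ ∀ i, τ (x i) = x (π i) := by
  let := IsAlgClosed.isAlgClosure_of_transcendence_basis x hx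
  let e : Algebra.adjoin L (Set.range x) ≃ₐ[L] Algebra.adjoin L (Set.range x) :=
    hx.1.aevalEquiv.symm.trans ((MvPolynomial.renameEquiv L π).trans hx.1.aevalEquiv)
  refine ⟨IsAlgClosure.equivOfEquiv K K e.toRingEquiv, fun l => ?_, fun i => ?_⟩
  · rw [IsScalarTower.algebraMap_apply L (Algebra.adjoin L (Set.range x)) K,
      IsAlgClosure.equivOfEquiv_algebraMap]
    congr 1
    exact e.commutes l
  · have h1 : ∀ i, x i = algebraMap (Algebra.adjoin L (Set.range x)) K
        (hx.1.aevalEquiv (MvPolynomial.X i)) := fun i => by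
      rw [AlgebraicIndependent.algebraMap_aevalEquiv]; simp
    rw [h1 i, IsAlgClosure.equivOfEquiv_algebraMap, h1 (π i)]
    congr 1
    change e _ = _
    simp [e]

section
variable (k : Type u) {K : Type u} [Field k] [Field K] [Algebra k K]

/-- relative algebraic closure of the field generated by a set -/
def acl (X : Set K) : Set K := {x | IsAlgebraic (Algebra.adjoin k X) x}

theorem acl_eq (X : Set K) : acl k X = (AlgebraicIndependent.matroid k K).closure X := by
  rw [AlgebraicIndependent.matroid_closure_eq]; rfl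

theorem acl_mono {X Y : Set K} (h : X ⊆ Y) : acl k X ⊆ acl k Y := by
  rw [acl_eq, acl_eq]; exact Matroid.closure_subset_closure _ h

theorem acl_fin {X : Set K} {x : K} (h : x ∈ acl k X) : ∃ I ⊆ X, I.Finite ∧ x ∈ acl k I := by
  rw [acl_eq] at h
  obtain ⟨I, h1, h2, -, h3⟩ := Matroid.exists_mem_finite_closure_of_mem_closure h
  exact ⟨I, h1, h2, by rwa [acl_eq]⟩

theorem zero_mem_acl (X : Set K) : (0 : K) ∈ acl k X := isAlgebraic_zero

theorem mk_acl_le (X : Set K) : #(acl k X) ≤ max (max #k #X) ℵ₀ :=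
  (Algebraic.cardinalMk_le_max (Algebra.adjoin k X) K).trans
    (max_le (Algebra.cardinalMk_adjoin_le k X) (le_max_right _ _))

theorem acl_map (τ : K ≃+* K) (hτ : ∀ c, τ (algebraMap k K c) = algebraMap k K c) {X : Set K}
    {x : K} (h : x ∈ acl k X) : τ x ∈ acl k (τ '' X) := by
  let τ' : K →ₐ[k] K := ⟨τ.toRingHom, hτ⟩
  have hm : ∀ y ∈ Algebra.adjoin k X, τ y ∈ Algebra.adjoin k (τ '' X) := fun y hy => by
    have : τ' y ∈ (Algebra.adjoin k X).map τ' := ⟨y, hy, rfl⟩
    rwa [AlgHom.map_adjoin] at this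
  let f : Algebra.adjoin k X →+* Algebra.adjoin k (τ '' X) :=
    (τ.toRingHom.comp (Algebra.adjoin k X).val.toRingHom).codRestrict _ (fun y => hm y.1 y.2)
  exact IsAlgebraic.ringHom_of_comp_eq f τ.toRingHom h
    (fun a b hab => Subtype.ext (τ.injective (congrArg Subtype.val hab))) rfl

theorem exists_aut_acl [IsAlgClosed K] {ι : Type u} {b : ι → K} (hb : IsTranscendenceBasis k b)
    (S : Set ι) (π : Equiv.Perm ι) (hπ : ∀ i ∈ S, π i = i) :
    ∃ τ : K ≃+* K, (∀ x ∈ acl k (b '' S), τ x = x) ∧ ∀ i, τ (b i) = b (π i) := by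
  let L := Subalgebra.algebraicClosure (Algebra.adjoin k (b '' S)) K
  have hL : ∀ x, x ∈ L ↔ x ∈ acl k (b '' S) := fun x => Iff.rfl
  have hbL : ∀ i ∈ S, b i ∈ L := fun i hi =>
    isAlgebraic_algebraMap (⟨b i, Algebra.subset_adjoin ⟨i, hi, rfl⟩⟩ : Algebra.adjoin k (b '' S))
  let x : (Sᶜ : Set ι) → K := fun i => b i
  have h1 : AlgebraicIndependent L x :=
    (hb.1.adjoin_of_disjoint disjoint_compl_right).subalgebraAlgebraicClosure
  have hle : ∀ y ∈ Algebra.adjoin k (Set.range b), y ∈ Algebra.adjoin L (Set.range x) := by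
    intro y hy
    induction hy using Algebra.adjoin_induction with
    | mem y hy =>
      obtain ⟨i, rfl⟩ := hy
      by_cases hi : i ∈ S
      · exact Subalgebra.algebraMap_mem _ (⟨b i, hbL i hi⟩ : L)
      · exact Algebra.subset_adjoin ⟨⟨i, hi⟩, rfl⟩
    | algebraMap c =>
      exact Subalgebra.algebraMap_mem _ (⟨algebraMap k K c, isAlgebraic_algebraMap
        (algebraMap k (Algebra.adjoin k (b '' S)) c)⟩ : L)
    | add _ _ _ _ h1 h2 => exact add_mem h1 h2
    | mul _ _ _ _ h1 h2 => exact mul_mem h1 h2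
  have h2 : IsTranscendenceBasis L x := by
    rw [h1.isTranscendenceBasis_iff_isAlgebraic]
    refine ⟨fun y => ?_⟩
    let f : Algebra.adjoin k (Set.range b) →+* Algebra.adjoin L (Set.range x) :=
      (Algebra.adjoin k (Set.range b)).val.toRingHom.codRestrict _ (fun y => hle y.1 y.2)
    exact IsAlgebraic.ringHom_of_comp_eq f (RingHom.id K) (hb.isAlgebraic.1 y)
      (fun a c hab => Subtype.ext (congrArg (fun z : Algebra.adjoin L (Set.range x) => z.1) hab))
      rfl
  have hπ' : ∀ i, π i ∈ Sᶜ ↔ i ∈ Sᶜ := fun i => not_congr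
    ⟨fun h => by rwa [π.injective (hπ _ h)] at h, fun h => by rwa [hπ i h]⟩
  obtain ⟨τ, k1, k2⟩ := exists_aut_perm h2 (π.subtypePerm hπ')
  refine ⟨τ, fun y hy => k1 ⟨y, hy⟩, fun i => ?_⟩
  by_cases hi : i ∈ S
  · rw [hπ i hi]; exact k1 ⟨b i, hbL i hi⟩
  · exact k2 ⟨i, hi⟩

end

section
variable {K R : Type u} [Field K] [Ring R] [Algebra K R] {J : Type u} (e : Module.Basis J K R)

theorem mk_coord_le (X : Set K) : #{r : R | ∀ j, e.repr r j ∈ X} ≤ max ℵ₀ (#J * #X) := by
  classical
  let g : List (J × X) → R := fun l => (l.map fun p => p.2.1 • e p.1).sum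
  refine le_trans (Cardinal.mk_le_mk_of_subset (t := Set.range g) fun r hr => ?_)
    (Cardinal.mk_range_le.trans ((Cardinal.mk_list_le_max _).trans (by simp)))
  refine ⟨(e.repr r).support.toList.map (fun j => (j, ⟨e.repr r j, hr j⟩)), ?_⟩
  simp only [g, List.map_map]
  rw [Finset.sum_map_toList]
  conv_rhs => rw [← e.linearCombination_repr r]
  rw [Finsupp.linearCombination_apply]
  rfl

theorem exists_ring_aut (τ : K ≃+* K)
    (hτ : ∀ i j l, τ (e.repr (e i * e j) l) = e.repr (e i * e j) l) :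
    ∃ σ : R ≃+* R, ∀ r j, e.repr (σ r) j = τ (e.repr r j) := by
  let s : R ≃+ R := e.repr.toAddEquiv.trans
    ((Finsupp.mapRange.addEquiv τ.toAddEquiv).trans e.repr.symm.toAddEquiv)
  have hs : ∀ r j, e.repr (s r) j = τ (e.repr r j) := fun r j => by simp [s]
  have hsm : ∀ (c : K) (r : R), s (c • r) = τ c • s r := fun c r =>
    e.repr.injective (Finsupp.ext fun j => by simp [hs])
  have hfix : ∀ r : R, (∀ j, τ (e.repr r j) = e.repr r j) → s r = r := fun r h =>
    e.repr.injective (Finsupp.ext fun j => by rw [hs, h])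
  have he : ∀ i, s (e i) = e i := fun i => hfix _ fun j => by
    classical
    rw [e.repr_self, Finsupp.single_apply]
    split_ifs <;> simp
  have hmul : ∀ x y, s (x * y) = s x * s y := by
    intro x y
    have hx : x ∈ Submodule.span K (Set.range e) := by rw [e.span_eq]; trivial
    have hy : y ∈ Submodule.span K (Set.range e) := by rw [e.span_eq]; trivial
    induction hx, hy using Submodule.span_induction₂ with
    | mem_mem x y hx hy =>
      obtain ⟨i, rfl⟩ := hx
      obtain ⟨j, rfl⟩ := hy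
      rw [he, he, hfix _ (hτ i j)]
    | zero_left => simp
    | zero_right => simp
    | add_left x y z _ _ _ h1 h2 => rw [add_mul, map_add, map_add, add_mul, h1, h2]
    | add_right x y z _ _ _ h1 h2 => rw [mul_add, map_add, map_add, mul_add, h1, h2]
    | smul_left c x y _ _ h => rw [smul_mul_assoc, hsm, hsm, h, smul_mul_assoc]
    | smul_right c x y _ _ h => rw [mul_smul_comm, hsm, hsm, h, mul_smul_comm]
  exact ⟨{ s with map_mul' := hmul }, hs⟩

include e in
theorem mk_le_of_basis : #R ≤ max ℵ₀ (#J * #K) := by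
  have := mk_coord_le e Set.univ
  simpa using this

include e in
theorem nonempty_suppSys [IsAlgClosed K] (hJ : #J < 𝔠) (hK : 𝔠 ≤ #K) : Nonempty (SuppSys R) := by
  let k : Subfield K :=
    Subfield.closure (Set.range fun p : J × J × J => e.repr (e p.1 * e p.2.1) p.2.2)
  have hc := Cardinal.aleph0_le_continuum.{u}
  have hc' := Cardinal.aleph0_lt_continuum.{u}
  have hk : #k < 𝔠 := by
    refine lt_of_le_of_lt (Subfield.cardinalMk_closure_le_max _)
      (max_lt (lt_of_le_of_lt Cardinal.mk_range_le ?_) hc')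
    simp only [Cardinal.mk_prod, Cardinal.lift_id]
    exact Cardinal.mul_lt_of_lt hc hJ (Cardinal.mul_lt_of_lt hc hJ hJ)
  obtain ⟨ι, b, hb⟩ := exists_isTranscendenceBasis' k K
  have hι : #K ≤ #ι := by
    have := IsAlgClosed.cardinal_le_max_transcendence_basis' b hb
    rcases le_max_iff.1 this with h | h
    · rcases le_max_iff.1 h with h | h
      · exact absurd (hK.trans h) (not_le.2 hk)
      · exact h
    · exact absurd (hK.trans h) (not_le.2 hc')
  have hι' : 𝔠 ≤ #ι := hK.trans hι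
  refine ⟨⟨ι, fun S => {r | ∀ j, e.repr r j ∈ acl k (b '' S)},
    fun h r hr j => acl_mono k (Set.image_mono h) (hr j), fun r => ?_, fun S hS => ?_,
    fun S π hπ => ?_, ?_, hc'.trans_le hι'⟩⟩
  · have : ∀ j, ∃ F : Set ι, F.Finite ∧ e.repr r j ∈ acl k (b '' F) := fun j => by
      obtain ⟨I, h1, h2, h3⟩ := acl_fin k (X := b '' Set.univ) (x := e.repr r j)
        (by rw [Set.image_univ]; exact hb.isAlgebraic.1 _)
      obtain ⟨t, -, htf, rfl⟩ := Set.exists_subset_image_finite_and.1 ⟨I, h1, h2, rfl⟩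
      exact ⟨t, htf, h3⟩
    choose F h1 h2 using this
    refine ⟨⋃ j ∈ (e.repr r).support, F j, (e.repr r).support.finite_toSet.biUnion
      (fun j _ => h1 j), fun j => ?_⟩
    by_cases hj : j ∈ (e.repr r).support
    · exact acl_mono k (Set.image_mono (Set.subset_biUnion_of_mem (u := F) hj)) (h2 j)
    · rw [Finsupp.notMem_support_iff.1 hj]; exact zero_mem_acl k _
  · refine lt_of_le_of_lt (mk_coord_le e _) (max_lt hc' (Cardinal.mul_lt_of_lt hc hJ
      (lt_of_le_of_lt (mk_acl_le k _) (max_lt (max_lt hk ?_) hc'))))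
    exact lt_of_le_of_lt (Cardinal.le_aleph0_iff_set_countable.2 (hS.image b)) hc'
  · obtain ⟨τ, h1, h2⟩ := exists_aut_acl k hb S π hπ
    have h3 : ∀ c : k, τ (algebraMap k K c) = algebraMap k K c := fun c => h1 _
      (isAlgebraic_algebraMap (algebraMap k (Algebra.adjoin k (b '' S)) c))
    obtain ⟨σ, hσ⟩ := exists_ring_aut e τ (fun i j l =>
      h3 ⟨_, Subfield.subset_closure ⟨(i, j, l), rfl⟩⟩)
    refine ⟨σ, fun r hr => e.repr.injective (Finsupp.ext fun j => by rw [hσ, h1 _ (hr j)]),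
      fun T r hr j => ?_⟩
    have := acl_map k τ h3 (hr j)
    rw [hσ]
    rwa [Set.image_image, show (fun i => τ (b i)) = fun i => b (π i) from funext h2,
      ← Set.image_image b π] at this
  · refine (mk_le_of_basis e).trans (max_le (hc.trans hι') ?_)
    refine (mul_le_mul (hJ.le.trans hι') hι zero_le zero_le).trans ?_
    rw [Cardinal.mul_eq_self (hc.trans hι')]

end

theorem isoCond_algClosed (K R : Type u) [Field K] [IsAlgClosed K] [Ring R] [Algebra K R]
    (h : Module.rank K R < 𝔠) (o : Ordinal.{w}) : IsoCond (rel (PLe (R := R)) o) := by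
  let e := Module.Free.chooseBasis K R
  rw [Module.Free.rank_eq_card_chooseBasisIndex] at h
  by_cases hK : 𝔠 ≤ #K
  · obtain ⟨Y⟩ := nonempty_suppSys e h hK
    exact isoCond_of_supp (defble_rel o) (inv_rel o) Y
  · exact isoCond_small (defble_rel o) (lt_of_le_of_lt (mk_le_of_basis e)
      (max_lt Cardinal.aleph0_lt_continuum
        (Cardinal.mul_lt_of_lt Cardinal.aleph0_le_continuum h (not_le.1 hK))))

theorem cb_eq_algClosed (K R : Type u) [Field K] [IsAlgClosed K] [Ring R] [Algebra K R]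
    [Nontrivial R] (h : Module.rank K R < 𝔠) :
    ∃ ρ : WithTop Ordinal.{u + 1}, HasCBRank (Zg R) ρ ∧ HasCBRank (Zg Rᵐᵒᵖ) ρ := by
  obtain ⟨ρ, hρ⟩ := exists_relRank (R := R)
  refine ⟨ρ, hasCBRank_of_relRank (isoCond_algClosed K R h) hρ,
    hasCBRank_of_relRank (isoCond_algClosed K Rᵐᵒᵖ ?_) (relRank_op hρ)⟩
  rwa [← (MulOpposite.opLinearEquiv K (M := R)).rank_eq]

end Pool.Agent.Lib.MP_1e63be_al
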