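import Pool.Agent.Lib.MP_1e63be_al.Defs

set_option autoImplicit false
set_option linter.unusedSectionVars false

universe u v w

namespace Pool.Agent.Lib.MP_1e63be_al

variable {R : Type u} [Ring R]

/-- binary pp conditions -/
structure F2 (R : Type u) where
  n : ℕ
  m : ℕ
  A : Fin m → R
  B : Fin m → R
  C : Fin n → Fin m → R

def F2.ev (θ : F2 R) (M : Type u) [AddCommGroup M] [Module R M] (x y : M) : Prop :=
  ∃ w : Fin θ.n → M, ∀ j, θ.A j • x + θ.B j • y + ∑ i, θ.C i j • w i = 0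

theorem exists_F2_gen {κ μ : Type w} [Fintype κ] [Fintype μ] (a b : μ → R) (c : κ → μ → R) :
    ∃ θ : F2 R, ∀ (M : Type u) [AddCommGroup M] [Module R M] (x y : M),
      θ.ev M x y ↔ ∃ w : κ → M, ∀ j, a j • x + b j • y + ∑ i, c i j • w i = 0 := by
  let eκ := Fintype.equivFin κ
  let eμ := Fintype.equivFin μ
  refine ⟨⟨Fintype.card κ, Fintype.card μ, fun j => a (eμ.symm j), fun j => b (eμ.symm j),
    fun i j => c (eκ.symm i) (eμ.symm j)⟩, ?_⟩
  intro M _ _ x y
  constructor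
  · rintro ⟨w, hw⟩
    refine ⟨fun i => w (eκ i), fun j => ?_⟩
    have := hw (eμ j)
    simp only [Equiv.symm_apply_apply] at this
    rw [← this]
    congr 1
    exact (Fintype.sum_equiv eκ _ _ (fun i => by simp))
  · rintro ⟨w, hw⟩
    refine ⟨fun i => w (eκ.symm i), fun j => ?_⟩
    have := hw (eμ.symm j)
    rw [← this]
    congr 1
    exact (Fintype.sum_equiv eκ.symm _ _ (fun i => by simp))

section Sub
variable {M : Type u} [AddCommGroup M] [Module R M]

theorem F2.ev_zero (θ : F2 R) : θ.ev M 0 0 := ⟨0, fun j => by simp⟩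

theorem F2.ev_add {θ : F2 R} {x y x' y' : M} (h : θ.ev M x y) (h' : θ.ev M x' y') :
    θ.ev M (x + x') (y + y') := by
  obtain ⟨w, hw⟩ := h
  obtain ⟨w', hw'⟩ := h'
  refine ⟨w + w', fun j => ?_⟩
  have h1 := hw j
  have h2 := hw' j
  simp only [Pi.add_apply, smul_add, Finset.sum_add_distrib]
  linear_combination (norm := abel1) h1 + h2

theorem F2.ev_neg {θ : F2 R} {x y : M} (h : θ.ev M x y) : θ.ev M (-x) (-y) := by
  obtain ⟨w, hw⟩ := h
  refine ⟨-w, fun j => ?_⟩
  have h1 := hw j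
  simp only [Pi.neg_apply, smul_neg, Finset.sum_neg_distrib]
  linear_combination (norm := abel1) -h1

theorem F2.ev_sub {θ : F2 R} {x y x' y' : M} (h : θ.ev M x y) (h' : θ.ev M x' y') :
    θ.ev M (x - x') (y - y') := by
  rw [sub_eq_add_neg, sub_eq_add_neg]; exact F2.ev_add h (F2.ev_neg h')

theorem F2.ev_map {θ : F2 R} {N : Type u} [AddCommGroup N] [Module R N] (f : M →ₗ[R] N)
    {x y : M} (h : θ.ev M x y) : θ.ev N (f x) (f y) := by
  obtain ⟨w, hw⟩ := h
  refine ⟨fun i => f (w i), fun j => ?_⟩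
  have := congrArg f (hw j)
  simpa [map_sum] using this

theorem PPCond.zero_mem (φ : PPCond R) : (0 : M) ∈ φ.eval M := ⟨0, fun j => by simp⟩

theorem PPCond.add_mem {φ : PPCond R} {x y : M} (h : x ∈ φ.eval M) (h' : y ∈ φ.eval M) :
    x + y ∈ φ.eval M := by
  obtain ⟨w, hw⟩ := h
  obtain ⟨w', hw'⟩ := h'
  refine ⟨w + w', fun j => ?_⟩
  have h1 := hw j
  have h2 := hw' j
  simp only [Pi.add_apply, smul_add, Finset.sum_add_distrib]
  linear_combination (norm := abel1) h1 + h2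

theorem PPCond.neg_mem {φ : PPCond R} {x : M} (h : x ∈ φ.eval M) : -x ∈ φ.eval M := by
  obtain ⟨w, hw⟩ := h
  refine ⟨-w, fun j => ?_⟩
  have h1 := hw j
  simp only [Pi.neg_apply, smul_neg, Finset.sum_neg_distrib]
  linear_combination (norm := abel1) -h1

theorem PPCond.sub_mem {φ : PPCond R} {x y : M} (h : x ∈ φ.eval M) (h' : y ∈ φ.eval M) :
    x - y ∈ φ.eval M := by
  rw [sub_eq_add_neg]; exact PPCond.add_mem h (PPCond.neg_mem h')

theorem PPCond.map_mem {φ : PPCond R} {N : Type u} [AddCommGroup N] [Module R N]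
    (f : M →ₗ[R] N) {x : M} (h : x ∈ φ.eval M) : f x ∈ φ.eval N := by
  obtain ⟨w, hw⟩ := h
  refine ⟨fun i => f (w i), fun j => ?_⟩
  have := congrArg f (hw j)
  simpa [map_sum] using this

def PPCond.sub (φ : PPCond R) (M : Type u) [AddCommGroup M] [Module R M] : AddSubgroup M where
  carrier := φ.eval M
  zero_mem' := φ.zero_mem
  add_mem' := PPCond.add_mem
  neg_mem' := PPCond.neg_mem

end Sub

/-- substitution `φ (r x + s y)` -/
def PPCond.subst (φ : PPCond R) (r s : R) : F2 R :=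
  ⟨φ.n, φ.m, fun j => φ.H 0 j * r, fun j => φ.H 0 j * s, fun i j => φ.H i.succ j⟩

theorem ev_subst (φ : PPCond R) (r s : R) (M : Type u) [AddCommGroup M] [Module R M] (x y : M) :
    (φ.subst r s).ev M x y ↔ r • x + s • y ∈ φ.eval M := by
  simp only [F2.ev, PPCond.subst, PPCond.eval, Set.mem_ofPred_eq, smul_add, mul_smul]
  rfl

def F2.swap (θ : F2 R) : F2 R := ⟨θ.n, θ.m, θ.B, θ.A, θ.C⟩

theorem ev_swap (θ : F2 R) (M : Type u) [AddCommGroup M] [Module R M] (x y : M) :
    θ.swap.ev M x y ↔ θ.ev M y x := by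
  simp only [F2.ev, F2.swap]
  constructor <;> rintro ⟨w, hw⟩ <;> refine ⟨w, fun j => ?_⟩ <;> rw [← hw j] <;> abel

def F2.ex (θ : F2 R) : PPCond R :=
  ⟨θ.n + 1, θ.m, Fin.cons θ.A (Fin.cons θ.B θ.C)⟩

theorem mem_ex (θ : F2 R) (M : Type u) [AddCommGroup M] [Module R M] (x : M) :
    x ∈ θ.ex.eval M ↔ ∃ y, θ.ev M x y := by
  have key : x ∈ θ.ex.eval M ↔ ∃ w : Fin (θ.n + 1) → M, ∀ j : Fin θ.m,
      θ.A j • x + ∑ i : Fin (θ.n + 1),
        (Fin.cons θ.B θ.C : Fin (θ.n + 1) → Fin θ.m → R) i j • w i = 0 := Iff.rfl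
  rw [key]
  simp only [Fin.sum_univ_succ, Fin.cons_zero, Fin.cons_succ]
  constructor
  · rintro ⟨w, hw⟩
    exact ⟨w 0, fun i => w i.succ, fun j => by rw [← hw j]; abel⟩
  · rintro ⟨y, w, hw⟩
    refine ⟨Fin.cons y w, fun j => ?_⟩
    simp only [Fin.cons_zero, Fin.cons_succ]
    rw [← hw j]; abel

theorem exists_and2 (θ θ' : F2 R) : ∃ ρ : F2 R, ∀ (M : Type u) [AddCommGroup M] [Module R M]
    (x y : M), ρ.ev M x y ↔ θ.ev M x y ∧ θ'.ev M x y := by
  obtain ⟨ρ, hρ⟩ := exists_F2_gen (κ := Fin θ.n ⊕ Fin θ'.n) (μ := Fin θ.m ⊕ Fin θ'.m)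
    (Sum.elim θ.A θ'.A) (Sum.elim θ.B θ'.B)
    (Sum.elim (fun i => Sum.elim (θ.C i) (fun _ => 0)) (fun i => Sum.elim (fun _ => 0) (θ'.C i)))
  refine ⟨ρ, fun M _ _ x y => ?_⟩
  rw [hρ]
  constructor
  · rintro ⟨w, hw⟩
    refine ⟨⟨fun i => w (.inl i), fun j => ?_⟩, ⟨fun i => w (.inr i), fun j => ?_⟩⟩
    · simpa [Fintype.sum_sum_type] using hw (.inl j)
    · simpa [Fintype.sum_sum_type] using hw (.inr j)
  · rintro ⟨⟨w, hw⟩, ⟨w', hw'⟩⟩
    refine ⟨Sum.elim w w', fun j => ?_⟩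
    rcases j with j | j
    · simpa [Fintype.sum_sum_type] using hw j
    · simpa [Fintype.sum_sum_type] using hw' j

noncomputable def F2.and (θ θ' : F2 R) : F2 R := (exists_and2 θ θ').choose

theorem ev_and (θ θ' : F2 R) (M : Type u) [AddCommGroup M] [Module R M] (x y : M) :
    (θ.and θ').ev M x y ↔ θ.ev M x y ∧ θ'.ev M x y := (exists_and2 θ θ').choose_spec M x y

def ptop (R : Type u) [Ring R] : PPCond R := ⟨0, 0, fun _ j => j.elim0⟩
def pbot (R : Type u) [Ring R] : PPCond R := ⟨0, 1, fun _ _ => 1⟩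

theorem mem_ptop (M : Type u) [AddCommGroup M] [Module R M] (x : M) :
    x ∈ (ptop R).eval M := ⟨fun i => i.elim0, fun j => j.elim0⟩

theorem mem_pbot (M : Type u) [AddCommGroup M] [Module R M] (x : M) :
    x ∈ (pbot R).eval M ↔ x = 0 := by
  simp [PPCond.eval, pbot]

noncomputable def F2.img (θ : F2 R) (φ : PPCond R) : PPCond R := (θ.and (φ.subst 0 1)).ex

theorem mem_img (θ : F2 R) (φ : PPCond R) (M : Type u) [AddCommGroup M] [Module R M] (x : M) :
    x ∈ (θ.img φ).eval M ↔ ∃ y, y ∈ φ.eval M ∧ θ.ev M x y := by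
  simp only [F2.img, mem_ex, ev_and, ev_subst, zero_smul, one_smul, zero_add]
  exact exists_congr fun y => and_comm

noncomputable def PPCond.inf (φ ψ : PPCond R) : PPCond R :=
  ((φ.subst 1 0).and ((pbot R).subst 1 (-1))).img ψ

theorem mem_inf (φ ψ : PPCond R) (M : Type u) [AddCommGroup M] [Module R M] (x : M) :
    x ∈ (φ.inf ψ).eval M ↔ x ∈ φ.eval M ∧ x ∈ ψ.eval M := by
  simp only [PPCond.inf, mem_img, ev_and, ev_subst, zero_smul, one_smul, add_zero, mem_pbot,
    neg_smul]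
  constructor
  · rintro ⟨y, hy, hx, hxy⟩
    have : x = y := by linear_combination (norm := abel1) hxy
    exact ⟨hx, this ▸ hy⟩
  · rintro ⟨h1, h2⟩
    exact ⟨x, h2, h1, by simp⟩

noncomputable def PPCond.sup (φ ψ : PPCond R) : PPCond R := (φ.subst 1 (-1)).img ψ

theorem mem_sup (φ ψ : PPCond R) (M : Type u) [AddCommGroup M] [Module R M] (x : M) :
    x ∈ (φ.sup ψ).eval M ↔ ∃ y, y ∈ ψ.eval M ∧ x - y ∈ φ.eval M := by
  simp only [PPCond.sup, mem_img, ev_subst, one_smul, neg_smul, sub_eq_add_neg]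

/-- representation lemma -/
theorem exists_F2_free {F : Type u} [AddCommGroup F] [Module R F] [Module.Free R F]
    {J : Type w} (s : Finset J) (e : J → F) (v1 v2 : F) :
    ∃ θ : F2 R, ∀ (M : Type u) [AddCommGroup M] [Module R M] (x y : M),
      θ.ev M x y ↔ ∃ h : F →ₗ[R] M, (∀ j ∈ s, h (e j) = 0) ∧ h v1 = x ∧ h v2 = y := by
  classical
  let b := Module.Free.chooseBasis R F
  let t : Finset (Module.Free.ChooseBasisIndex R F) :=
    (s.biUnion fun j => (b.repr (e j)).support) ∪ (b.repr v1).support ∪ (b.repr v2).support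
  have key : ∀ (M : Type u) [AddCommGroup M] [Module R M] (h : F →ₗ[R] M) (f : F),
      (b.repr f).support ⊆ t → h f = ∑ i : t, b.repr f i • h (b i) := by
    intro M _ _ h f hf
    conv_lhs => rw [← b.linearCombination_repr f]
    rw [Finsupp.linearCombination_apply, Finsupp.sum_of_support_subset _ hf _ (by simp), map_sum]
    rw [← Finset.sum_coe_sort t]
    simp
  have h1 : (b.repr v1).support ⊆ t :=
    Finset.subset_union_right.trans Finset.subset_union_left
  have h2 : (b.repr v2).support ⊆ t := Finset.subset_union_right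
  have h3 : ∀ j ∈ s, (b.repr (e j)).support ⊆ t := fun j hj =>
    (Finset.subset_biUnion_of_mem (fun j => (b.repr (e j)).support) hj).trans
      (Finset.subset_union_left.trans Finset.subset_union_left)
  obtain ⟨θ, hθ⟩ := exists_F2_gen (R := R) (κ := ULift.{w} t) (μ := ULift.{u} (s ⊕ Bool))
    (fun j => Sum.elim (fun _ => 0) (fun c => if c then -1 else 0) j.down)
    (fun j => Sum.elim (fun _ => 0) (fun c => if c then 0 else -1) j.down)
    (fun i j => Sum.elim (fun j : s => b.repr (e j) i.down)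
      (fun c => if c then b.repr v1 i.down else b.repr v2 i.down) j.down)
  refine ⟨θ, fun M _ _ x y => ?_⟩
  rw [hθ]
  have sumU : ∀ g : t → M, ∑ i : ULift.{w} t, g i.down = ∑ i : t, g i := fun g =>
    Fintype.sum_equiv Equiv.ulift _ _ (fun i => rfl)
  constructor
  · rintro ⟨w, hw⟩
    let h : F →ₗ[R] M := b.constr ℕ (fun i => if hi : i ∈ t then w ⟨⟨i, hi⟩⟩ else 0)
    have hb : ∀ i : t, h (b i) = w ⟨i⟩ := fun i => by simp [h, i.2]
    refine ⟨h, fun j hj => ?_, ?_, ?_⟩
    · rw [key M h _ (h3 j hj)]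
      have := hw ⟨.inl ⟨j, hj⟩⟩
      simp only [Sum.elim_inl, zero_smul, zero_add] at this
      rw [← this, ← sumU]
      simp [hb]
    · rw [key M h _ h1]
      have := hw ⟨.inr true⟩
      simp only [Sum.elim_inr, if_true, zero_smul, add_zero, neg_smul, one_smul] at this
      rw [← sumU]
      simp only [hb]
      linear_combination (norm := abel1) this
    · rw [key M h _ h2]
      have := hw ⟨.inr false⟩
      simp only [Sum.elim_inr, Bool.false_eq_true, if_false, zero_smul, zero_add, neg_smul,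
        one_smul] at this
      rw [← sumU]
      simp only [hb]
      linear_combination (norm := abel1) this
  · rintro ⟨h, hs, hx, hy⟩
    refine ⟨fun i => h (b i.down), fun j => ?_⟩
    rcases j with ⟨j | c⟩
    · simp only [Sum.elim_inl, zero_smul, zero_add]
      rw [sumU (fun i => b.repr (e j) i • h (b i)), ← key M h _ (h3 j j.2), hs j j.2]
    · cases c
      · simp only [Sum.elim_inr, Bool.false_eq_true, if_false, zero_smul, zero_add, neg_smul,
          one_smul]
        rw [sumU (fun i => b.repr v2 i • h (b i)), ← key M h _ h2, hy]; simp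
      · simp only [Sum.elim_inr, if_true, zero_smul, add_zero, neg_smul, one_smul]
        rw [sumU (fun i => b.repr v1 i • h (b i)), ← key M h _ h1, hx]; simp

/-- semantic implication -/
def PLe (φ ψ : PPCond R) : Prop :=
  ∀ (M : Type u) [AddCommGroup M] [Module R M], φ.eval M ⊆ ψ.eval M

theorem PLe.refl (φ : PPCond R) : PLe φ φ := fun _ _ _ => subset_rfl

theorem PLe.trans {φ ψ χ : PPCond R} (h : PLe φ ψ) (h' : PLe ψ χ) : PLe φ χ :=
  fun M _ _ => (h M).trans (h' M)

end Pool.Agent.Lib.MP_1e63be_al
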