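import Pool.Agent.Lib.MP_1e63be_al.Field

set_option autoImplicit false
set_option linter.unusedSectionVars false

universe u v w

namespace Pool.Agent.Lib.MP_1e63be_al

open Cardinal

variable {R S : Type u} [Ring R] [Ring S]

/-- restriction of scalars along a ring homomorphism -/
def Res (_f : R →+* S) (M : Type u) : Type u := M

instance (f : R →+* S) (M : Type u) [AddCommGroup M] : AddCommGroup (Res f M) :=
  inferInstanceAs (AddCommGroup M)

instance (f : R →+* S) (M : Type u) [AddCommGroup M] [Module S M] : Module R (Res f M) :=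
  Module.compHom M f

def Res.of (f : R →+* S) {M : Type u} (x : M) : Res f M := x

section
variable (f : R →+* S) (M : Type u) [AddCommGroup M] [Module S M]

theorem mem_res (φ : PPCond R) (x : M) :
    x ∈ (φ.map f).eval M ↔ Res.of f x ∈ φ.eval (Res f M) := Iff.rfl

theorem res_inf (φ ψ : PPCond R) (x : M) : x ∈ ((φ.inf ψ).map f).eval M ↔
    x ∈ (φ.map f).eval M ∧ x ∈ (ψ.map f).eval M := by
  rw [mem_res, mem_inf]; rfl

theorem res_sup (φ ψ : PPCond R) (x : M) : x ∈ ((φ.sup ψ).map f).eval M ↔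
    ∃ y, y ∈ (ψ.map f).eval M ∧ x - y ∈ (φ.map f).eval M := by
  rw [mem_res, mem_sup]; rfl

theorem res_img (θ : F2 R) (φ : PPCond R) (x : M) : x ∈ ((θ.img φ).map f).eval M ↔
    x ∈ ((θ.map f).img (φ.map f)).eval M := by
  rw [mem_res, mem_img, mem_img]; rfl

theorem res_lk (θ : F2 R) (δ ψ : PPCond R) (x : M) : x ∈ ((lk θ δ ψ).map f).eval M ↔
    x ∈ (lk (θ.map f) (δ.map f) (ψ.map f)).eval M := by
  rw [mem_res, mem_lk, mem_lk]; rfl

theorem res_lmeet (l : List (PPCond R)) (x : M) : x ∈ ((lmeet l).map f).eval M ↔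
    ∀ φ ∈ l, x ∈ (φ.map f).eval M := by
  rw [mem_res, mem_lmeet]; rfl

end

theorem PLe.res (f : R →+* S) {φ ψ : PPCond R} (h : PLe φ ψ) : PLe (φ.map f) (ψ.map f) :=
  fun M _ _ x hx => (mem_res f M ψ x).2 (h _ ((mem_res f M φ x).1 hx))

def pull (f : R →+* S) (le : PPCond S → PPCond S → Prop) : PPCond R → PPCond R → Prop :=
  fun φ ψ => le (φ.map f) (ψ.map f)

theorem Defble.pull {le : PPCond S → PPCond S → Prop} (H : Defble le) (f : R →+* S) :
    Defble (pull f le) :=
  ⟨fun h => H.of_le (h.res f), H.trans, fun θ _ _ h =>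
    H.trans (H.of_le fun M _ _ x hx => (res_img f M _ _ x).1 hx) (H.trans (H.img (θ.map f) h)
      (H.of_le fun M _ _ x hx => (res_img f M _ _ x).2 hx))⟩

theorem Good.res {le : PPCond S → PPCond S → Prop} (f : R →+* S) {N : Type u} [AddCommGroup N]
    [Module S N] (h : Good le N) : Good (pull f le) (Res f N) :=
  fun φ ψ k x hx => (mem_res f N ψ x).1 (h _ _ k ((mem_res f N φ x).2 hx))

/-- the coinduced module -/
def Co (f : R →+* S) (M : Type u) [AddCommGroup M] [Module R M] : Type u := Res f S →ₗ[R] M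

section
variable (f : R →+* S) (M : Type u) [AddCommGroup M] [Module R M]

instance : AddCommGroup (Co f M) := inferInstanceAs (AddCommGroup (Res f S →ₗ[R] M))

def Co.lin {f : R →+* S} {M : Type u} [AddCommGroup M] [Module R M] (g : Co f M) :
    Res f S →ₗ[R] M := g

def rmul (s : S) : Res f S →ₗ[R] Res f S where
  toFun t := Res.of f ((show S from t) * s)
  map_add' a b := add_mul (show S from a) (show S from b) s
  map_smul' r a := mul_assoc (f r) (show S from a) s

instance : Module S (Co f M) where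
  smul s g := show Res f S →ₗ[R] M from g.lin ∘ₗ rmul f s
  one_smul g := LinearMap.ext fun t => congrArg g.lin (mul_one (show S from t))
  mul_smul a b g := LinearMap.ext fun t => congrArg g.lin (mul_assoc (show S from t) a b).symm
  smul_zero _ := rfl
  smul_add _ _ _ := rfl
  add_smul a b g := LinearMap.ext fun t =>
    (congrArg g.lin (mul_add (show S from t) a b)).trans (map_add g.lin _ _)
  zero_smul g := LinearMap.ext fun t =>
    (congrArg g.lin (mul_zero (show S from t))).trans (map_zero g.lin)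

end

theorem ple_of_res (f : R →+* S) (π : S →+ R) (h1 : π 1 = 1) (h2 : ∀ r s, π (f r * s) = r * π s)
    (h3 : ∀ r s, π (s * f r) = π s * r) {φ ψ : PPCond R} (h : PLe (φ.map f) (ψ.map f)) :
    PLe φ ψ := by
  intro M _ _ x hx
  let i : M →ₗ[R] Res f (Co f M) :=
    { toFun := fun m => show Res f S →ₗ[R] M from
        { toFun := fun s => π s • m
          map_add' := fun a b => (congrArg (· • m) (map_add π a b)).trans (add_smul _ _ _)
          map_smul' := fun r a => (congrArg (· • m) (h2 r a)).trans (mul_smul _ _ _) }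
      map_add' := fun a b => LinearMap.ext fun s => smul_add _ _ _
      map_smul' := fun r a => LinearMap.ext fun s =>
        ((congrArg (· • a) (h3 r s)).trans (mul_smul _ _ _)).symm }
  let p : Res f (Co f M) →ₗ[R] M :=
    { toFun := fun g => Co.lin g (Res.of f (1 : S))
      map_add' := fun _ _ => rfl
      map_smul' := fun r g => by
        have := map_smul (Co.lin g) r (Res.of f (1 : S))
        refine Eq.trans (congrArg (Co.lin g) ?_) this
        exact (one_mul (f r)).trans (mul_one (f r)).symm }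
  have hp : p (i x) = x := by
    change π 1 • x = x
    rw [h1, one_smul]
  have := PPCond.map_mem p ((mem_res f (Co f M) ψ _).1 (h (Co f M)
    ((mem_res f (Co f M) φ _).2 (PPCond.map_mem i hx))))
  exact hp ▸ this

theorem exists_comp (θ' θ : F2 R) : ∃ ρ : F2 R, ∀ (M : Type u) [AddCommGroup M] [Module R M]
    (x z : M), ρ.ev M x z ↔ ∃ y, θ'.ev M x y ∧ θ.ev M y z := by
  obtain ⟨ρ, hρ⟩ := exists_F2_gen (κ := Option (Fin θ'.n ⊕ Fin θ.n)) (μ := Fin θ'.m ⊕ Fin θ.m)
    (Sum.elim θ'.A (fun _ => 0)) (Sum.elim (fun _ => 0) θ.B)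
    (fun o => o.elim (Sum.elim θ'.B θ.A) (Sum.elim (fun i => Sum.elim (θ'.C i) (fun _ => 0))
      (fun i => Sum.elim (fun _ => 0) (θ.C i))))
  refine ⟨ρ, fun M _ _ x z => ?_⟩
  rw [hρ]
  constructor
  · rintro ⟨w, hw⟩
    refine ⟨w none, ⟨fun i => w (some (.inl i)), fun j => ?_⟩,
      ⟨fun i => w (some (.inr i)), fun j => ?_⟩⟩
    · have := hw (.inl j)
      simp only [Fintype.sum_option, Fintype.sum_sum_type, Sum.elim_inl, Sum.elim_inr,
        Option.elim_none, Option.elim_some, zero_smul, Finset.sum_const_zero, add_zero] at this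
      linear_combination (norm := abel1) this
    · have := hw (.inr j)
      simp only [Fintype.sum_option, Fintype.sum_sum_type, Sum.elim_inl, Sum.elim_inr,
        Option.elim_none, Option.elim_some, zero_smul, Finset.sum_const_zero, zero_add] at this
      linear_combination (norm := abel1) this
  · rintro ⟨y, ⟨w, hw⟩, ⟨w', hw'⟩⟩
    refine ⟨fun o => o.elim y (Sum.elim w w'), fun j => ?_⟩
    rcases j with j | j
    · have := hw j
      simp only [Fintype.sum_option, Fintype.sum_sum_type, Sum.elim_inl, Sum.elim_inr,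
        Option.elim_none, Option.elim_some, zero_smul, Finset.sum_const_zero, add_zero]
      linear_combination (norm := abel1) this
    · have := hw' j
      simp only [Fintype.sum_option, Fintype.sum_sum_type, Sum.elim_inl, Sum.elim_inr,
        Option.elim_none, Option.elim_some, zero_smul, Finset.sum_const_zero, zero_add]
      linear_combination (norm := abel1) this

theorem exists_comp_img (θ' θ : F2 R) : ∃ ρ : F2 R, ∀ φ : PPCond R,
    PLe (θ'.img (θ.img φ)) (ρ.img φ) ∧ PLe (ρ.img φ) (θ'.img (θ.img φ)) := by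
  obtain ⟨ρ, hρ⟩ := exists_comp θ' θ
  refine ⟨ρ, fun φ => ⟨fun M _ _ x hx => ?_, fun M _ _ x hx => ?_⟩⟩
  · simp only [mem_img, hρ] at hx ⊢
    obtain ⟨y, ⟨z, hz, h1⟩, h2⟩ := hx
    exact ⟨z, hz, y, h2, h1⟩
  · simp only [mem_img, hρ] at hx ⊢
    obtain ⟨z, hz, y, h2, h1⟩ := hx
    exact ⟨y, ⟨z, hz, h1⟩, h2⟩

theorem collapse_of_noMin {o : Ordinal.{w}} {φ0 ψ0 : PPCond R} (h01 : PLe ψ0 φ0)
    (hno : ∀ φ ψ, rel PLe o ψ0 ψ → rel PLe o φ φ0 → ¬ MinPair (rel PLe o) φ ψ)
    (o' : Ordinal.{w}) : ∀ a b, rel PLe o' a b →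
      rel PLe o ((φ0.inf a).sup ψ0) ((φ0.inf b).sup ψ0) := by
  have H := defble_rel (R := R) o
  have hpr : ∀ a b, rel PLe o a b → rel PLe o ((φ0.inf a).sup ψ0) ((φ0.inf b).sup ψ0) :=
    fun a b h => H.sup_le (H.trans (H.le_inf (H.of_le (inf_le_left' _ _))
      (H.trans (H.of_le (inf_le_right' _ _)) h)) (H.of_le (le_sup_left' _ _)))
      (H.of_le (le_sup_right' _ _))
  induction o' using Ordinal.limitRecOn with
  | zero => intro a b h; rw [rel_zero] at h; exact hpr a b (H.of_le h)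
  | limit o' ho ih =>
    intro a b h
    obtain ⟨o'', h1, h2⟩ := (rel_limit _ ho _ _).1 h
    exact ih o'' h1 a b h2
  | add_one o' ih =>
    intro a b h
    rw [rel_succ] at h
    have H' := defble_rel (R := R) o'
    have key : ∀ a b, rel PLe o' a b ∨ MinPair (rel PLe o') a b →
        rel PLe o ((φ0.inf a).sup ψ0) ((φ0.inf b).sup ψ0) := by
      rintro a b (h | h)
      · exact ih a b h
      by_contra hn
      refine hno _ _ (H.of_le (le_sup_right' _ _)) (H.of_le ((inf_le_left' _ _).sup_le h01))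
        ⟨ih _ _ h.1, hn, fun χ k1 k2 => ?_⟩
      rcases h.2.2 ((χ.inf a).sup b) (H'.of_le (le_sup_right' _ _))
        (H'.sup_le (H'.of_le (inf_le_right' _ _)) h.1) with k | k
      · left
        refine H.trans (H.of_good fun N _ _ hN x hx => ?_) (ih _ _ k)
        obtain ⟨y, hy, hxy⟩ := (mem_sup _ _ _ _).1 (hN _ _ k2 hx)
        rw [mem_inf] at hxy
        refine (mem_sup _ _ _ _).2 ⟨y, hy, (mem_inf _ _ _ _).2 ⟨hxy.1, le_sup_left' _ _ _
          ((mem_inf _ _ _ _).2 ⟨PPCond.sub_mem hx (hN _ _ k1 (le_sup_right' _ _ _ hy)), hxy.2⟩)⟩⟩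
      · right
        refine H.trans (ih _ _ k) (H.of_good fun N _ _ hN x hx => ?_)
        obtain ⟨y, hy, hxy⟩ := (mem_sup _ _ _ _).1 hx
        rw [mem_inf] at hxy
        obtain ⟨z, hz, hxz⟩ := (mem_sup _ _ _ _).1 hxy.2
        rw [mem_inf] at hxz
        have h1 : x - y - z ∈ φ0.eval N := ((inf_le_left' _ _).sup_le h01) N (hN _ _ k2 hxz.1)
        have h2 : z ∈ χ.eval N := hN _ _ k1 (le_sup_left' _ _ _ ((mem_inf _ _ _ _).2
          ⟨by simpa using PPCond.sub_mem hxy.1 h1, hz⟩))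
        simpa using PPCond.add_mem (PPCond.add_mem hxz.1 h2) (hN _ _ k1 (le_sup_right' _ _ _ hy))
    induction h with
    | single h => exact key _ _ h
    | tail _ h ih' => exact H.trans ih' (key _ _ h)

theorem isoCond_of_finite {o' : Ordinal.{w}} (h : rel PLe o' (ptop R) (pbot R))
    (o : Ordinal.{w}) : IsoCond (rel (PLe (R := R)) o) := by
  intro φ0 ψ0 N hN hn hu
  have H := defble_rel (R := R) o
  by_contra hc
  have := collapse_of_noMin (o := o) (inf_le_left' φ0 ψ0) (by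
    intro φ ψ k1 k2 hm
    obtain ⟨N', j1, j2⟩ := complete1 H hm.2.1
    obtain ⟨e⟩ := hu N' j1 (fun h => j2 fun x hx =>
      j1 _ _ k1 ((mem_inf _ _ _ _).2 ⟨j1 _ _ k2 hx, h (j1 _ _ k2 hx)⟩))
    exact hc ⟨φ, ψ, hm, fun h => j2 (incl_iso e.symm h)⟩) o' _ _ h
  refine hn fun x hx => ?_
  obtain ⟨y, hy, hxy⟩ := (mem_sup _ _ _ _).1 (hN _ _ this (le_sup_left' _ _ _
    ((mem_inf _ _ _ _).2 ⟨hx, mem_ptop _ _⟩)))
  rw [mem_inf, mem_pbot, sub_eq_zero] at hxy
  rw [hxy.2]
  exact ((mem_inf _ _ _ _).1 hy).2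

theorem noMin_all (φ ψ : PPCond R) :
    ¬ MinPair (fun φ ψ => ∃ o : Ordinal.{u + 1}, rel (PLe (R := R)) o φ ψ) φ ψ := by
  rintro ⟨⟨o0, h0⟩, h1, h2⟩
  have : ∀ χ : PPCond R, ∃ o : Ordinal.{u + 1}, (∃ o : Ordinal.{u + 1}, rel PLe o ψ χ) →
      (∃ o : Ordinal.{u + 1}, rel PLe o χ φ) → rel PLe o χ ψ ∨ rel PLe o φ χ := by
    intro χ
    by_cases k : (∃ o : Ordinal.{u + 1}, rel PLe o ψ χ) ∧ (∃ o : Ordinal.{u + 1}, rel PLe o χ φ)
    · rcases h2 χ k.1 k.2 with ⟨o, h⟩ | ⟨o, h⟩
      · exact ⟨o, fun _ _ => Or.inl h⟩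
      · exact ⟨o, fun _ _ => Or.inr h⟩
    · exact ⟨0, fun k1 k2 => absurd ⟨k1, k2⟩ k⟩
  choose g hg using this
  obtain ⟨b, hb⟩ : BddAbove (Set.range g) := Ordinal.bddAbove_of_small
  refine h1 ⟨max o0 b + 1, ?_⟩
  rw [rel_succ]
  refine Relation.TransGen.single (Or.inr ⟨rel_mono _ (le_max_left _ _) h0, fun k => h1 ⟨_, k⟩,
    fun χ k1 k2 => ?_⟩)
  have hle : g χ ≤ max o0 b := (hb ⟨χ, rfl⟩).trans (le_max_right _ _)
  exact (hg χ ⟨_, k1⟩ ⟨_, k2⟩).imp (rel_mono _ hle) (rel_mono _ hle)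

theorem hasCBRank_top {le : PPCond R → PPCond R → Prop} (H : Defble le) (hI : IsoCond le)
    (hno : ∀ φ ψ, ¬ MinPair le φ ψ) (hn : ¬ le (ptop R) (pbot R)) : HasCBRank (Zg R) ⊤ := by
  have h1 : step le = le := by
    ext a b
    refine ⟨fun h => ?_, fun h => Relation.TransGen.single (Or.inl h)⟩
    induction h with
    | single h => exact h.resolve_right (hno _ _)
    | tail _ h ih => exact H.trans ih (h.resolve_right (hno _ _))
  have h2 := goodSet_step H hI
  rw [h1] at h2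
  refine Or.inl ⟨rfl, ((goodSet_nonempty H).2 hn).mono (Set.subset_iInter fun o => ?_)⟩
  induction o using Ordinal.limitRecOn with
  | zero => rw [CantorBendixson.iteratedDerivedSet_zero]; exact Set.subset_univ _
  | add_one o ih =>
    rw [CantorBendixson.iteratedDerivedSet_succ, ← h2]
    exact relDerivedSet.monotone ih
  | limit o ho ih =>
    rw [CantorBendixson.iteratedDerivedSet_limit ho]
    exact Set.subset_iInter fun o' => ih o' o'.2

/-- a countable family of pairs each of which contains an ascending chain of members -/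
def Fan (P : Set (PPCond R × PPCond R)) : Prop :=
  ∀ p ∈ P, ∃ c : ℕ → PPCond R, (∀ i, PLe p.2 (c i)) ∧ (∀ i, PLe (c i) p.1) ∧
    (∀ i, PLe (c i) (c (i + 1))) ∧ ∀ i, (c (i + 1), c i) ∈ P

theorem exists_fan {le : PPCond R → PPCond R → Prop} (H : Defble le)
    (hno : ∀ φ ψ, ¬ MinPair le φ ψ) (hn : ¬ le (ptop R) (pbot R)) :
    ∃ P : Set (PPCond R × PPCond R), P.Countable ∧ (ptop R, pbot R) ∈ P ∧ Fan P ∧
      ∀ p ∈ P, ¬ PLe p.1 p.2 := by
  let Q := {p : PPCond R × PPCond R // PLe p.2 p.1 ∧ ¬ le p.1 p.2}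
  have hc : ∀ p : Q, ∃ χ, PLe p.1.2 χ ∧ PLe χ p.1.1 ∧ ¬ le χ p.1.2 ∧ ¬ le p.1.1 χ := by
    intro p
    have : ∃ χ, le p.1.2 χ ∧ le χ p.1.1 ∧ ¬ le χ p.1.2 ∧ ¬ le p.1.1 χ := by
      by_contra h
      refine hno _ _ ⟨H.of_le p.2.1, p.2.2, fun χ k1 k2 => ?_⟩
      by_contra h'
      push Not at h'
      exact h ⟨χ, k1, k2, h'.1, h'.2⟩
    obtain ⟨χ, k1, k2, k3, k4⟩ := this
    refine ⟨(χ.inf p.1.1).sup p.1.2, le_sup_right' _ _, (inf_le_right' _ _).sup_le p.2.1,
      fun h => k3 (H.trans (H.le_inf (H.refl _) k2) (H.trans (H.of_le (le_sup_left' _ _)) h)),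
      fun h => k4 (H.trans h (H.sup_le (H.of_le (inf_le_left' _ _)) k1))⟩
  choose c hc1 hc2 hc3 hc4 using hc
  let nxt : Bool → Q → Q := fun b p => match b with
    | false => ⟨(c p, p.1.2), hc1 p, hc3 p⟩
    | true => ⟨(p.1.1, c p), hc2 p, hc4 p⟩
  let T : List Bool → Q := fun s => s.foldr nxt ⟨(ptop R, pbot R), pbot_le _, hn⟩
  refine ⟨Set.range fun s => (T s).1, Set.countable_range _, ⟨[], rfl⟩, ?_, ?_⟩
  · rintro _ ⟨s, rfl⟩
    let t : ℕ → List Bool := fun i => List.replicate i true ++ s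
    have ht : ∀ i, T (t (i + 1)) = nxt true (T (t i)) := fun i => rfl
    have h1 : ∀ i, (T (t i)).1.1 = (T s).1.1 := fun i => by
      induction i with
      | zero => rfl
      | succ i ih => rw [ht]; exact ih
    refine ⟨fun i => (T (t i)).1.2, fun i => ?_, fun i => h1 i ▸ (T (t i)).2.1,
      fun i => hc1 _, fun i => ⟨false :: t i, rfl⟩⟩
    induction i with
    | zero => exact PLe.refl _
    | succ i ih => exact ih.trans (hc1 _)
  · rintro _ ⟨s, rfl⟩ h
    exact (T s).2.2 (H.of_le h)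

end Pool.Agent.Lib.MP_1e63be_al
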