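import Pool.Agent.Lib.MP_1e63be_al.AC

set_option autoImplicit false
set_option linter.unusedSectionVars false

universe u v w

namespace Pool.Agent.Lib.MP_1e63be_al

variable {R : Type u} [Ring R]

theorem chain_bound {α : Type v} [Nonempty α] {r : α → α → Prop} (hrefl : ∀ a, r a a)
    (htrans : ∀ {a b c}, r a b → r b c → r a c) {c : Set α} (hc : IsChain r c)
    (s : Finset α) (hs : ∀ x ∈ s, x ∈ c) : ∃ m, (s.Nonempty → m ∈ c) ∧ ∀ x ∈ s, r x m := by
  classical
  induction s using Finset.induction_on with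
  | empty => exact ⟨Classical.arbitrary α, by simp, by simp⟩
  | insert a s ha ih =>
    obtain ⟨m, hm, hm'⟩ := ih (fun x hx => hs x (Finset.mem_insert_of_mem hx))
    have hac : a ∈ c := hs a (Finset.mem_insert_self a s)
    rcases s.eq_empty_or_nonempty with rfl | hne
    · exact ⟨a, fun _ => hac, fun x hx => by
        have : x = a := by simpa using hx
        exact this ▸ hrefl _⟩
    · by_cases ham : a = m
      · refine ⟨m, fun _ => hm hne, fun x hx => ?_⟩
        rcases Finset.mem_insert.1 hx with rfl | hx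
        · exact ham ▸ hrefl _
        · exact hm' x hx
      · rcases hc hac (hm hne) ham with h | h
        · refine ⟨m, fun _ => hm hne, fun x hx => ?_⟩
          rcases Finset.mem_insert.1 hx with rfl | hx
          · exact h
          · exact hm' x hx
        · refine ⟨a, fun _ => hac, fun x hx => ?_⟩
          rcases Finset.mem_insert.1 hx with rfl | hx
          · exact hrefl _
          · exact htrans (hm' x hx) h

variable {N : Type u} [AddCommGroup N] [Module R N]

theorem exists_min_ideal (hN : AC R N) (a : N) : ∃ f : N →ₗ[R] N, f a = a ∧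
    ∀ s : N →ₗ[R] N, s a = a → ∃ g : N →ₗ[R] N, g ∘ₗ s ∘ₗ f = f := by
  classical
  let A := {f : N →ₗ[R] N // f a = a}
  have : Nonempty A := ⟨⟨LinearMap.id, rfl⟩⟩
  let r : A → A → Prop := fun f f' => ∃ s : N →ₗ[R] N, f'.1 = s ∘ₗ f.1
  have hrefl : ∀ f, r f f := fun f => ⟨LinearMap.id, rfl⟩
  have htrans : ∀ {f g h}, r f g → r g h → r f h := by
    rintro f g h ⟨s, hs⟩ ⟨t, ht⟩
    exact ⟨t ∘ₗ s, by rw [ht, hs]; rfl⟩
  obtain ⟨f, hf⟩ := exists_maximal_of_chains_bounded (r := r) (fun c hc => by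
    let e : Option (c × N) → N × (c →₀ N) := fun j =>
      j.elim (a, 0) (fun p => (p.2, -Finsupp.single p.1 (p.1.1.1 p.2)))
    obtain ⟨h, hh⟩ := hN (N × (c →₀ N)) (Option (c × N)) e (fun j => j.elim a (fun _ => 0))
      (fun s => by
        obtain ⟨m, -, hm⟩ := chain_bound hrefl htrans hc
          ((Finset.eraseNone s).image (fun p => p.1.1)) (fun x hx => by
            obtain ⟨p, -, rfl⟩ := Finset.mem_image.1 hx
            exact p.1.2)
        have : ∀ f : c, ∃ t : N →ₗ[R] N, r f.1 m → m.1 = t ∘ₗ f.1.1 := fun f => by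
          by_cases h : r f.1 m
          · obtain ⟨t, ht⟩ := h; exact ⟨t, fun _ => ht⟩
          · exact ⟨0, fun h' => absurd h' h⟩
        choose t ht using this
        refine ⟨LinearMap.coprod m.1 (Finsupp.lsum ℕ t), fun j hj => ?_⟩
        rcases j with _ | p
        · simp [e, m.2]
        · have h1 := ht p.1 (hm _ (Finset.mem_image.2 ⟨p, by simpa using hj, rfl⟩))
          simp only [e, Option.elim_some, LinearMap.coprod_apply, map_neg, Finsupp.lsum_single]
          simp [h1])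
    refine ⟨⟨h ∘ₗ LinearMap.inl R _ _, by simpa [e] using hh none⟩, fun f hf => ?_⟩
    refine ⟨h ∘ₗ LinearMap.inr R _ _ ∘ₗ Finsupp.lsingle (⟨f, hf⟩ : c), LinearMap.ext fun x => ?_⟩
    have h1 := hh (some (⟨f, hf⟩, x))
    have h2 : e (some (⟨f, hf⟩, x)) = (x, 0) - (0, Finsupp.single (⟨f, hf⟩ : c) (f.1 x)) := by
      simp [e]
    rw [h2, map_sub] at h1
    simpa using sub_eq_zero.1 h1) (fun h1 h2 => htrans h1 h2)
  refine ⟨f.1, f.2, fun s hs => ?_⟩
  obtain ⟨g, hg⟩ := hf ⟨s ∘ₗ f.1, by simp [f.2, hs]⟩ ⟨s, rfl⟩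
  exact ⟨g, hg.symm⟩

theorem exists_hull (hN : AC R N) (a : N) : ∃ e : N →ₗ[R] N, e ∘ₗ e = e ∧ e a = a ∧
    ∀ s : N →ₗ[R] N, s a = a → ∃ g : N →ₗ[R] N, g ∘ₗ s ∘ₗ e = e := by
  classical
  obtain ⟨f, hfa, hf⟩ := exists_min_ideal hN a
  let P : Set (Set N) := {B | ∃ s : N →ₗ[R] N, s a = a ∧ ∀ b ∈ B, s (f b) = b}
  obtain ⟨B, ⟨s, hsa, hs⟩, hB⟩ := zorn_subset P (fun c hcP hc => by
    refine ⟨⋃₀ c, ?_, fun B hB => Set.subset_sUnion_of_mem hB⟩
    obtain ⟨h, hh⟩ := hN N (Option (⋃₀ c : Set N)) (fun j => j.elim a (fun b => f b.1))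
      (fun j => j.elim a (fun b => b.1)) (fun t => by
        have hch : ∀ b : (⋃₀ c : Set N), ∃ B ∈ c, b.1 ∈ B := fun b => b.2
        choose β hβ hβ' using hch
        obtain ⟨m, hm, hm'⟩ := chain_bound (r := (· ⊆ ·)) (fun _ => subset_rfl)
          (fun h1 h2 => h1.trans h2) hc ((Finset.eraseNone t).image β) (fun x hx => by
            obtain ⟨p, -, rfl⟩ := Finset.mem_image.1 hx
            exact hβ p)
        rcases ((Finset.eraseNone t).image β).eq_empty_or_nonempty with h0 | h0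
        · refine ⟨LinearMap.id, fun j hj => ?_⟩
          rcases j with _ | b
          · rfl
          · exfalso
            have : β b ∈ (Finset.eraseNone t).image β :=
              Finset.mem_image.2 ⟨b, by simpa using hj, rfl⟩
            rw [h0] at this; simp at this
        · obtain ⟨s, hsa, hs⟩ := hcP (hm h0)
          refine ⟨s, fun j hj => ?_⟩
          rcases j with _ | b
          · exact hsa
          · exact hs b.1 (hm' (β b) (Finset.mem_image.2 ⟨b, by simpa using hj, rfl⟩) (hβ' b)))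
    exact ⟨h, hh none, fun b hb => hh (some ⟨b, hb⟩)⟩)
  let e := s ∘ₗ f
  have hea : e a = a := by simp [e, hfa, hsa]
  have hmin : ∀ t : N →ₗ[R] N, t a = a → ∃ g : N →ₗ[R] N, g ∘ₗ t ∘ₗ e = e := by
    intro t ht
    obtain ⟨g, hg⟩ := hf (t ∘ₗ s) (by simp [hsa, ht])
    refine ⟨s ∘ₗ g, LinearMap.ext fun x => ?_⟩
    have := LinearMap.congr_fun hg x
    simp only [LinearMap.comp_apply, e] at this ⊢
    rw [this]
  refine ⟨e, ?_, hea, hmin⟩
  obtain ⟨g, hg⟩ := hmin e hea
  have hg' : ∀ x, g (e (e x)) = e x := fun x => LinearMap.congr_fun hg x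
  have hrange : Set.range e ∈ P := by
    refine ⟨g ∘ₗ s, ?_, ?_⟩
    · have := hg' a
      rw [hea, hea] at this
      simp [hsa, this]
    · rintro _ ⟨x, rfl⟩
      exact hg' x
  have hsub : B ⊆ Set.range e := fun b hb => ⟨b, hs b hb⟩
  have := hB hrange hsub
  exact LinearMap.ext fun x => hs _ (this ⟨x, rfl⟩)

theorem idem_of_indec (hI : IsIndec R N) {e : N →ₗ[R] N} (he : e ∘ₗ e = e) :
    e = 0 ∨ e = LinearMap.id := by
  have he' : ∀ x, e (e x) = e x := fun x => LinearMap.congr_fun he x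
  have hc : IsCompl (LinearMap.range e) (LinearMap.ker e) := by
    constructor
    · rw [Submodule.disjoint_def]
      rintro _ ⟨x, rfl⟩ hx
      rw [← he' x]; exact hx
    · rw [codisjoint_iff, eq_top_iff]
      intro x _
      rw [Submodule.mem_sup]
      exact ⟨e x, ⟨x, rfl⟩, x - e x, by simp [he'], by simp⟩
  rcases hI.2 _ _ hc with h | h
  · left; exact LinearMap.range_eq_bot.1 h
  · right
    refine LinearMap.ext fun x => ?_
    have : x - e x ∈ LinearMap.ker e := by simp [he']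
    rw [h, Submodule.mem_bot] at this
    exact (sub_eq_zero.1 this).symm

theorem bij_of_comp {N' : Type u} [AddCommGroup N'] [Module R N'] [Nontrivial N]
    (hI : IsIndec R N') (f : N →ₗ[R] N') (g : N' →ₗ[R] N)
    (h : Function.Bijective (g ∘ₗ f)) : Function.Bijective f := by
  let k := LinearEquiv.ofBijective (g ∘ₗ f) h
  have hk : ∀ x, k.symm (g (f x)) = x := fun x => k.symm_apply_apply x
  refine ⟨fun x y hxy => by rw [← hk x, ← hk y, hxy], ?_⟩
  rcases idem_of_indec hI (e := f ∘ₗ k.symm.toLinearMap ∘ₗ g)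
    (LinearMap.ext fun x => by simp [hk]) with h0 | h1
  · exfalso
    obtain ⟨x, hx⟩ := exists_ne (0 : N)
    have h2 := LinearMap.congr_fun h0 (f x)
    simp only [LinearMap.comp_apply, LinearEquiv.coe_coe, hk, LinearMap.zero_apply] at h2
    apply hx
    rw [← hk x, h2]; simp
  · intro y
    exact ⟨k.symm (g y), LinearMap.congr_fun h1 y⟩

theorem bij_of_fix (hN : AC R N) (hI : IsIndec R N) {a : N} (ha : a ≠ 0) (f : N →ₗ[R] N)
    (hf : f a = a) : Function.Bijective f := by
  have := hI.1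
  obtain ⟨e, he, hea, hmin⟩ := exists_hull hN a
  rcases idem_of_indec hI he with h0 | h1
  · exact absurd (by rw [← hea, h0]; rfl) ha
  · obtain ⟨g, hg⟩ := hmin f hf
    rw [h1] at hg
    refine bij_of_comp hI f g ?_
    have : g ∘ₗ f = LinearMap.id := hg
    rw [this]; exact Function.bijective_id

theorem mem_of_bij {N' : Type u} [AddCommGroup N'] [Module R N'] {f : N →ₗ[R] N'}
    (hf : Function.Bijective f) {φ : PPCond R} {x : N} (h : f x ∈ φ.eval N') : x ∈ φ.eval N := by
  have := PPCond.map_mem (LinearEquiv.ofBijective f hf).symm.toLinearMap h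
  simpa using this

theorem local_end (hN : AC R N) (hI : IsIndec R N) (h : N →ₗ[R] N) :
    Function.Bijective h ∨ Function.Bijective (LinearMap.id - h : N →ₗ[R] N) := by
  classical
  have := hI.1
  by_contra hcon
  push Not at hcon
  obtain ⟨hn1, hn2⟩ := hcon
  obtain ⟨a, ha⟩ := exists_ne (0 : N)
  have : ∃ φ : PPCond R, h a ∈ φ.eval N ∧ a ∉ φ.eval N := by
    by_contra hc
    push Not at hc
    obtain ⟨g, hg⟩ := hN.realize0 (h a) a hc
    exact hn1 (bij_of_comp hI h g (bij_of_fix hN hI ha _ hg))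
  obtain ⟨φ, hφ1, hφ2⟩ := this
  let A := {b : N // b - a ∈ φ.eval N}
  have : Nonempty A := ⟨⟨a, by simpa using φ.zero_mem⟩⟩
  let r : A → A → Prop := fun b b' => ∃ s : N →ₗ[R] N, b'.1 = s b.1
  have hrefl : ∀ f, r f f := fun f => ⟨LinearMap.id, rfl⟩
  have htrans : ∀ {f g h}, r f g → r g h → r f h := by
    rintro f g h ⟨s, hs⟩ ⟨t, ht⟩
    exact ⟨t ∘ₗ s, by rw [ht, hs]; rfl⟩
  obtain ⟨b, hb⟩ := exists_maximal_of_chains_bounded (r := r) (fun c hc => by
    let e : (Fin φ.m ⊕ c) → (R × (Fin φ.n → R)) × (c →₀ N) :=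
      Sum.elim (fun j => ((φ.H 0 j, fun i => φ.H i.succ j), 0))
        (fun p => ((1, 0), -Finsupp.single p p.1.1))
    obtain ⟨k, hk⟩ := hN _ _ e (Sum.elim (fun j => φ.H 0 j • a) (fun _ => 0)) (fun s => by
      obtain ⟨m, -, hm⟩ := chain_bound hrefl htrans hc (s.toRight.image (fun p => p.1))
        (fun x hx => by
          obtain ⟨p, -, rfl⟩ := Finset.mem_image.1 hx
          exact p.2)
      have : ∀ f : c, ∃ t : N →ₗ[R] N, r f.1 m → m.1 = t f.1.1 := fun f => by
        by_cases h : r f.1 m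
        · obtain ⟨t, ht⟩ := h; exact ⟨t, fun _ => ht⟩
        · exact ⟨0, fun h' => absurd h' h⟩
      choose t ht using this
      obtain ⟨w, hw⟩ := m.2
      refine ⟨LinearMap.coprod (LinearMap.coprod (LinearMap.toSpanSingleton R N m.1)
        (Fintype.linearCombination R w)) (Finsupp.lsum ℕ t), fun j hj => ?_⟩
      rcases j with j | p
      · have := hw j
        simp only [e, Sum.elim_inl, LinearMap.coprod_apply, LinearMap.toSpanSingleton_apply,
          Fintype.linearCombination_apply, map_zero, add_zero, smul_sub] at this ⊢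
        linear_combination (norm := abel1) this
      · have h1 := ht p (hm _ (Finset.mem_image.2 ⟨p, by simpa using hj, rfl⟩))
        simp only [e, Sum.elim_inr, LinearMap.coprod_apply, map_neg, Finsupp.lsum_single]
        simp [h1])
    refine ⟨⟨k ((1, 0), 0), fun i => k ((0, Pi.single i 1), 0), fun j => ?_⟩, fun f hf => ?_⟩
    · have h1 := hk (.inl j)
      have : e (.inl j) = φ.H 0 j • ((1, 0), 0) + ∑ i : Fin φ.n, φ.H i.succ j •
          ((((0 : R), (Pi.single i 1 : Fin φ.n → R)), (0 : c →₀ N))) := by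
        ext1
        · ext1
          · simp [e, Prod.fst_sum]
          · ext i; simp [e, Prod.fst_sum, Prod.snd_sum, Pi.single_apply]
        · simp [e, Prod.snd_sum]
      rw [this] at h1
      simp only [map_add, map_smul, map_sum, Sum.elim_inl] at h1
      rw [smul_sub]
      linear_combination (norm := abel1) h1
    · refine ⟨k ∘ₗ LinearMap.inr R _ _ ∘ₗ Finsupp.lsingle (⟨f, hf⟩ : c), ?_⟩
      have h1 := hk (.inr ⟨f, hf⟩)
      have h2 : e (.inr ⟨f, hf⟩) = ((1, 0), 0) - (0, Finsupp.single (⟨f, hf⟩ : c) f.1) := by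
        simp [e]
      rw [h2, map_sub] at h1
      simpa using sub_eq_zero.1 h1) (fun h1 h2 => htrans h1 h2)
  have hb0 : b.1 ≠ 0 := fun h0 => hφ2 (by
    have := PPCond.neg_mem b.2
    simpa [h0] using this)
  have hmem : (b.1 - h b.1) - a ∈ φ.eval N := by
    have h1 := PPCond.sub_mem (PPCond.sub_mem b.2 (PPCond.map_mem h b.2)) hφ1
    have : b.1 - a - h (b.1 - a) - h a = (b.1 - h b.1) - a := by rw [map_sub]; abel
    rwa [this] at h1
  obtain ⟨s, hs⟩ := hb ⟨b.1 - h b.1, hmem⟩ ⟨LinearMap.id - h, rfl⟩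
  exact hn2 (bij_of_comp hI _ s (bij_of_fix hN hI hb0 _ hs.symm))

theorem link2 (hN : AC R N) (hI : IsIndec R N) {a a' : N} {ψ ψ' : PPCond R}
    (ha : a ∉ ψ.eval N) (ha' : a' ∉ ψ'.eval N) :
    ∃ θ : F2 R, θ.ev N a a' ∧ a ∉ ((θ.img ψ').sup ψ).eval N := by
  by_contra hc
  push Not at hc
  obtain ⟨h, hh⟩ := hN.realize2 a a' a 0 ((ψ.subst 1 0).and (ψ'.subst 0 1)) (fun χ hχ => by
    obtain ⟨y, hy, hay⟩ := (mem_sup _ _ _ _).1 (hc χ hχ)
    obtain ⟨z, hz, hχz⟩ := (mem_img _ _ _ _).1 hay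
    refine ⟨a - y, z, hχz, ?_⟩
    rw [ev_and, ev_subst, ev_subst]
    exact ⟨by simpa using PPCond.neg_mem hy, by simpa using hz⟩)
  rw [ev_and, ev_subst, ev_subst] at hh
  simp only [one_smul, zero_smul, add_zero, sub_zero, zero_add] at hh
  rcases local_end hN hI h with hb | hb
  · exact ha' (mem_of_bij hb hh.2)
  · refine ha (mem_of_bij hb ?_)
    simpa using PPCond.neg_mem hh.1

end Pool.Agent.Lib.MP_1e63be_al
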