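import Pool.Agent.Lib.MP_1e63be_al.Count

set_option autoImplicit false
set_option linter.unusedSectionVars false

universe u v w

namespace Pool.Agent.Lib.MP_1e63be_al

open Cardinal TensorProduct

theorem exists_orbit_reps {Ω S J : Type u} [Field Ω] [IsAlgClosed Ω] [Ring S] [Algebra Ω S]
    (e : Module.Basis J Ω S) (k : Subfield Ω) (hk : ∀ i j l, e.repr (e i * e j) l ∈ k) :
    ∃ Y : Set (F2 S), #Y ≤ max ℵ₀ (max #J #k) ∧ ∀ θ : F2 S, ∃ τ : S ≃+* S,
      (∀ s, (∀ j, e.repr s j ∈ k) → τ s = s) ∧ θ.map τ ∈ Y := by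
  obtain ⟨ι, b, hb⟩ := exists_isTranscendenceBasis' k Ω
  obtain ⟨O, hO1, hO2⟩ : ∃ O : Set ι, O.Countable ∧ ∀ F : Set ι, F.Finite →
      ∃ π : Equiv.Perm ι, π '' F ⊆ O := by
    rcases finite_or_infinite ι with h | h
    · exact ⟨Set.univ, Set.countable_univ, fun F _ => ⟨1, Set.subset_univ _⟩⟩
    · obtain ⟨O, -, h1, h2⟩ := (Set.infinite_univ (α := ι)).exists_subset_countable_infinite
      refine ⟨O, h1, fun F hF => ?_⟩
      obtain ⟨π, -, hπ⟩ := exists_move ∅ O F (Set.empty_disjoint _) h2 hF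
      exact ⟨π, by simpa using hπ⟩
  let sp : Set ι → Set S := fun T => {s | ∀ j, e.repr s j ∈ acl k (b '' T)}
  have hmono : ∀ {T T'}, T ⊆ T' → sp T ⊆ sp T' := fun h r hr j =>
    acl_mono k (Set.image_mono h) (hr j)
  have hfin : ∀ r, ∃ F : Set ι, F.Finite ∧ r ∈ sp F := fun r => by
    have : ∀ j, ∃ F : Set ι, F.Finite ∧ e.repr r j ∈ acl k (b '' F) := fun j => by
      obtain ⟨I, h1, h2, h3⟩ := acl_fin k (X := b '' Set.univ) (x := e.repr r j)
        (by rw [Set.image_univ]; exact hb.isAlgebraic.1 _)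
      obtain ⟨t, -, htf, rfl⟩ := Set.exists_subset_image_finite_and.1 ⟨I, h1, h2, rfl⟩
      exact ⟨t, htf, h3⟩
    choose F h1 h2 using this
    refine ⟨⋃ j ∈ (e.repr r).support, F j, (e.repr r).support.finite_toSet.biUnion
      (fun j _ => h1 j), fun j => ?_⟩
    by_cases hj : j ∈ (e.repr r).support
    · exact acl_mono k (Set.image_mono (Set.subset_biUnion_of_mem (u := F) hj)) (h2 j)
    · rw [Finsupp.notMem_support_iff.1 hj]; exact zero_mem_acl k _
  refine ⟨{θ | SupF (sp O) θ}, (mk_supF_le _).trans (max_le (le_max_left _ _)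
    ((mk_coord_le e _).trans (max_le (le_max_left _ _) ?_))), fun θ => ?_⟩
  · rw [← Cardinal.mul_eq_self (le_max_left ℵ₀ (max #J #k))]
    refine mul_le_mul ((le_max_left _ _).trans (le_max_right _ _)) ((mk_acl_le k _).trans
      (max_le (max_le ((le_max_right _ _).trans (le_max_right _ _)) ?_) (le_max_left _ _)))
      zero_le zero_le
    exact (Cardinal.le_aleph0_iff_set_countable.2 (hO1.image b)).trans (le_max_left _ _)
  · choose F h1 h2 using fun i : (Fin θ.m ⊕ Fin θ.m) ⊕ (Fin θ.n × Fin θ.m) =>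
      hfin (Sum.elim (Sum.elim θ.A θ.B) (fun p => θ.C p.1 p.2) i)
    have h3 : SupF (sp (⋃ i, F i)) θ :=
      ⟨fun j => hmono (Set.subset_iUnion F _) (h2 (.inl (.inl j))),
        fun j => hmono (Set.subset_iUnion F _) (h2 (.inl (.inr j))),
        fun i j => hmono (Set.subset_iUnion F _) (h2 (.inr (i, j)))⟩
    obtain ⟨π, hπ⟩ := hO2 _ (Set.finite_iUnion h1)
    obtain ⟨τ, k1, k2⟩ := exists_aut_acl k hb ∅ π (by simp)
    have k3 : ∀ c : k, τ (algebraMap k Ω c) = algebraMap k Ω c := fun c => k1 _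
      (isAlgebraic_algebraMap (algebraMap k (Algebra.adjoin k (b '' ∅)) c))
    obtain ⟨σ, hσ⟩ := exists_ring_aut e τ (fun i j l => k3 ⟨_, hk i j l⟩)
    refine ⟨σ, fun s hs => e.repr.injective (Finsupp.ext fun j => by
      rw [hσ]; exact k3 ⟨_, hs j⟩), h3.map fun r hr => hmono hπ fun j => ?_⟩
    have := acl_map k τ k3 (hr j)
    rw [hσ]
    rwa [Set.image_image, show (fun i => τ (b i)) = fun i => b (π i) from funext k2,
      ← Set.image_image b π] at this

theorem fewOrb_of_basis {R Ω S J : Type u} [Ring R] [Field Ω] [IsAlgClosed Ω] [Ring S]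
    [Algebra Ω S] (e : Module.Basis J Ω S) (f : R →+* S) : FewOrb f (max #J ℵ₀) := by
  intro A
  let k : Subfield Ω := Subfield.closure
    ((Set.range fun p : J × J × J => e.repr (e p.1 * e p.2.1) p.2.2) ∪
      Set.range fun p : A × J => e.repr (f p.1) p.2)
  have hc : ℵ₀ ≤ max #A (max #J ℵ₀) := (le_max_right _ _).trans (le_max_right _ _)
  have hJ : #J ≤ max #A (max #J ℵ₀) := (le_max_left _ _).trans (le_max_right _ _)
  have hmul : ∀ {a b : Cardinal.{u}}, a ≤ max #A (max #J ℵ₀) → b ≤ max #A (max #J ℵ₀) →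
      a * b ≤ max #A (max #J ℵ₀) := fun h1 h2 =>
    (mul_le_mul h1 h2 zero_le zero_le).trans (Cardinal.mul_eq_self hc).le
  have hk : #k ≤ max #A (max #J ℵ₀) := by
    refine (Subfield.cardinalMk_closure_le_max _).trans (max_le ((Cardinal.mk_union_le _ _).trans
      ((Cardinal.add_le_max _ _).trans (max_le (max_le (Cardinal.mk_range_le.trans ?_)
        (Cardinal.mk_range_le.trans ?_)) hc))) hc)
    · simp only [Cardinal.mk_prod, Cardinal.lift_id]
      exact hmul hJ (hmul hJ hJ)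
    · simp only [Cardinal.mk_prod, Cardinal.lift_id]
      exact hmul (le_max_left _ _) hJ
  obtain ⟨Y, h1, h2⟩ := exists_orbit_reps e k
    (fun i j l => Subfield.subset_closure (Or.inl ⟨(i, j, l), rfl⟩))
  choose τ h3 h4 using h2
  let g : F2 R → Y := fun θ => ⟨_, h4 (θ.map f)⟩
  have hfix : ∀ θ, ∀ r ∈ A, τ θ (f r) = f r := fun θ r hr =>
    h3 θ _ fun j => Subfield.subset_closure (Or.inr ⟨(⟨r, hr⟩, j), rfl⟩)
  have : Nonempty (F2 R) := ⟨(ptop R).subst 0 0⟩
  refine ⟨Set.range (Function.invFun g), Cardinal.mk_range_le.trans (h1.trans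
    (max_le hc (max_le hJ hk))), fun θ => ⟨_, ⟨g θ, rfl⟩,
      (τ (θ.map f)).trans (τ ((Function.invFun g (g θ)).map f)).symm, fun r hr => ?_, ?_⟩⟩
  · rw [RingEquiv.trans_apply, hfix _ r hr, RingEquiv.symm_apply_eq, hfix _ r hr]
  · have h5 : ((Function.invFun g (g θ)).map f).map (τ ((Function.invFun g (g θ)).map f)) =
        (θ.map f).map (τ (θ.map f)) :=
      congrArg Subtype.val (Function.invFun_eq (f := g) ⟨θ, rfl⟩)
    change ((θ.map f).map (τ (θ.map f))).map (τ ((Function.invFun g (g θ)).map f)).symm = _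
    rw [← h5]
    generalize (Function.invFun g (g θ)).map f = ρ
    cases ρ; simp [F2.map]

section
variable (K R : Type u) [Field K] [Ring R] [Algebra K R] (Ω : Type u) [Field Ω] [Algebra K Ω]

noncomputable def incl : R →+* Ω ⊗[K] R :=
  (Algebra.TensorProduct.includeRight : R →ₐ[K] Ω ⊗[K] R).toRingHom

theorem incl_apply (r : R) : incl K R Ω r = 1 ⊗ₜ r := rfl

theorem ple_of_incl (φ ψ : PPCond R) (h : PLe (φ.map (incl K R Ω)) (ψ.map (incl K R Ω))) :
    PLe φ ψ := by
  obtain ⟨ρ, hρ⟩ := (Algebra.linearMap K Ω).exists_leftInverse_of_injective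
    (LinearMap.ker_eq_bot.2 (algebraMap K Ω).injective)
  have h1 : ρ 1 = 1 := by simpa using LinearMap.congr_fun hρ 1
  let π : Ω ⊗[K] R →ₗ[K] R := (TensorProduct.lid K R).toLinearMap ∘ₗ ρ.rTensor R
  have hπ : ∀ a r, π (a ⊗ₜ r) = ρ a • r := fun a r => by simp [π]
  refine ple_of_res _ π.toAddMonoidHom ?_ (fun r s => ?_) (fun r s => ?_) h
  · change π (1 ⊗ₜ 1) = 1
    rw [hπ, h1, one_smul]
  · change π _ = r * π s
    induction s with
    | zero => simp
    | tmul a b => rw [incl_apply, Algebra.TensorProduct.tmul_mul_tmul, hπ, hπ]; simp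
    | add a b h1 h2 => rw [mul_add, map_add, map_add, h1, h2, mul_add]
  · change π _ = π s * r
    induction s with
    | zero => simp
    | tmul a b => rw [incl_apply, Algebra.TensorProduct.tmul_mul_tmul, hπ, hπ]; simp
    | add a b h1 h2 => rw [add_mul, map_add, map_add, h1, h2, add_mul]

theorem sepData_of_finite [Algebra.IsSeparable K Ω] {X : Set (Ω ⊗[K] R)} (hX : X.Finite) :
    SepData (incl K R Ω) X := by
  choose t ht using fun s : Ω ⊗[K] R => TensorProduct.exists_finset s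
  let Y : Set Ω := ⋃ s ∈ X, Prod.fst '' (t s : Set (Ω × R))
  have hY : Y.Finite := hX.biUnion fun s _ => (t s).finite_toSet.image _
  let L := IntermediateField.adjoin K Y
  have : Finite Y := hY
  have : FiniteDimensional K L := IntermediateField.finiteDimensional_adjoin
    (fun x _ => Algebra.IsSeparable.isIntegral K x)
  have : Algebra.FormallyUnramified K L := Algebra.FormallyUnramified.of_isSeparable K L
  obtain ⟨d, a, b, hab⟩ := TensorProduct.exists_sum_tmul_eq (Algebra.FormallyUnramified.elem K L)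
  let m : L →+* Ω ⊗[K] R := (algebraMap Ω (Ω ⊗[K] R)).comp (algebraMap L Ω)
  have hm : ∀ (l : L) s, m l * s = s * m l := fun l s => Algebra.commutes _ _
  have hK : ∀ (c : K) (l : L), m (c • l) = incl K R Ω (algebraMap K R c) * m l := fun c l => by
    rw [Algebra.smul_def, map_mul]
    congr 1
    exact ((IsScalarTower.algebraMap_apply K Ω (Ω ⊗[K] R) c).symm).trans
      (AlgHom.commutes (Algebra.TensorProduct.includeRight : R →ₐ[K] Ω ⊗[K] R) c).symm
  refine ⟨d, fun i => m (a i), fun i => m (b i), ?_, fun i r => hm _ _, fun i r => hm _ _,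
    fun s hs N _ _ g hg => ?_⟩
  · have := Algebra.FormallyUnramified.lmul_elem (R := K) (S := L)
    rw [hab, map_sum] at this
    simp only [Algebra.TensorProduct.lmul'_apply_tmul] at this
    simp only [← map_mul]
    rw [← map_sum, this, map_one]
  let G : N →+ N := AddMonoidHom.mk' (fun x => ∑ i, m (a i) • g (m (b i) • x)) (fun x y => by
    simp only [smul_add, map_add, Finset.sum_add_distrib])
  have hG1 : ∀ r x, G (incl K R Ω r • x) = incl K R Ω r • G x := by
    intro r x
    change ∑ i, m (a i) • g (m (b i) • incl K R Ω r • x) =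
      incl K R Ω r • ∑ i, m (a i) • g (m (b i) • x)
    rw [Finset.smul_sum]
    refine Finset.sum_congr rfl fun k _ => ?_
    rw [← mul_smul (m (b k)), hm, mul_smul, hg, ← mul_smul, hm, mul_smul]
  have hG2 : ∀ (l : L) x, G (m l • x) = m l • G x := by
    intro l x
    let B : L →+ L →+ N := AddMonoidHom.mk' (fun p => AddMonoidHom.mk'
      (fun q => m p • g (m q • x)) (fun q q' => by simp only [map_add, add_smul, smul_add]))
      (fun p p' => by ext q; simp only [map_add, add_smul]; rfl)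
    have hB : ∀ (c : K) p q, B (c • p) q = B p (c • q) := fun c p q => by
      change m (c • p) • g (m q • x) = m p • g (m (c • q) • x)
      rw [hK, hK, mul_smul _ (m q), hg, ← mul_smul (m p), hm p]
    have h1 := congrArg (TensorProduct.liftAddHom B hB)
      (Algebra.FormallyUnramified.one_tmul_mul_elem (R := K) (S := L) l)
    rw [hab, Finset.mul_sum, Finset.mul_sum, map_sum, map_sum] at h1
    simp only [Algebra.TensorProduct.tmul_mul_tmul, one_mul, TensorProduct.liftAddHom_tmul] at h1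
    change ∑ i, m (a i) • g (m (b i) • m l • x) = m l • ∑ i, m (a i) • g (m (b i) • x)
    rw [Finset.smul_sum]
    simp only [← mul_smul, ← map_mul, mul_comm (b _) l]
    exact h1
  intro w
  change G (s • w) = s • G w
  rw [ht s, Finset.sum_smul, Finset.sum_smul, map_sum]
  refine Finset.sum_congr rfl fun p hp => ?_
  have h2 : p.1 ⊗ₜ[K] p.2 = m ⟨p.1, IntermediateField.subset_adjoin _ _
      (Set.mem_biUnion hs ⟨p, hp, rfl⟩)⟩ * incl K R Ω p.2 := by
    change _ = (p.1 ⊗ₜ[K] (1 : R)) * (1 ⊗ₜ[K] p.2)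
    simp
  rw [h2, mul_smul, hG2, hG1, mul_smul]

end

theorem hasCBRank_top_perfect (K R : Type u) [Field K] [PerfectField K] [Ring R] [Algebra K R]
    (h : Module.rank K R < 𝔠) (hn : ∀ o : Ordinal.{u + 1}, ¬ rel PLe o (ptop R) (pbot R)) :
    HasCBRank (Zg R) ⊤ := by
  rw [Module.Free.rank_eq_card_chooseBasisIndex] at h
  refine hasCBRank_top_of_ext (incl K R (AlgebraicClosure K)) (ple_of_incl K R _) (fun θ => ?_)
    (max_lt h Cardinal.aleph0_lt_continuum) (fewOrb_of_basis
      (Algebra.TensorProduct.basis (AlgebraicClosure K) (Module.Free.chooseBasis K R)) _) hn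
  exact ⟨Set.range θ.A ∪ Set.range θ.B ∪ Set.range fun p : _ × _ => θ.C p.1 p.2,
    ⟨fun j => Or.inl (Or.inl ⟨j, rfl⟩), fun j => Or.inl (Or.inr ⟨j, rfl⟩),
      fun i j => Or.inr ⟨(i, j), rfl⟩⟩, sepData_of_finite K R _
    (((Set.finite_range _).union (Set.finite_range _)).union (Set.finite_range _))⟩

theorem cb_eq_perfect (K R : Type u) [Field K] [PerfectField K] [Ring R] [Algebra K R]
    [Nontrivial R] (h : Module.rank K R < 𝔠) :
    ∃ ρ : WithTop Ordinal.{u + 1}, HasCBRank (Zg R) ρ ∧ HasCBRank (Zg Rᵐᵒᵖ) ρ := by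
  by_cases k : ∃ o : Ordinal.{u + 1}, rel PLe o (ptop R) (pbot R)
  · obtain ⟨o, ho⟩ := k
    obtain ⟨ρ, hρ⟩ := exists_relRank (R := R)
    exact ⟨ρ, hasCBRank_of_relRank (isoCond_of_finite ho) hρ,
      hasCBRank_of_relRank (isoCond_of_finite ((rel_op_iff o).1 ho)) (relRank_op hρ)⟩
  · push Not at k
    refine ⟨⊤, hasCBRank_top_perfect K R h k,
      hasCBRank_top_perfect K Rᵐᵒᵖ ?_ fun o ho => k o ((rel_op_iff o).2 ho)⟩
    rwa [← (MulOpposite.opLinearEquiv K (M := R)).rank_eq]

end Pool.Agent.Lib.MP_1e63be_al
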