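import Pool.Agent.Lib.MP_1e63be_al.Complete

set_option autoImplicit false
set_option linter.unusedSectionVars false

universe u v w w'

namespace Pool.Agent.Lib.MP_1e63be_al

theorem tg_lift {α : Type v} {β : Type w} {r : α → α → Prop} {p : β → β → Prop} (f : α → β)
    (h : ∀ a b, r a b → p (f a) (f b)) {a b : α} (k : Relation.TransGen r a b) :
    Relation.TransGen p (f a) (f b) := Relation.TransGen.lift f h a b k

def step {α : Type v} (le : α → α → Prop) : α → α → Prop :=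
  Relation.TransGen (fun a b => le a b ∨ MinPair le a b)

noncomputable def rel {α : Type v} (le0 : α → α → Prop) (o : Ordinal.{w}) : α → α → Prop :=
  Ordinal.limitRecOn (motive := fun _ => α → α → Prop) o le0 (fun _ r => step r)
    (fun o _ r => fun a b => ∃ o', ∃ h : o' < o, r o' h a b)

section
variable {α : Type v} (le0 : α → α → Prop)

theorem rel_zero : rel le0 (0 : Ordinal.{w}) = le0 := by simp [rel]
theorem rel_succ (o : Ordinal.{w}) : rel le0 (o + 1) = step (rel le0 o) := by simp [rel]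
theorem rel_limit {o : Ordinal.{w}} (h : Order.IsSuccLimit o) (a b : α) :
    rel le0 o a b ↔ ∃ o' < o, rel le0 o' a b := by
  rw [rel, Ordinal.limitRecOn_limit _ _ _ _ h]
  simp [rel]

theorem rel_mono {o o' : Ordinal.{w}} (h : o ≤ o') {a b : α} (hab : rel le0 o a b) :
    rel le0 o' a b := by
  induction o' using Ordinal.limitRecOn with
  | zero => rwa [nonpos_iff_eq_zero.1 h] at hab
  | add_one o' ih =>
    rcases h.eq_or_lt with rfl | h
    · exact hab
    · rw [rel_succ]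
      exact Relation.TransGen.single (Or.inl (ih (Order.lt_add_one_iff.1 h)))
  | limit o' ho ih =>
    rcases h.eq_or_lt with rfl | h
    · exact hab
    · exact (rel_limit le0 ho a b).2 ⟨o, h, hab⟩

theorem rel_of {a b : α} (o : Ordinal.{w}) (h : le0 a b) : rel le0 o a b :=
  rel_mono le0 (zero_le (a := o)) (by rwa [rel_zero])

theorem rel_trans (ht : ∀ {a b c}, le0 a b → le0 b c → le0 a c) (o : Ordinal.{w}) {a b c : α}
    (h : rel le0 o a b) (h' : rel le0 o b c) : rel le0 o a c := by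
  induction o using Ordinal.limitRecOn with
  | zero => rw [rel_zero] at *; exact ht h h'
  | add_one o _ => rw [rel_succ] at *; exact h.trans h'
  | limit o ho ih =>
    rw [rel_limit le0 ho] at *
    obtain ⟨o1, h1, k1⟩ := h
    obtain ⟨o2, h2, k2⟩ := h'
    exact ⟨max o1 o2, max_lt h1 h2, ih _ (max_lt h1 h2) (rel_mono le0 (le_max_left _ _) k1)
      (rel_mono le0 (le_max_right _ _) k2)⟩

theorem rel_flip (o : Ordinal.{w}) : rel (flip le0) o = flip (rel le0 o) := by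
  induction o using Ordinal.limitRecOn with
  | zero => simp [rel_zero]
  | add_one o ih =>
    rw [rel_succ, rel_succ, ih]
    ext a b
    have : ∀ a b, (flip (rel le0 o) a b ∨ MinPair (flip (rel le0 o)) a b) ↔
        (rel le0 o b a ∨ MinPair (rel le0 o) b a) := fun a b =>
      or_congr Iff.rfl ⟨fun h => ⟨h.1, h.2.1, fun χ h1 h2 => (h.2.2 χ h2 h1).symm⟩,
        fun h => ⟨h.1, h.2.1, fun χ h1 h2 => (h.2.2 χ h2 h1).symm⟩⟩
    constructor
    · intro h
      exact Relation.transGen_swap.1 (tg_lift id (fun a b h => (this a b).1 h) h)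
    · intro h
      exact tg_lift id (fun a b h => (this a b).2 h) (Relation.transGen_swap.2 h)
  | limit o ho ih =>
    ext a b
    change _ ↔ rel le0 o b a
    rw [rel_limit _ ho, rel_limit _ ho]
    exact exists_congr fun o' => and_congr_right fun h => by rw [ih o' h]; rfl

end

theorem minPair_transfer {α : Type v} {β : Type w} {la : α → α → Prop} {lb : β → β → Prop}
    (ta : ∀ {a b c}, la a b → la b c → la a c) (tb : ∀ {a b c}, lb a b → lb b c → lb a c)
    (D : α → β) (D' : β → α) (hD : ∀ a b, la a b → lb (D a) (D b))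
    (hD' : ∀ a b, lb a b → la (D' a) (D' b))
    (h1 : ∀ a, la a (D' (D a)) ∧ la (D' (D a)) a) (h2 : ∀ b, lb b (D (D' b)) ∧ lb (D (D' b)) b)
    {a b : α} (h : MinPair la a b) : MinPair lb (D a) (D b) := by
  refine ⟨hD _ _ h.1, fun k => h.2.1 (ta (h1 a).1 (ta (hD' _ _ k) (h1 b).2)), fun χ k1 k2 => ?_⟩
  rcases h.2.2 (D' χ) (ta (h1 b).1 (hD' _ _ k1)) (ta (hD' _ _ k2) (h1 a).2) with k | k
  · exact Or.inl (tb (h2 χ).1 (hD _ _ k))
  · exact Or.inr (tb (hD _ _ k) (h2 χ).2)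

theorem rel_transfer {α : Type v} {β : Type w} {la : α → α → Prop} {lb : β → β → Prop}
    (ta : ∀ {a b c}, la a b → la b c → la a c) (tb : ∀ {a b c}, lb a b → lb b c → lb a c)
    (D : α → β) (D' : β → α) (hD : ∀ a b, la a b → lb (D a) (D b))
    (hD' : ∀ a b, lb a b → la (D' a) (D' b))
    (h1 : ∀ a, la a (D' (D a)) ∧ la (D' (D a)) a) (h2 : ∀ b, lb b (D (D' b)) ∧ lb (D (D' b)) b)
    (o : Ordinal.{w'}) :
    (∀ a b, rel la o a b → rel lb o (D a) (D b)) ∧
      (∀ a b, rel lb o a b → rel la o (D' a) (D' b)) := by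
  induction o using Ordinal.limitRecOn with
  | zero => rw [rel_zero, rel_zero]; exact ⟨hD, hD'⟩
  | add_one o ih =>
    rw [rel_succ, rel_succ]
    have k1 : ∀ a, rel la o a (D' (D a)) ∧ rel la o (D' (D a)) a := fun a =>
      ⟨rel_of la o (h1 a).1, rel_of la o (h1 a).2⟩
    have k2 : ∀ a, rel lb o a (D (D' a)) ∧ rel lb o (D (D' a)) a := fun a =>
      ⟨rel_of lb o (h2 a).1, rel_of lb o (h2 a).2⟩
    constructor
    · intro a b h
      refine tg_lift D (fun a b h => h.imp (ih.1 a b) ?_) h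
      exact minPair_transfer (la := rel la o) (lb := rel lb o) (rel_trans la ta o)
        (rel_trans lb tb o) D D' ih.1 ih.2 k1 k2
    · intro a b h
      refine tg_lift D' (fun a b h => h.imp (ih.2 a b) ?_) h
      exact minPair_transfer (la := rel lb o) (lb := rel la o) (rel_trans lb tb o)
        (rel_trans la ta o) D' D ih.2 ih.1 k2 k1
  | limit o ho ih =>
    constructor
    · intro a b h
      rw [rel_limit _ ho] at h ⊢
      obtain ⟨o', h1, h2⟩ := h
      exact ⟨o', h1, (ih o' h1).1 a b h2⟩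
    · intro a b h
      rw [rel_limit _ ho] at h ⊢
      obtain ⟨o', h1, h2⟩ := h
      exact ⟨o', h1, (ih o' h1).2 a b h2⟩

variable {R : Type u} [Ring R]

theorem Defble.of_good {le : PPCond R → PPCond R → Prop} (H : Defble le) {φ ψ : PPCond R}
    (h : ∀ (N : Type u) [AddCommGroup N] [Module R N], Good le N → φ.eval N ⊆ ψ.eval N) :
    le φ ψ := by
  by_contra hn
  obtain ⟨N, h1, h2⟩ := complete1 H hn
  exact h2 (h _ h1)

theorem Defble.step {le : PPCond R → PPCond R → Prop} (H : Defble le) : Defble (step le) := by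
  refine ⟨fun h => Relation.TransGen.single (Or.inl (H.of_le h)), fun h h' => h.trans h',
    fun θ φ ψ h => tg_lift (fun φ => θ.img φ) (fun φ ψ h => ?_) h⟩
  rcases h with h | h
  · exact Or.inl (H.img θ h)
  · by_cases hle : le (θ.img φ) (θ.img ψ)
    · exact Or.inl hle
    · refine Or.inr ⟨H.img θ h.1, hle, fun χ k1 k2 => ?_⟩
      rcases h.2.2 ((φ.inf (θ.swap.img χ)).sup ψ) (H.of_le (le_sup_right' _ _))
        (H.sup_le (H.of_le (inf_le_left' _ _)) h.1) with k | k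
      · left
        refine H.of_good fun N _ _ hN x hx => ?_
        obtain ⟨y, hy, hxy⟩ := (mem_img _ _ _ _).1 (hN _ _ k2 hx)
        refine (mem_img _ _ _ _).2 ⟨y, hN _ _ k (le_sup_left' _ _ _ ?_), hxy⟩
        exact (mem_inf _ _ _ _).2 ⟨hy, (mem_img _ _ _ _).2 ⟨x, hx, (ev_swap _ _ _ _).2 hxy⟩⟩
      · right
        refine H.of_good fun N _ _ hN x hx => ?_
        obtain ⟨y, hy, hxy⟩ := (mem_img _ _ _ _).1 hx
        obtain ⟨y2, hy2, hy'⟩ := (mem_sup _ _ _ _).1 (hN _ _ k hy)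
        obtain ⟨x1, hx1, hx1'⟩ := (mem_img _ _ _ _).1 ((mem_inf _ _ _ _).1 hy').2
        have h3 := F2.ev_sub hxy ((ev_swap _ _ _ _).1 hx1')
        have h4 : x - x1 ∈ χ.eval N := hN _ _ k1 ((mem_img _ _ _ _).2 ⟨y2, hy2, by simpa using h3⟩)
        simpa using PPCond.add_mem h4 hx1

theorem defble_PLe : Defble (PLe (R := R)) :=
  ⟨id, PLe.trans, fun θ φ ψ h M _ _ x hx => by
    obtain ⟨y, hy, hxy⟩ := (mem_img _ _ _ _).1 hx
    exact (mem_img _ _ _ _).2 ⟨y, h M hy, hxy⟩⟩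

theorem defble_rel (o : Ordinal.{w}) : Defble (rel (PLe (R := R)) o) := by
  induction o using Ordinal.limitRecOn with
  | zero => rw [rel_zero]; exact defble_PLe
  | add_one o ih => rw [rel_succ]; exact ih.step
  | limit o ho ih =>
    refine ⟨rel_of PLe o, rel_trans PLe PLe.trans o, fun θ φ ψ h => ?_⟩
    rw [rel_limit _ ho] at h ⊢
    obtain ⟨o', h1, h2⟩ := h
    exact ⟨o', h1, (ih o' h1).img θ h2⟩

theorem defble_all : Defble (fun φ ψ => ∃ o : Ordinal.{w}, rel (PLe (R := R)) o φ ψ) := by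
  refine ⟨fun h => ⟨0, rel_of PLe 0 h⟩, ?_, ?_⟩
  · rintro φ ψ χ ⟨o1, h1⟩ ⟨o2, h2⟩
    exact ⟨max o1 o2, rel_trans PLe PLe.trans _ (rel_mono PLe (le_max_left _ _) h1)
      (rel_mono PLe (le_max_right _ _) h2)⟩
  · rintro θ φ ψ ⟨o, h⟩
    exact ⟨o, (defble_rel o).img θ h⟩

theorem incl_iso {N N' : Type u} [AddCommGroup N] [Module R N] [AddCommGroup N'] [Module R N']
    (e : N ≃ₗ[R] N') {φ ψ : PPCond R} (h : φ.eval N ⊆ ψ.eval N) : φ.eval N' ⊆ ψ.eval N' := by
  intro x hx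
  have := PPCond.map_mem e.toLinearMap (h (PPCond.map_mem e.symm.toLinearMap hx))
  simpa using this

def zmk (N : ZgMod R) : Zg R := Quotient.mk (zgSetoid R) N

theorem zmk_surj (x : Zg R) : ∃ N, zmk N = x := Quotient.exists_rep x

theorem mk_mem_basicOpen (φ ψ : PPCond R) (N : ZgMod R) :
    zmk N ∈ basicOpen φ ψ ↔
      ¬ φ.eval N.carrier ⊆ ψ.eval N.carrier := by
  constructor
  · rintro ⟨N', h1, h2⟩ h
    obtain ⟨e⟩ := Quotient.exact h1
    exact h2 (incl_iso e.symm h)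
  · intro h; exact ⟨N, rfl, h⟩

theorem isBasis : TopologicalSpace.IsTopologicalBasis
    {U : Set (Zg R) | ∃ φ ψ : PPCond R, U = basicOpen φ ψ} := by
  refine ⟨?_, ?_, rfl⟩
  · rintro _ ⟨φ1, ψ1, rfl⟩ _ ⟨φ2, ψ2, rfl⟩ x ⟨h1, h2⟩
    obtain ⟨N, rfl⟩ := zmk_surj x
    rw [mk_mem_basicOpen] at h1 h2
    obtain ⟨a, ha, hna⟩ := Set.not_subset.1 h1
    obtain ⟨b, hb, hnb⟩ := Set.not_subset.1 h2
    obtain ⟨θ, hθ, hθ'⟩ := link2 (AC_of_pinj N.pinj) N.indec hna hnb
    refine ⟨basicOpen (φ1.inf (θ.img φ2)) ((θ.img ψ2).sup ψ1), ⟨_, _, rfl⟩, ?_, ?_⟩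
    · rw [mk_mem_basicOpen]
      exact fun h => hθ' (h ((mem_inf _ _ _ _).2 ⟨ha, (mem_img _ _ _ _).2 ⟨b, hb, hθ⟩⟩))
    · intro y hy
      obtain ⟨N', rfl⟩ := zmk_surj y
      rw [mk_mem_basicOpen] at hy
      obtain ⟨c, hc, hnc⟩ := Set.not_subset.1 hy
      rw [mem_inf] at hc
      obtain ⟨z, hz, hcz⟩ := (mem_img _ _ _ _).1 hc.2
      constructor
      · rw [mk_mem_basicOpen]
        exact fun h => hnc (le_sup_right' _ _ _ (h hc.1))
      · rw [mk_mem_basicOpen]
        exact fun h => hnc (le_sup_left' _ _ _ ((mem_img _ _ _ _).2 ⟨z, h hz, hcz⟩))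
  · rw [Set.eq_univ_iff_forall]
    intro x
    obtain ⟨N, rfl⟩ := zmk_surj x
    refine ⟨basicOpen (ptop R) (pbot R), ⟨_, _, rfl⟩, ?_⟩
    rw [mk_mem_basicOpen]
    have := N.indec.1
    obtain ⟨a, ha⟩ := exists_ne (0 : N.carrier)
    exact fun h => ha ((mem_pbot _ _).1 (h (mem_ptop _ a)))

def GoodSet (le : PPCond R → PPCond R → Prop) : Set (Zg R) :=
  {x | ∃ N : ZgMod R, Quotient.mk (zgSetoid R) N = x ∧ Good le N.carrier}

theorem mk_mem_GoodSet (le : PPCond R → PPCond R → Prop) (N : ZgMod R) :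
    zmk N ∈ GoodSet le ↔ Good le N.carrier := by
  constructor
  · rintro ⟨N', h1, h2⟩ φ ψ h
    obtain ⟨e⟩ := Quotient.exact h1
    exact incl_iso e (h2 φ ψ h)
  · intro h; exact ⟨N, rfl, h⟩

/-- isolated points are isolated by minimal pairs -/
def IsoCond (le : PPCond R → PPCond R → Prop) : Prop :=
  ∀ (φ0 ψ0 : PPCond R) (N : ZgMod R), Good le N.carrier →
    ¬ φ0.eval N.carrier ⊆ ψ0.eval N.carrier →
    (∀ N' : ZgMod R, Good le N'.carrier → ¬ φ0.eval N'.carrier ⊆ ψ0.eval N'.carrier →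
      Nonempty (N'.carrier ≃ₗ[R] N.carrier)) →
    ∃ φ ψ, MinPair le φ ψ ∧ ¬ φ.eval N.carrier ⊆ ψ.eval N.carrier

theorem goodSet_step {le : PPCond R → PPCond R → Prop} (H : Defble le) (hI : IsoCond le) :
    relDerivedSet (GoodSet le) = GoodSet (step le) := by
  ext x
  obtain ⟨N, rfl⟩ := zmk_surj x
  rw [relDerivedSet_apply, Set.mem_inter_iff, mem_derivedSet, accPt_iff_nhds, mk_mem_GoodSet,
    mk_mem_GoodSet]
  constructor
  · rintro ⟨h1, h2⟩ φ ψ h
    induction h with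
    | single h =>
      rcases h with h | h
      · exact h2 _ _ h
      · by_contra hn
        obtain ⟨y, ⟨hy1, hy2⟩, hy3⟩ := h1 _ ((isBasis.isOpen ⟨_, _, rfl⟩).mem_nhds
          ((mk_mem_basicOpen _ _ N).2 hn))
        obtain ⟨N', rfl⟩ := zmk_surj y
        exact hy3 (Quotient.sound (minpair_unique H h N' N ((mk_mem_GoodSet _ _).1 hy2) h2
          ((mk_mem_basicOpen _ _ _).1 hy1) hn))
    | tail _ h ih =>
      refine ih.trans ?_
      rcases h with h | h
      · exact h2 _ _ h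
      · by_contra hn
        obtain ⟨y, ⟨hy1, hy2⟩, hy3⟩ := h1 _ ((isBasis.isOpen ⟨_, _, rfl⟩).mem_nhds
          ((mk_mem_basicOpen _ _ N).2 hn))
        obtain ⟨N', rfl⟩ := zmk_surj y
        exact hy3 (Quotient.sound (minpair_unique H h N' N ((mk_mem_GoodSet _ _).1 hy2) h2
          ((mk_mem_basicOpen _ _ _).1 hy1) hn))
  · intro h
    have h2 : Good le N.carrier := fun φ ψ k => h φ ψ (Relation.TransGen.single (Or.inl k))
    refine ⟨fun U hU => ?_, h2⟩
    obtain ⟨_, ⟨φ0, ψ0, rfl⟩, hx, hsub⟩ := isBasis.mem_nhds_iff.1 hU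
    by_contra hc
    push Not at hc
    obtain ⟨φ, ψ, hm, hn⟩ := hI φ0 ψ0 N h2 ((mk_mem_basicOpen _ _ _).1 hx) (fun N' k1 k2 =>
      Quotient.exact (hc _ ⟨hsub ((mk_mem_basicOpen _ _ _).2 k2), (mk_mem_GoodSet _ _).2 k1⟩))
    exact hn (h φ ψ (Relation.TransGen.single (Or.inr hm)))

theorem deriv_eq (hI : ∀ o : Ordinal.{u + 1}, IsoCond (rel (PLe (R := R)) o))
    (o : Ordinal.{u + 1}) :
    CantorBendixson.iteratedDerivedSet (Set.univ : Set (Zg R)) o = GoodSet (rel PLe o) := by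
  induction o using Ordinal.limitRecOn with
  | zero =>
    rw [CantorBendixson.iteratedDerivedSet_zero, rel_zero, eq_comm, Set.eq_univ_iff_forall]
    intro x
    obtain ⟨N, rfl⟩ := zmk_surj x
    exact (mk_mem_GoodSet _ _).2 (fun φ ψ h => h _)
  | add_one o ih =>
    rw [CantorBendixson.iteratedDerivedSet_succ, ih, rel_succ, goodSet_step (defble_rel o) (hI o)]
  | limit o ho ih =>
    rw [CantorBendixson.iteratedDerivedSet_limit ho]
    ext x
    obtain ⟨N, rfl⟩ := zmk_surj x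
    rw [Set.mem_iInter, mk_mem_GoodSet]
    constructor
    · intro h φ ψ k
      obtain ⟨o', h1, h2⟩ := (rel_limit _ ho _ _).1 k
      have := h ⟨o', h1⟩
      rw [ih o' h1, mk_mem_GoodSet] at this
      exact this φ ψ h2
    · intro h o'
      rw [ih o' o'.2, mk_mem_GoodSet]
      exact fun φ ψ k => h φ ψ (rel_mono PLe (le_of_lt o'.2) k)

theorem goodSet_nonempty {le : PPCond R → PPCond R → Prop} (H : Defble le) :
    (GoodSet le).Nonempty ↔ ¬ le (ptop R) (pbot R) := by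
  constructor
  · rintro ⟨x, N, -, hN⟩ h
    have := N.indec.1
    obtain ⟨a, ha⟩ := exists_ne (0 : N.carrier)
    exact ha ((mem_pbot _ _).1 (hN _ _ h (mem_ptop _ a)))
  · intro h
    obtain ⟨N, h1, -⟩ := complete1 H h
    exact ⟨_, N, rfl, h1⟩

/-- the rank read off from the pp conditions -/
def RelRank (R : Type u) [Ring R] (ρ : WithTop Ordinal.{u + 1}) : Prop :=
  (ρ = ⊤ ∧ ∀ o : Ordinal.{u + 1}, ¬ rel PLe o (ptop R) (pbot R)) ∨
    ∃ a : Ordinal.{u + 1}, ρ = (a : WithTop Ordinal.{u + 1}) ∧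
      rel PLe (a + 1) (ptop R) (pbot R) ∧ ¬ rel PLe a (ptop R) (pbot R)

theorem hasCBRank_of_relRank (hI : ∀ o : Ordinal.{u + 1}, IsoCond (rel (PLe (R := R)) o))
    {ρ : WithTop Ordinal.{u + 1}} (h : RelRank R ρ) : HasCBRank (Zg R) ρ := by
  rcases h with ⟨h1, h2⟩ | ⟨a, h1, h2, h3⟩
  · refine Or.inl ⟨h1, ?_⟩
    obtain ⟨x, N, rfl, hN⟩ := (goodSet_nonempty (defble_all.{u, u + 1} (R := R))).2
      (fun ⟨o, ho⟩ => h2 o ho)
    refine ⟨zmk N, Set.mem_iInter.2 fun o => ?_⟩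
    rw [deriv_eq hI, mk_mem_GoodSet]
    exact fun φ ψ k => hN φ ψ ⟨o, k⟩
  · refine Or.inr ⟨a, h1, ?_, ?_⟩
    · rw [deriv_eq hI, ← Set.not_nonempty_iff_eq_empty, goodSet_nonempty (defble_rel _)]
      exact not_not.2 h2
    · rw [deriv_eq hI, goodSet_nonempty (defble_rel _)]
      exact h3

theorem exists_relRank [Nontrivial R] : ∃ ρ, RelRank R ρ := by
  by_cases h : ∃ o : Ordinal.{u + 1}, rel PLe o (ptop R) (pbot R)
  · obtain ⟨o, ho, hmin⟩ := (wellFounded_lt (α := Ordinal.{u + 1})).has_min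
      {o | rel PLe o (ptop R) (pbot R)} h
    induction o using Ordinal.limitRecOn with
    | zero =>
      exfalso
      have h0 : rel PLe (0 : Ordinal.{u + 1}) (ptop R) (pbot R) := ho
      rw [rel_zero] at h0
      exact one_ne_zero ((mem_pbot R (1 : R)).1 (h0 R (mem_ptop R 1)))
    | add_one a _ =>
      exact ⟨a, Or.inr ⟨a, rfl, ho, fun k => hmin a k (Order.lt_add_one_iff.2 le_rfl)⟩⟩
    | limit o hl _ =>
      obtain ⟨o', h1, h2⟩ := (rel_limit _ hl _ _).1 ho
      exact absurd h1 (hmin o' h2)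
  · push Not at h
    exact ⟨⊤, Or.inl ⟨rfl, h⟩⟩

theorem rel_top_bot_dual {S : Type u} [Ring S] (τ : R →+* Sᵐᵒᵖ) (τ' : S →+* Rᵐᵒᵖ)
    (hτ : ∀ r, MulOpposite.unop (τ' (MulOpposite.unop (τ r))) = r)
    (hτ' : ∀ s, MulOpposite.unop (τ (MulOpposite.unop (τ' s))) = s) (o : Ordinal.{w})
    (h : rel PLe o (ptop R) (pbot R)) : rel PLe o (ptop S) (pbot S) := by
  have := (rel_transfer (la := PLe (R := R)) (lb := flip (PLe (R := S))) PLe.trans
    (fun h h' => PLe.trans h' h) (DD τ) (DD τ') (fun a b h => DD_anti τ h)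
    (fun a b h => DD_anti τ' h) (fun a => DD_DD τ τ' hτ a)
    (fun b => (DD_DD τ' τ hτ' b).symm) o).1 _ _ h
  rw [rel_flip] at this
  have h1 : PLe (ptop S) (DD τ (pbot R)) :=
    (DD_DD τ' τ hτ' (ptop S)).1.trans (DD_anti τ (pbot_le _))
  have h2 : PLe (DD τ (ptop R)) (pbot S) :=
    (DD_anti τ (le_ptop _)).trans (DD_DD τ' τ hτ' (pbot S)).2
  exact rel_trans PLe PLe.trans o (rel_of PLe o h1) (rel_trans PLe PLe.trans o this (rel_of PLe o h2))

theorem rel_op_iff (o : Ordinal.{w}) :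
    rel PLe o (ptop R) (pbot R) ↔ rel PLe o (ptop Rᵐᵒᵖ) (pbot Rᵐᵒᵖ) :=
  ⟨rel_top_bot_dual (RingEquiv.opOp R).toRingHom (RingHom.id _) (fun _ => rfl) (fun _ => rfl) o,
    rel_top_bot_dual (RingHom.id _) (RingEquiv.opOp R).toRingHom (fun _ => rfl) (fun _ => rfl) o⟩

theorem relRank_op {ρ : WithTop Ordinal.{u + 1}} (h : RelRank R ρ) : RelRank Rᵐᵒᵖ ρ := by
  simp only [RelRank, rel_op_iff (R := R)] at h
  exact h

end Pool.Agent.Lib.MP_1e63be_al
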