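import Pool.Agent.Lib.MP_1e63be_al.Gen

set_option autoImplicit false
set_option linter.unusedSectionVars false

universe u v w

namespace Pool.Agent.Lib.MP_1e63be_al

open Cardinal MulOpposite

variable {R S : Type u} [Ring R] [Ring S]

theorem mem_pi {ι : Type} (M : ι → Type u) [∀ i, AddCommGroup (M i)] [∀ i, Module S (M i)]
    (φ : PPCond S) (x : ∀ i, M i) : x ∈ φ.eval (∀ i, M i) ↔ ∀ i, x i ∈ φ.eval (M i) := by
  refine ⟨fun h i => PPCond.map_mem (LinearMap.proj i : (∀ i, M i) →ₗ[S] M i) h, fun h => ?_⟩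
  choose w hw using h
  refine ⟨fun k i => w i k, fun j => funext fun i => ?_⟩
  simpa [Finset.sum_apply] using hw i j

theorem exists_good_ext (f : R →+* S) (le : PPCond S → PPCond S → Prop) (M : Type u)
    [AddCommGroup M] [Module S M] (hM : Good le M) :
    ∃ (N : Type u) (_ : AddCommGroup N) (_ : Module S N) (j : M →ₗ[S] N), Good le N ∧
      AC R (Res f N) ∧ ∀ (φ : PPCond S) (x : M), j x ∈ φ.eval N → x ∈ φ.eval M := by
  let τ : S →+* Sᵐᵒᵖᵐᵒᵖ := (RingEquiv.opOp S).toRingHom
  let τ' : Sᵐᵒᵖ →+* Sᵐᵒᵖ := RingHom.id _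
  have hτ : ∀ r, unop (τ' (unop (τ r))) = r := fun r => rfl
  let j : M →ₗ[S] Dual τ (Dual τ' M) :=
    { toFun := fun x => Dual.mk (AddMonoidHom.mk' (fun ξ : Dual τ' M => ξ x) (fun _ _ => rfl))
      map_add' := fun x y => Dual.ext fun ξ => by simp
      map_smul' := fun r x => Dual.ext fun ξ => rfl }
  refine ⟨Dual τ (Dual τ' M), inferInstance, inferInstance, j, fun φ ψ h ξ hξ => ?_, ?_,
    fun φ x hx => ?_⟩
  · rw [K1] at hξ ⊢
    intro x hx
    rw [K2 τ τ' hτ] at hx
    exact hξ x ((K2 τ τ' hτ φ M x).2 fun y hy => hx y (hM _ _ h hy))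
  · exact (AC_dual (τ := τ.comp f) (L := Dual τ' M)).retract
      { toFun := fun x => x, map_add' := fun _ _ => rfl, map_smul' := fun _ _ => rfl }
      { toFun := fun x => x, map_add' := fun _ _ => rfl, map_smul' := fun _ _ => rfl }
      (fun _ => rfl)
  · by_contra hn
    obtain ⟨ξ, h1, h2⟩ := sep_char (φ.sub M) hn
    exact h2 ((K1 τ φ _ (j x)).1 hx (Dual.mk ξ) ((K2 τ τ' hτ φ M (Dual.mk ξ)).2 h1))

theorem SupP.add_map {X : Set S} {φ : PPCond S} (h : SupP X φ) {N : Type u} [AddCommGroup N]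
    [Module S N] (G : N →+ N) (hG : ∀ s ∈ X, ∀ w, G (s • w) = s • G w) {x : N}
    (hx : x ∈ φ.eval N) : G x ∈ φ.eval N := by
  obtain ⟨w, hw⟩ := hx
  refine ⟨fun i => G (w i), fun j => ?_⟩
  have := congrArg G (hw j)
  rw [map_add, map_sum, map_zero, hG _ (h _ _)] at this
  rw [← this]
  congr 1
  exact Finset.sum_congr rfl fun i _ => (hG _ (h _ _) _).symm

theorem SupF.add_map {X : Set S} {θ : F2 S} (h : SupF X θ) {N : Type u} [AddCommGroup N]
    [Module S N] (G : N →+ N) (hG : ∀ s ∈ X, ∀ w, G (s • w) = s • G w) {x y : N}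
    (hx : θ.ev N x y) : θ.ev N (G x) (G y) := by
  obtain ⟨w, hw⟩ := hx
  refine ⟨fun i => G (w i), fun j => ?_⟩
  have := congrArg G (hw j)
  rw [map_add, map_add, map_sum, map_zero, hG _ (h.1 _), hG _ (h.2.1 _)] at this
  rw [← this]
  congr 1
  exact Finset.sum_congr rfl fun i _ => (hG _ (h.2.2 _ _) _).symm

/-- a separability idempotent adapted to a set of elements -/
def SepData (f : R →+* S) (X : Set S) : Prop :=
  ∃ (d : ℕ) (a b : Fin d → S), ∑ i, a i * b i = 1 ∧ (∀ i r, a i * f r = f r * a i) ∧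
    (∀ i r, b i * f r = f r * b i) ∧
    ∀ s ∈ X, ∀ (N : Type u) [AddCommGroup N] [Module S N] (g : N →+ N),
      (∀ r x, g (f r • x) = f r • g x) →
        ∀ w, ∑ i, a i • g (b i • s • w) = s • ∑ i, a i • g (b i • w)

def subT (φ : PPCond R) (N : Type u) [AddCommGroup N] [Module R N] :
    Submodule (Module.End R N) N where
  carrier := φ.eval N
  zero_mem' := φ.zero_mem
  add_mem' := PPCond.add_mem
  smul_mem' := fun g _ h => PPCond.map_mem g h

theorem noeth_of_min {le : PPCond R → PPCond R → Prop} (H : Defble le) {φ ψ : PPCond R}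
    (hm : MinPair le φ ψ) {N : Type u} [AddCommGroup N] [Module R N] (hN : Good le N)
    (hA : AC R N) : IsNoetherian (Module.End R N)
      (subT φ N ⧸ (subT ψ N).comap (subT φ N).subtype) := by
  rcases subsingleton_or_nontrivial (subT φ N ⧸ (subT ψ N).comap (subT φ N).subtype) with h | h
  · exact isNoetherian_of_finite _ _
  · have : IsSimpleModule (Module.End R N) (subT φ N ⧸ (subT ψ N).comap (subT φ N).subtype) := by
      rw [isSimpleModule_iff_toSpanSingleton_surjective]
      refine ⟨h, fun x hx y => ?_⟩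
      obtain ⟨x, rfl⟩ := Submodule.Quotient.mk_surjective _ x
      obtain ⟨y, rfl⟩ := Submodule.Quotient.mk_surjective _ y
      obtain ⟨g, hg⟩ := minpair_hom H hm hN hN hA x.2
        (fun k => hx ((Submodule.Quotient.mk_eq_zero _).2 k)) y.2
      refine ⟨g, ?_⟩
      rw [LinearMap.toSpanSingleton_apply, ← Submodule.Quotient.mk_smul, Submodule.Quotient.eq]
      exact hg
    infer_instance

theorem acc_of_min {le : PPCond S → PPCond S → Prop} (H : Defble le) (f : R →+* S)
    {φ ψ : PPCond R} (hm : MinPair (pull f le) φ ψ) {θ : F2 S} {X : Set S} (hθ : SupF X θ)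
    (hX : SepData f X) (c : ℕ → PPCond R) (hc : ∀ i, PLe (c i) (c (i + 1))) :
    ∃ n, ∀ i, n ≤ i → le (((φ.map f).inf (θ.swap.img ((c (i + 1)).map f))).sup (ψ.map f))
      (((φ.map f).inf (θ.swap.img ((c i).map f))).sup (ψ.map f)) := by
  obtain ⟨e, he⟩ : ∃ e : ℕ → PPCond S, ∀ i,
      e i = ((φ.map f).inf (θ.swap.img ((c i).map f))).sup (ψ.map f) := ⟨_, fun _ => rfl⟩
  simp only [← he]
  have hmem : ∀ (N : Type u) [AddCommGroup N] [Module S N] (i : ℕ) (x : N), x ∈ (e i).eval N ↔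
      ∃ y, y ∈ (ψ.map f).eval N ∧ x - y ∈ (φ.map f).eval N ∧
        ∃ z, z ∈ ((c i).map f).eval N ∧ θ.ev N z (x - y) := by
    intro N _ _ i x
    simp only [he, mem_sup, mem_inf, mem_img, ev_swap]
  choose Z hZ1 hZ2 using fun i : {i : ℕ // ¬ le (e (i + 1)) (e i)} => complete1 H i.2
  obtain ⟨N, _, _, j, hN, hA, hj⟩ := exists_good_ext f le (∀ i, (Z i).carrier)
    (fun φ ψ h x hx => (mem_pi _ _ _).2 fun i => hZ1 i _ _ h ((mem_pi _ _ _).1 hx i))
  suffices h : ∃ n, ∀ i, n ≤ i → (e (i + 1)).eval N ⊆ (e i).eval N by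
    classical
    obtain ⟨n, hn⟩ := h
    refine ⟨n, fun i hi => ?_⟩
    by_contra hc
    refine hZ2 ⟨i, hc⟩ fun x hx => ?_
    have h1 := hj _ _ (hn i hi (PPCond.map_mem j (PPCond.map_mem
      (LinearMap.single S (fun i => (Z i).carrier) ⟨i, hc⟩) hx)))
    simpa using (mem_pi _ _ _).1 h1 ⟨i, hc⟩
  obtain ⟨d, a, b, hab, ha, hb, hX⟩ := hX
  have hno := noeth_of_min (H.pull f) hm (hN.res f) hA
  let T := Module.End R (Res f N)
  let Φ := subT φ (Res f N)
  let un : Res f N → N := fun x => x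
  let gs : T → N →+ N := fun g => g.toAddMonoidHom
  have hgs : ∀ (g : T) r x, gs g (f r • x) = f r • gs g x := fun g r x => g.map_smul r x
  let ml : (s : S) → (∀ r, s * f r = f r * s) → T := fun s hs =>
    { toFun := fun x => Res.of f (s • un x)
      map_add' := fun x y => smul_add s (un x) (un y)
      map_smul' := fun r x => by
        change s • f r • un x = f r • s • un x
        rw [← mul_smul, hs, mul_smul] }
  let W : ℕ → Submodule T (Fin d → Φ) := fun n =>
    { carrier := {v | ∀ g : T, ∑ i, a i • gs g (v i).1 ∈ (e n).eval N}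
      zero_mem' := fun g => by
        have : ∑ i, a i • gs g ((0 : Fin d → Φ) i).1 = 0 :=
          Finset.sum_eq_zero fun i _ => (congrArg (a i • ·) (map_zero (gs g))).trans (smul_zero _)
        rw [this]; exact PPCond.zero_mem _
      add_mem' := fun {v v'} hv hv' g => by
        have : ∑ i, a i • gs g ((v + v') i).1 =
            ∑ i, a i • gs g (v i).1 + ∑ i, a i • gs g (v' i).1 := by
          rw [← Finset.sum_add_distrib]
          exact Finset.sum_congr rfl fun i _ =>
            (congrArg (a i • ·) (map_add (gs g) _ _)).trans (smul_add _ _ _)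
        rw [this]; exact PPCond.add_mem (hv g) (hv' g)
      smul_mem' := fun g' v hv g => hv (g * g') }
  let π : (Fin d → Φ) →ₗ[T] (Fin d → Φ ⧸ (subT ψ (Res f N)).comap Φ.subtype) :=
    LinearMap.compLeft ((subT ψ (Res f N)).comap Φ.subtype).mkQ (Fin d)
  have hker : ∀ n, LinearMap.ker π ≤ W n := by
    intro n v hv g
    rw [he]
    refine le_sup_right' _ _ _ (AddSubgroup.sum_mem ((ψ.map f).sub N) fun i _ => ?_)
    have h1 : (v i).1 ∈ ψ.eval (Res f N) :=
      (Submodule.Quotient.mk_eq_zero _).1 (congrFun hv i)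
    exact PPCond.map_mem (ml (a i) (ha i)) (PPCond.map_mem g h1)
  have hmono : Monotone W := by
    refine monotone_nat_of_le_succ fun n v hv g => ?_
    obtain ⟨y, h1, h2, z, h3, h4⟩ := (hmem N _ _).1 (hv g)
    exact (hmem N _ _).2 ⟨y, h1, h2, z, (hc n).res f N h3, h4⟩
  obtain ⟨n, hn⟩ := monotone_stabilizes_iff_noetherian.2
    (inferInstance : IsNoetherian T (Fin d → Φ ⧸ (subT ψ (Res f N)).comap Φ.subtype))
    ⟨fun n => (W n).map π, fun _ _ h => Submodule.map_mono (hmono h)⟩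
  refine ⟨n, fun i hi w hw => ?_⟩
  have hW : W (i + 1) ≤ W i := by
    have h1 : (W (i + 1)).map π = (W i).map π := (hn _ (by omega)).symm.trans (hn _ hi)
    have h2 := congrArg (Submodule.comap π) h1
    rw [Submodule.comap_map_eq, Submodule.comap_map_eq, sup_eq_left.2 (hker _),
      sup_eq_left.2 (hker _)] at h2
    exact h2.le
  obtain ⟨y, h1, h2, z, h3, h4⟩ := (hmem N _ _).1 hw
  have hwφ : w ∈ (φ.map f).eval N := by simpa using PPCond.add_mem h2 (hN _ _ hm.1 h1)
  have h5 : (fun k => ⟨Res.of f (b k • w), PPCond.map_mem (ml (b k) (hb k)) hwφ⟩ :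
      Fin d → Φ) ∈ W (i + 1) := by
    intro g
    let G : N →+ N := AddMonoidHom.mk' (fun x => ∑ k, a k • gs g (b k • x)) (fun x y => by
      simp only [smul_add, map_add, Finset.sum_add_distrib])
    have hG1 : ∀ s ∈ Set.range f, ∀ x, G (s • x) = s • G x := by
      rintro _ ⟨r, rfl⟩ x
      change ∑ k, a k • gs g (b k • f r • x) = f r • ∑ k, a k • gs g (b k • x)
      rw [Finset.smul_sum]
      refine Finset.sum_congr rfl fun k _ => ?_
      rw [← mul_smul (b k), hb, mul_smul, hgs, ← mul_smul, ha, mul_smul]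
    have hG2 : ∀ s ∈ X, ∀ x, G (s • x) = s • G x := fun s hs x => hX s hs N (gs g) (hgs g) x
    have hr : ∀ χ : PPCond R, SupP (Set.range f) (χ.map f) := fun χ _ _ => ⟨_, rfl⟩
    change G w ∈ _
    refine (hmem N _ _).2 ⟨G y, (hr _).add_map G hG1 h1, ?_, G z, (hr _).add_map G hG1 h3, ?_⟩
    · rw [← map_sub]; exact (hr _).add_map G hG1 h2
    · rw [← map_sub]; exact hθ.add_map G hG2 h4
  have h6 := hW h5 1
  have h7 : ∑ k, a k • b k • w = w := by
    simp only [← mul_smul]
    rw [← Finset.sum_smul, hab, one_smul]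
  exact h7 ▸ h6

end Pool.Agent.Lib.MP_1e63be_al
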