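import Pool.Agent.Lib.MP_1e63be_al.Rel
import Pool.Agent.Lib.MP_1e63be_al.Comb

set_option autoImplicit false
set_option linter.unusedSectionVars false

universe u v w

namespace Pool.Agent.Lib.MP_1e63be_al

open Cardinal

variable {R : Type u} [Ring R]

theorem mem_iso {N N' : Type u} [AddCommGroup N] [Module R N] [AddCommGroup N'] [Module R N']
    (e : N ≃ₗ[R] N') (φ : PPCond R) (x : N) : e x ∈ φ.eval N' ↔ x ∈ φ.eval N :=
  ⟨fun h => mem_of_bij (f := e.toLinearMap) e.bijective h, fun h => PPCond.map_mem e.toLinearMap h⟩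

/-- the condition `θ°[δ] + ψ` -/
noncomputable def lk (θ : F2 R) (δ ψ : PPCond R) : PPCond R := (θ.swap.img δ).sup ψ

theorem mem_lk (θ : F2 R) (δ ψ : PPCond R) (M : Type u) [AddCommGroup M] [Module R M] (a : M) :
    a ∈ (lk θ δ ψ).eval M ↔ ∃ y, y ∈ ψ.eval M ∧ ∃ x, x ∈ δ.eval M ∧ θ.ev M x (a - y) := by
  simp only [lk, mem_sup, mem_img, ev_swap]

theorem link_max {le : PPCond R → PPCond R → Prop} (N : ZgMod R)
    (hN : Good le N.carrier) {Λ : Set (PPCond R)} {a a0 : N.carrier} (ha : a ≠ 0)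
    (hmax : ∀ ρ : PPCond R, a ∉ ρ.eval N.carrier →
      ∃ χ : PPCond R, a ∈ χ.eval N.carrier ∧ ∃ γ ∈ Λ, le (χ.inf ρ) γ)
    {ψ0 : PPCond R} (h0 : a0 ∉ ψ0.eval N.carrier) :
    ∃ θ : F2 R, ∃ γ ∈ Λ, ∀ δ, le γ δ →
      (a ∈ δ.eval N.carrier ↔ a0 ∈ (lk θ δ ψ0).eval N.carrier) := by
  obtain ⟨θ, hθ, hθ'⟩ := link2 (AC_of_pinj N.pinj) N.indec (a := a) (a' := a0) (ψ := pbot R)
    (ψ' := ψ0) (fun h => ha ((mem_pbot _ _).1 h)) h0
  obtain ⟨χ, hχ, γ, hγ, hle⟩ := hmax (θ.img ψ0) (fun h => hθ' (le_sup_left' _ _ _ h))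
  have h1 : (θ.and (χ.subst 1 0)).ev N.carrier a a0 := by
    rw [ev_and, ev_subst]; exact ⟨hθ, by simpa using hχ⟩
  refine ⟨θ.and (χ.subst 1 0), γ, hγ, fun δ hδ => ?_⟩
  rw [mem_lk]
  constructor
  · intro h
    exact ⟨0, ψ0.zero_mem, a, h, by simpa using h1⟩
  · rintro ⟨y, hy, x, hx, hxy⟩
    have h2 := F2.ev_sub h1 hxy
    rw [ev_and, ev_subst] at h2
    have h3 : a - x ∈ (χ.inf (θ.img ψ0)).eval N.carrier :=
      (mem_inf _ _ _ _).2 ⟨by simpa using h2.2, (mem_img _ _ _ _).2 ⟨y, hy, by simpa using h2.1⟩⟩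
    simpa using PPCond.add_mem (hN _ _ hδ (hN _ _ hle h3)) hx

/-- `N` is the only good point of the open set of `φ0 / ψ0` -/
def Uniq (le : PPCond R → PPCond R → Prop) (φ0 ψ0 : PPCond R) (N : ZgMod R) : Prop :=
  ∀ N' : ZgMod R, Good le N'.carrier → ¬ φ0.eval N'.carrier ⊆ ψ0.eval N'.carrier →
    Nonempty (N'.carrier ≃ₗ[R] N.carrier)

theorem completeN {le : PPCond R → PPCond R → Prop} (H : Defble le) {φ0 ψ0 : PPCond R}
    {N : ZgMod R} (hN : Good le N.carrier) (hu : Uniq le φ0 ψ0 N) (U Λ : Set (PPCond R))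
    (hdir : ∀ γ1 ∈ Λ, ∀ γ2 ∈ Λ, ∃ γ ∈ Λ, le γ1 γ ∧ le γ2 γ) (hU : Cons le Λ U)
    (h1 : ∃ φ ∈ U, le φ φ0) (h2 : ∃ γ ∈ Λ, le ψ0 γ) :
    ∃ a : N.carrier, (∀ φ ∈ U, a ∈ φ.eval N.carrier) ∧ (∀ γ ∈ Λ, a ∉ γ.eval N.carrier) ∧
      ∀ (a0 : N.carrier) (ψ : PPCond R), a0 ∉ ψ.eval N.carrier → ∃ θ : F2 R, ∃ γ ∈ Λ, ∀ δ,
        le γ δ → (a ∈ δ.eval N.carrier ↔ a0 ∈ (lk θ δ ψ).eval N.carrier) := by
  obtain ⟨φ, hφ, h1⟩ := h1
  obtain ⟨γ0, hγ0, h2⟩ := h2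
  obtain ⟨N', a, k1, k2, k3, k4⟩ := complete H U Λ ⟨γ0, hγ0⟩ hdir hU
  obtain ⟨e⟩ := hu N' k1 (fun h => k3 γ0 hγ0 (k1 _ _ h2 (h (k1 _ _ h1 (k2 φ hφ)))))
  refine ⟨e a, fun φ hφ => (mem_iso e _ _).2 (k2 φ hφ),
    fun γ hγ h => k3 γ hγ ((mem_iso e _ _).1 h), fun a0 ψ h0 => ?_⟩
  refine link_max N hN (fun h => k3 γ0 hγ0 ((mem_iso e _ _).1 (by rw [h]; exact γ0.zero_mem)))
    (fun ρ hρ => ?_) h0
  obtain ⟨χ, hχ, h⟩ := k4 ρ (fun h => hρ ((mem_iso e _ _).2 h))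
  exact ⟨χ, (mem_iso e _ _).2 hχ, h⟩

def pre (η : ℕ → Bool) : ℕ → List Bool
  | 0 => []
  | n + 1 => η n :: pre η n

theorem pre_inj {η η' : ℕ → Bool} {k : ℕ} (h : pre η k = pre η' k) : ∀ m < k, η m = η' m := by
  induction k with
  | zero => intro m hm; omega
  | succ k ih =>
    intro m hm
    simp only [pre, List.cons.injEq] at h
    rcases Nat.lt_succ_iff_lt_or_eq.1 hm with h' | rfl
    · exact ih h.2 m h'
    · exact h.1

theorem tree_lemma {le : PPCond R → PPCond R → Prop} (H : Defble le) {φ0 ψ0 : PPCond R}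
    {N : ZgMod R} (hN : Good le N.carrier) (hu : Uniq le φ0 ψ0 N) (h01 : le ψ0 φ0)
    (hn : ¬ le φ0 ψ0) (hno : ∀ φ ψ, le ψ0 ψ → le φ φ0 → ¬ MinPair le φ ψ) :
    ∃ χ : List Bool → PPCond R, (∀ s, le ψ0 (χ s)) ∧ ∀ a0 : N.carrier, a0 ∉ ψ0.eval N.carrier →
      ∀ X : Set (F2 R), #X < 𝔠 → ¬ ∀ θ, ∃ θ' ∈ X, ∀ s,
        (a0 ∈ (lk θ (χ s) ψ0).eval N.carrier ↔ a0 ∈ (lk θ' (χ s) ψ0).eval N.carrier) := by
  let P := {p : PPCond R × PPCond R // le ψ0 p.2 ∧ le p.1 φ0 ∧ le p.2 p.1 ∧ ¬ le p.1 p.2}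
  have hc : ∀ p : P, ∃ χ, le p.1.2 χ ∧ le χ p.1.1 ∧ ¬ le χ p.1.2 ∧ ¬ le p.1.1 χ := by
    intro p
    by_contra h
    refine hno _ _ p.2.1 p.2.2.1 ⟨p.2.2.2.1, p.2.2.2.2, fun χ k1 k2 => ?_⟩
    by_contra h'
    push Not at h'
    exact h ⟨χ, k1, k2, h'.1, h'.2⟩
  choose c hc1 hc2 hc3 hc4 using hc
  let nxt : Bool → P → P := fun b p => match b with
    | false => ⟨(c p, p.1.2), p.2.1, H.trans (hc2 p) p.2.2.1, hc1 p, hc3 p⟩
    | true => ⟨(p.1.1, c p), H.trans p.2.1 (hc1 p), p.2.2.1, hc2 p, hc4 p⟩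
  let T : List Bool → P := fun s => s.foldr nxt ⟨(φ0, ψ0), H.refl _, H.refl _, h01, hn⟩
  have hT : ∀ (η : ℕ → Bool) (n : ℕ), T (pre η (n + 1)) = nxt (η n) (T (pre η n)) :=
    fun η n => rfl
  have hmono : ∀ (η : ℕ → Bool) (n m : ℕ), n ≤ m →
      le (T (pre η m)).1.1 (T (pre η n)).1.1 ∧ le (T (pre η n)).1.2 (T (pre η m)).1.2 := by
    intro η n m h
    induction h with
    | refl => exact ⟨H.refl _, H.refl _⟩
    | @step m _ ih =>
      rw [hT]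
      cases η m
      · exact ⟨H.trans (hc2 _) ih.1, ih.2⟩
      · exact ⟨ih.1, H.trans ih.2 (hc1 _)⟩
  refine ⟨fun s => c (T s), fun s => H.trans (T s).2.1 (hc1 _), fun a0 h0 X hX hall => ?_⟩
  have main : ∀ η : ℕ → Bool, ∃ n : ℕ, ∃ θ : X, ∀ m, n ≤ m →
      (η m = false ↔ a0 ∈ (lk θ.1 (c (T (pre η m))) ψ0).eval N.carrier) := by
    intro η
    obtain ⟨a, k1, k2, k3⟩ := completeN H hN hu (Set.range fun n => (T (pre η n)).1.1)
      (Set.range fun n => (T (pre η n)).1.2) (by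
        rintro _ ⟨n, rfl⟩ _ ⟨m, rfl⟩
        exact ⟨_, ⟨max n m, rfl⟩, (hmono η _ _ (le_max_left _ _)).2,
          (hmono η _ _ (le_max_right _ _)).2⟩) (by
        rintro l hl _ ⟨m, rfl⟩ hle
        have : ∃ n, m ≤ n ∧ le (T (pre η n)).1.1 (lmeet l) := by
          clear hle
          induction l with
          | nil => exact ⟨m, le_rfl, H.of_le (le_ptop _)⟩
          | cons φ l ih =>
            obtain ⟨n, h1, h2⟩ := ih (fun φ hφ => hl φ (List.mem_cons_of_mem _ hφ))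
            obtain ⟨k, rfl⟩ := hl φ List.mem_cons_self
            exact ⟨max n k, h1.trans (le_max_left _ _), H.le_inf (hmono η _ _ (le_max_right _ _)).1
              (H.trans (hmono η _ _ (le_max_left _ _)).1 h2)⟩
        obtain ⟨n, h1, h2⟩ := this
        exact (T (pre η n)).2.2.2.2 (H.trans h2 (H.trans hle (hmono η _ _ h1).2)))
      ⟨_, ⟨0, rfl⟩, H.refl _⟩ ⟨_, ⟨0, rfl⟩, H.refl _⟩
    obtain ⟨θ, _, ⟨n, rfl⟩, hθ⟩ := k3 a0 ψ0 h0
    obtain ⟨θ', hθ', h'⟩ := hall θ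
    refine ⟨n, ⟨θ', hθ'⟩, fun m hm => ?_⟩
    rw [← h', ← hθ _ (H.trans (hmono η _ _ hm).2 (hc1 _))]
    have j1 := k1 _ ⟨m + 1, rfl⟩
    have j2 := k2 _ ⟨m + 1, rfl⟩
    simp only [hT] at j1 j2
    cases h : η m
    · rw [h] at j1
      exact ⟨fun _ => j1, fun _ => rfl⟩
    · rw [h] at j2
      exact ⟨fun k => absurd k (by simp), fun k => absurd k j2⟩
  choose n θ hθ using main
  let g : ULift.{u} (ℕ → Bool) → ULift.{u} (ℕ × List Bool) × X := fun η =>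
    (⟨(n η.down, pre η.down (n η.down))⟩, θ η.down)
  have hg : Function.Injective g := by
    rintro ⟨η⟩ ⟨η'⟩ h
    simp only [g, Prod.mk.injEq, ULift.up.injEq] at h
    obtain ⟨⟨h1, h2⟩, h3⟩ := h
    have : ∀ m, pre η (n η + m) = pre η' (n η + m) := by
      intro m
      induction m with
      | zero => rw [Nat.add_zero, h2, h1]
      | succ m ih =>
        have j1 := hθ η (n η + m) (by omega)
        have j2 := hθ η' (n η + m) (by omega)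
        rw [ih, h3, ← j2] at j1
        have : η (n η + m) = η' (n η + m) := by
          revert j1
          cases η (n η + m) <;> cases η' (n η + m) <;> simp
        change η (n η + m) :: pre η (n η + m) = η' (n η + m) :: pre η' (n η + m)
        rw [ih, this]
    congr 1
    funext m
    exact pre_inj (this (m + 1)) m (by omega)
  have h1 := Cardinal.mk_le_of_injective hg
  have h2 : #(ULift.{u} (ℕ → Bool)) = 𝔠 := by simp
  have h3 : #(ULift.{u} (ℕ × List Bool) × X) < 𝔠 := by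
    rw [Cardinal.mk_prod, Cardinal.lift_id, Cardinal.lift_id]
    refine Cardinal.mul_lt_of_lt Cardinal.aleph0_le_continuum ?_ hX
    exact lt_of_le_of_lt Cardinal.mk_le_aleph0 Cardinal.aleph0_lt_continuum
  exact absurd (h2 ▸ h1) (not_le.2 h3)

/-- reduction of the isolation property to a counting statement -/
theorem isoCond_of_count {le : PPCond R → PPCond R → Prop} (H : Defble le)
    (hcount : ∀ (φ0 ψ0 : PPCond R) (N : ZgMod R), Good le N.carrier → Uniq le φ0 ψ0 N →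
      ¬ le φ0 ψ0 → ∀ χ : List Bool → PPCond R, (∀ s, le ψ0 (χ s)) →
      ∃ a0 : N.carrier, a0 ∉ ψ0.eval N.carrier ∧ ∃ X : Set (F2 R), #X < 𝔠 ∧ ∀ θ, ∃ θ' ∈ X, ∀ s,
        (a0 ∈ (lk θ (χ s) ψ0).eval N.carrier ↔ a0 ∈ (lk θ' (χ s) ψ0).eval N.carrier)) :
    IsoCond le := by
  intro φ0 ψ0 N hN hn hu
  have hu' : Uniq le φ0 (φ0.inf ψ0) N := fun N' k1 k2 => hu N' k1 (fun h => k2 (fun x hx =>
    (mem_inf _ _ _ _).2 ⟨hx, h hx⟩))
  have hn' : ¬ le φ0 (φ0.inf ψ0) := fun h => hn ((hN _ _ h).trans (inf_le_right' _ _ _))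
  by_contra hc
  obtain ⟨χ, h1, h2⟩ := tree_lemma H hN hu' (H.of_le (inf_le_left' _ _)) hn' (by
    intro φ ψ k1 k2 hm
    obtain ⟨N', j1, j2⟩ := complete1 H hm.2.1
    obtain ⟨e⟩ := hu' N' j1 (fun h => j2 ((j1 _ _ k2).trans (h.trans (j1 _ _ k1))))
    exact hc ⟨φ, ψ, hm, fun h => j2 (incl_iso e.symm h)⟩)
  obtain ⟨a0, k1, X, k2, k3⟩ := hcount φ0 _ N hN hu' hn' χ h1
  exact h2 a0 k1 X k2 k3

theorem isoCond_small {le : PPCond R → PPCond R → Prop} (H : Defble le) (hR : #R < 𝔠) :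
    IsoCond le := by
  refine isoCond_of_count H fun φ0 ψ0 N hN hu hn χ _ => ?_
  obtain ⟨N', j1, j2⟩ := complete1 H hn
  obtain ⟨e⟩ := hu N' j1 j2
  obtain ⟨a, -, ha⟩ := Set.not_subset.1 j2
  refine ⟨e a, fun h => ha ((mem_iso e _ _).1 h), Set.univ, ?_, fun θ => ⟨θ, trivial, fun _ => Iff.rfl⟩⟩
  rw [Cardinal.mk_univ]
  exact lt_of_le_of_lt (mk_F2_le R) (max_lt Cardinal.aleph0_lt_continuum hR)

end Pool.Agent.Lib.MP_1e63be_al
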