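import Pool.Agent.Lib.MP_1e63be_al.Sep

set_option autoImplicit false
set_option linter.unusedSectionVars false

universe u v w

namespace Pool.Agent.Lib.MP_1e63be_al

open Cardinal

variable {R S : Type u} [Ring R] [Ring S]

def Fixes (f : R →+* S) (P : Set (PPCond R × PPCond R)) (σ : S ≃+* S) : Prop :=
  ∀ p ∈ P, (p.1.map f).map σ = p.1.map f ∧ (p.2.map f).map σ = p.2.map f

theorem Fixes.symm {f : R →+* S} {P : Set (PPCond R × PPCond R)} {σ : S ≃+* S}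
    (h : Fixes f P σ) : Fixes f P σ.symm := fun p hp =>
  ⟨by rw [← (h p hp).1, map_symm_map, (h p hp).1], by rw [← (h p hp).2, map_symm_map, (h p hp).2]⟩

theorem map_trans (σ σ' : S ≃+* S) (φ : PPCond S) : φ.map (σ.trans σ') = (φ.map σ).map σ' := rfl

theorem Fixes.trans {f : R →+* S} {P : Set (PPCond R × PPCond R)} {σ σ' : S ≃+* S}
    (h : Fixes f P σ) (h' : Fixes f P σ') : Fixes f P (σ.trans σ') := fun p hp =>
  ⟨by rw [map_trans, (h p hp).1, (h' p hp).1], by rw [map_trans, (h p hp).2, (h' p hp).2]⟩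

def InvP (f : R →+* S) (P : Set (PPCond R × PPCond R)) (le : PPCond S → PPCond S → Prop) :
    Prop := ∀ σ : S ≃+* S, Fixes f P σ → ∀ a b, le a b → le (a.map σ) (b.map σ)

section
variable (σ : S ≃+* S) (M : Type u) [AddCommGroup M] [Module S M]

theorem aut_inf (φ ψ : PPCond S) (x : M) : x ∈ ((φ.inf ψ).map σ).eval M ↔
    x ∈ (φ.map σ).eval M ∧ x ∈ (ψ.map σ).eval M := res_inf σ.toRingHom M φ ψ x

theorem aut_sup (φ ψ : PPCond S) (x : M) : x ∈ ((φ.sup ψ).map σ).eval M ↔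
    ∃ y, y ∈ (ψ.map σ).eval M ∧ x - y ∈ (φ.map σ).eval M := res_sup σ.toRingHom M φ ψ x

theorem aut_img (θ : F2 S) (φ : PPCond S) (x : M) : x ∈ ((θ.img φ).map σ).eval M ↔
    x ∈ ((θ.map σ).img (φ.map σ)).eval M := res_img σ.toRingHom M θ φ x

end

/-- finitely many jumps of the chains of the family -/
def FL (f : R →+* S) (P : Set (PPCond R × PPCond R)) (le : PPCond S → PPCond S → Prop)
    (a b : PPCond S) : Prop :=
  ∀ c : ℕ → PPCond R, (∀ i, PLe (c i) (c (i + 1))) → (∀ i, (c (i + 1), c i) ∈ P) →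
    ∃ n, ∀ i, n ≤ i → le (((c (i + 1)).map f).inf a) (b.sup ((c i).map f))

theorem exists_inv_le (f : R →+* S) (P : Set (PPCond R × PPCond R)) (hF : Fan P)
    (hP : ∀ p ∈ P, ¬ PLe (p.1.map f) (p.2.map f))
    (hsep : ∀ θ : F2 S, ∃ X, SupF X θ ∧ SepData f X) :
    ∃ le : PPCond S → PPCond S → Prop, Defble le ∧ InvP f P le ∧
      (∀ p ∈ P, ¬ le (p.1.map f) (p.2.map f)) ∧ ∀ φ ψ, ¬ MinPair (pull f le) φ ψ := by
  let A : Set (Set (PPCond S × PPCond S)) := {r | Defble (fun a b => (a, b) ∈ r) ∧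
    InvP f P (fun a b => (a, b) ∈ r) ∧ ∀ p ∈ P, (p.1.map f, p.2.map f) ∉ r}
  obtain ⟨r, -, hr⟩ := zorn_subset_nonempty A (fun c hc hch hne => by
    refine ⟨⋃₀ c, ⟨⟨fun h => ?_, ?_, ?_⟩, ?_, ?_⟩, fun s hs => Set.subset_sUnion_of_mem hs⟩
    · obtain ⟨s, hs⟩ := hne
      exact ⟨s, hs, (hc hs).1.of_le h⟩
    · rintro a b d ⟨s, hs, h1⟩ ⟨t, ht, h2⟩
      rcases hch.total hs ht with h | h
      · exact ⟨t, ht, (hc ht).1.trans (h h1) h2⟩
      · exact ⟨s, hs, (hc hs).1.trans h1 (h h2)⟩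
    · rintro θ a b ⟨s, hs, h1⟩
      exact ⟨s, hs, (hc hs).1.img θ h1⟩
    · rintro σ hσ a b ⟨s, hs, h1⟩
      exact ⟨s, hs, (hc hs).2.1 σ hσ a b h1⟩
    · rintro p hp ⟨s, hs, h1⟩
      exact (hc hs).2.2 p hp h1) {p | PLe p.1 p.2}
    ⟨defble_PLe, fun σ _ a b h => PLe.map σ h, hP⟩
  obtain ⟨H, hI, hn⟩ := hr.prop
  refine ⟨_, H, hI, hn, fun φ ψ hm => ?_⟩
  set le : PPCond S → PPCond S → Prop := fun a b => (a, b) ∈ r with hle
  let B : PPCond S → PPCond S → Prop := fun a b => le a b ∨ ∃ σ : S ≃+* S, Fixes f P σ ∧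
    ∃ θ : F2 S, a = θ.img ((φ.map f).map σ) ∧ b = θ.img ((ψ.map f).map σ)
  have three : ∀ {a a' b' b}, PLe a a' → B a' b' → PLe b' b → Relation.TransGen B a b :=
    fun h1 h2 h3 => ((Relation.TransGen.single (r := B) (Or.inl (H.of_le h1))).tail h2).tail
      (Or.inl (H.of_le h3))
  have lift : ∀ g : PPCond S → PPCond S, (∀ a b, B a b → Relation.TransGen B (g a) (g b)) →
      ∀ a b, Relation.TransGen B a b → Relation.TransGen B (g a) (g b) := by
    intro g hg a b h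
    induction h with
    | single h => exact hg _ _ h
    | tail _ h ih => exact ih.trans (hg _ _ h)
  have hFL : ∀ a b, B a b → FL f P le a b := by
    rintro a b (h | ⟨σ, hσ, θ, rfl, rfl⟩) c hc1 hc2
    · exact ⟨0, fun i _ => H.trans (H.of_le (inf_le_right' _ _))
        (H.trans h (H.of_le (le_sup_left' _ _)))⟩
    obtain ⟨X, hX1, hX2⟩ := hsep (θ.map σ.symm)
    obtain ⟨n, hn⟩ := acc_of_min H f hm hX1 hX2 c hc1
    refine ⟨n, fun i hi => ?_⟩
    have h1 : le (((c (i + 1)).map f).inf ((θ.map σ.symm).img (φ.map f)))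
        (((θ.map σ.symm).img (ψ.map f)).sup ((c i).map f)) := by
      refine H.of_good fun N _ _ hN x hx => ?_
      rw [mem_inf, mem_img] at hx
      obtain ⟨h1, y, h2, h3⟩ := hx
      obtain ⟨y2, k1, k2⟩ := (mem_sup _ _ _ _).1 (hN _ _ (hn i hi) (le_sup_left' _ _ _
        ((mem_inf _ _ _ _).2 ⟨h2, (mem_img _ _ _ _).2 ⟨x, h1, (ev_swap _ _ _ _).2 h3⟩⟩)))
      obtain ⟨x1, k3, k4⟩ := (mem_img _ _ _ _).1 ((mem_inf _ _ _ _).1 k2).2
      refine (mem_sup _ _ _ _).2 ⟨x1, k3, (mem_img _ _ _ _).2 ⟨y2, k1, ?_⟩⟩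
      simpa using F2.ev_sub h3 ((ev_swap _ _ _ _).1 k4)
    have h2 := hI σ hσ _ _ h1
    have hθ : (θ.map σ.symm).map σ = θ := by cases θ; simp [F2.map]
    refine H.trans (H.of_le fun M _ _ x hx => ?_) (H.trans h2 (H.of_le fun M _ _ x hx => ?_))
    · rw [aut_inf, aut_img, hθ, (hσ _ (hc2 i)).1]
      exact (mem_inf _ _ _ _).1 hx
    · rw [aut_sup, (hσ _ (hc2 i)).2] at hx
      simp only [aut_img, hθ] at hx
      exact (mem_sup _ _ _ _).2 hx
  have hFL' : ∀ a b, Relation.TransGen B a b → FL f P le a b := by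
    intro a b h
    induction h with
    | single h => exact hFL _ _ h
    | tail _ h ih =>
      intro c hc1 hc2
      obtain ⟨n1, h1⟩ := ih c hc1 hc2
      obtain ⟨n2, h2⟩ := hFL _ _ h c hc1 hc2
      refine ⟨max n1 n2, fun i hi => H.of_good fun N _ _ hN x hx => ?_⟩
      obtain ⟨y, k1, k2⟩ := (mem_sup _ _ _ _).1 (hN _ _ (h1 i (le_of_max_le_left hi)) hx)
      obtain ⟨z, k3, k4⟩ := (mem_sup _ _ _ _).1 (hN _ _ (h2 i (le_of_max_le_right hi))
        ((mem_inf _ _ _ _).2 ⟨PPCond.sub_mem ((mem_inf _ _ _ _).1 hx).1 ((hc1 i).res f N k1), k2⟩))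
      exact (mem_sup _ _ _ _).2 ⟨y + z, PPCond.add_mem k1 k3, by rwa [← sub_sub]⟩
  have hmem : {p : PPCond S × PPCond S | Relation.TransGen B p.1 p.2} ∈ A := by
    refine ⟨⟨fun h => Relation.TransGen.single (Or.inl (H.of_le h)), fun h h' => h.trans h',
      fun θ' a b h => lift (fun a => θ'.img a) ?_ a b h⟩,
      fun σ' hσ' a b h => lift (fun a => a.map σ') ?_ a b h, fun p hp h => ?_⟩
    · rintro a b (h | ⟨σ, hσ, θ, rfl, rfl⟩)
      · exact Relation.TransGen.single (Or.inl (H.img θ' h))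
      · obtain ⟨ρ, hρ⟩ := exists_comp_img θ' θ
        exact three (hρ _).1 (Or.inr ⟨σ, hσ, ρ, rfl, rfl⟩) (hρ _).2
    · rintro a b (h | ⟨σ, hσ, θ, rfl, rfl⟩)
      · exact Relation.TransGen.single (Or.inl (hI σ' hσ' _ _ h))
      · exact three (fun M _ _ x hx => (aut_img σ' M _ _ x).1 hx)
          (Or.inr ⟨σ.trans σ', hσ.trans hσ', θ.map σ', rfl, rfl⟩)
          (fun M _ _ x hx => (aut_img σ' M _ _ x).2 hx)
    · obtain ⟨c, h1, h2, h3, h4⟩ := hF p hp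
      obtain ⟨n, k⟩ := hFL' _ _ h c h3 h4
      exact hn _ (h4 n) (H.trans (H.of_le ((PLe.refl _).le_inf ((h2 _).res f)))
        (H.trans (k n le_rfl) (H.of_le (((h1 _).res f).sup_le (PLe.refl _)))))
  have hsub := hr.2 hmem (fun p hp => Relation.TransGen.single (Or.inl hp))
  refine hm.2.1 (hsub (a := (φ.map f, ψ.map f)) ?_)
  exact three (a' := ((pbot S).subst 1 (-1)).img ((φ.map f).map (RingEquiv.refl S)))
    (fun M _ _ x hx => (mem_img _ _ _ _).2 ⟨x, hx, by simp [ev_subst, mem_pbot]⟩)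
    (Or.inr ⟨RingEquiv.refl S, fun _ _ => ⟨rfl, rfl⟩, _, rfl, rfl⟩) (fun M _ _ x hx => by
      obtain ⟨y, h1, h2⟩ := (mem_img _ _ _ _).1 hx
      have : x = y := by
        rw [ev_subst, mem_pbot] at h2
        simpa [add_neg_eq_zero] using h2
      exact this ▸ h1)

end Pool.Agent.Lib.MP_1e63be_al
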